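import Pool.Agent.P.MP_8b7eba_nt.TC.Iface

/-! Step AUX. -/

set_option autoImplicit false

namespace Pool.Agent.P.MP_8b7eba_nt.SM.Tc

open Finset R2 X
open scoped Matrix

namespace AUXc

theorem ps_mul {l n : ℕ} (h4 : l % 4 = 3) (hn : Odd n) : ps (l * n) = -l * ps n := by
  have := Nat.odd_iff.1 hn
  unfold ps
  rcases BasG.four hn with e | e
  · rw [if_neg (by rw [Nat.mul_mod, h4, e]; norm_num), if_pos e]
    push_cast
    ring
  · rw [if_pos (by rw [Nat.mul_mod, h4, e]), if_neg (by omega)]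
    push_cast
    ring

theorem big {d : ℤ} (hd : Squarefree d) (h : ¬ d ∣ 30) : ∃ p : ℕ, p.Prime ∧ 5 < p ∧ (p : ℤ) ∣ d := by
  obtain ⟨b, n, a1, a2, a3, a4, a5⟩ := R3.split30 hd
  have n1 : n ≠ 1 := by
    rintro rfl
    exact h (by rw [a5, ps, if_pos rfl]; simpa using a1)
  obtain ⟨p, p1, p2⟩ := Nat.exists_prime_and_dvd n1
  have g := R3.gp_of a3 p (Nat.mem_primeFactors.2 ⟨p1, p2, a2.ne_zero⟩)
  exact ⟨p, p1, by have := g.ne.2.2.2.2.2; omega, Int.natCast_dvd.2 (p2.trans a4)⟩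

end AUXc

open AUXc R3

theorem p_AUX (hCORE : S_CORE) (hLOCA : S_LOCA) :
    S_AUX := by
  intro T d n4 hE h30
  have n5 := big n4 h30
  obtain ⟨b, n, hb, n2, n3, -, rfl⟩ := split30 n4
  obtain ⟨Λ, h1, -, h3⟩ := a_LATX T
  have gS := gp_of n3
  have ho : Odd n := Nat.coprime_two_right.1 (n3.coprime_dvd_right (by norm_num))
  refine ⟨0, fun c B c1 _ => ?_⟩
  have c0 : c ≠ 0 := by
    rintro rfl
    have := Int.isUnit_iff.1 (isUnit_of_mul_isUnit_left (isCoprime_zero_left.1 c1))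
    omega
  obtain ⟨l, ⟨l1, l2, l3, l4⟩, hl⟩ := hCORE (tw Λ hb) n.primeFactors c.primeFactors B
    (hLOCA T Λ b hb n h1 n2 n3 n4 hE)
    (fun j => let ⟨Λ', e, _⟩ := h3 j; ⟨tw Λ' hb, tw_sh hb e⟩) fun q hq => by
      have q1 := Nat.prime_of_mem_primeFactors hq
      have q2 : ¬ (q : ℤ) ∣ 30 * (b * ps n) := fun e => (Nat.prime_iff_prime_int.1 q1).not_unit
        (c1.isUnit_of_dvd' (Int.natCast_dvd_natCast.2 (Nat.dvd_of_mem_primeFactors hq)) e)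
      refine ⟨⟨q1, fun e => q2 (Dvd.dvd.mul_right (by exact_mod_cast e) _)⟩, fun e =>
        q2 (Dvd.dvd.mul_left (Dvd.dvd.mul_left ?_ _) _)⟩
      rw [Int.natCast_dvd, BasG.abs_ps]
      exact Nat.dvd_of_mem_primeFactors e
  refine ⟨l, l1, ⟨l3.gp.1, l2, n4, n5, fun q q1 q2 q3 => ?_⟩,
    fun q q1 q2 => l4 q (Nat.mem_primeFactors.2 ⟨q1, q2, c0⟩), fun δ d1 => ?_⟩
  · rw [← jac_swap l3.gp.1 l3.four q1 q2]
    exact l3.one q1 (dvd_tw hb q1 n2.ne_zero (q3.trans ⟨2, by ring⟩))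
  by_contra d2
  have cop : l.Coprime n := (Nat.Prime.coprime_iff_not_dvd l3.gp.1).2 fun e =>
    l3.nm (Nat.mem_primeFactors.2 ⟨l3.gp.1, e, n2.ne_zero⟩)
  have e1 : (-l * (b * ps n) : ℤ) = b * ps (l * n) := by
    rw [ps_mul l3.four ho]
    ring
  have e2 : (l * n).primeFactors = insert l n.primeFactors := by
    rw [cop.primeFactors_mul, l3.gp.1.primeFactors, insert_eq]
  rw [rk1_rt d1, e1] at d2
  obtain ⟨x, y, a1, a2, a3, a4⟩ := red0 hb h1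
    ((Nat.squarefree_mul cop).2 ⟨l3.gp.1.squarefree, n2⟩)
    (Nat.Coprime.mul_left ((Nat.Prime.coprime_iff_not_dvd l3.gp.1).2 l3.gp.2) n3) d2
    (p := l) (e2 ▸ mem_insert_self _ _)
  rw [e2] at a1
  exact hl ⟨x, y, a1, a2, a3, a4⟩

end Pool.Agent.P.MP_8b7eba_nt.SM.Tc
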