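import Pool.Agent.P.MP_8b7eba_nt.TC.Iface

/-! Step CHEB. -/

set_option autoImplicit false

namespace Pool.Agent.P.MP_8b7eba_nt.SM.Tc

open Finset R2 X
open scoped Matrix

namespace CHEBc

open TCHL COrth

variable {S Q : Finset ℕ} {D : ℤ} {g g' : GQ}

theorem qa (h0 : D ≠ 0) (hg : g ∈ G1 D) (hg' : g' ∈ G1 D) (e : qz (-1) g = qz (-1) g') {a : ℤ}
    (ha : a ∣ 15 * D) : qz a g = qz a g' := by
  have a0 : a.natAbs ≠ 0 :=
    Int.natAbs_ne_zero.2 (ne_zero_of_dvd_ne_zero (mul_ne_zero (by norm_num) h0) ha)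
  have a1 : (a.natAbs : ℤ) ∣ 15 * D := Int.natAbs_dvd.2 ha
  rcases Int.natAbs_eq a with k | k
  · rw [k, G1_nat hg _ a0 a1, G1_nat hg' _ a0 a1]
  · rw [k, neg_eq_neg_one_mul, qz_mul (by norm_num) (Nat.cast_ne_zero.2 a0), Pi.add_apply,
      Pi.add_apply, e, G1_nat hg _ a0 a1, G1_nat hg' _ a0 a1]

theorem tau_G1 : tau ∈ G1 D := fun _ hp _ =>
  (qz_tau hA.tau (Nat.cast_ne_zero.2 hp.ne_zero)).2 (Nat.cast_pos.2 hp.pos)

theorem zero_G1 {χ : X2} (hS : ∀ q ∈ S, Gp q) (hD : D = 2 * ∏ q ∈ S, (q : ℤ)) (h0 : D ≠ 0)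
    (h : IsCh ⊤ χ ∧ Un S χ ∧ χ tau = 0) (hg : g ∈ G1 D) : χ g = 0 := by
  have e : 15 * D = 30 * ∏ q ∈ S, (q : ℤ) := by rw [hD]; ring
  have k : ∀ g' ∈ G1 D, qz (-1) g = qz (-1) g' → χ g = χ g' := fun g' hg' k => by
    obtain ⟨c, hc⟩ := chars hS h.1 h.2.1
    rw [hc, hc g']
    congr 1
    · exact sum_congr rfl fun i _ => by
        rw [qa h0 hg hg' k (a := bs i) (e ▸ BasP.smz_dvd (S := S) (.inl i))]
    · refine sum_congr rfl fun q hq => ?_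
      rw [qs, qa h0 hg hg' k]
      rw [e]
      refine Dvd.dvd.mul_left ?_ _
      rw [← Int.natAbs_dvd, BasG.abs_ps]
      exact dvd_prod_of_mem (fun q : ℕ => (q : ℤ)) hq
  rcases BasG.f2 (qz (-1) g) with a | a
  · rw [k 1 (one_mem _) (a.trans (isCh_qz (H := ⊤) _).one.symm), h.1.one]
  · rw [k tau tau_G1 (a.trans (BasG.one_of_ne fun c =>
      absurd ((qz_tau hA.tau (by norm_num)).1 c) (by norm_num)).symm), h.2.2]

theorem c16_sq (e : qz 2 g = qz 2 g') : c16 (g * g * (g' * g')) = 1 := by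
  have h : qz 2 (g * g') = 0 := by
    rw [(isCh_qz (H := ⊤) 2).2 _ trivial _ trivial, e]
    exact CharTwo.add_self_eq_zero _
  rw [qz_two hA.ec] at h
  rw [← c16_one_iff]
  simp only [hA.ec.2.1, Units.val_mul] at h ⊢
  rcases h with ⟨k, h⟩ | ⟨k, h⟩
  · exact ⟨k + 4 * k ^ 2, by linear_combination ((cyc g : ℤ_[2]) * cyc g' + 1 + 8 * k) * h⟩
  · exact ⟨-k + 4 * k ^ 2, by linear_combination ((cyc g : ℤ_[2]) * cyc g' - 1 + 8 * k) * h⟩

theorem fr_C0 {B l : ℕ} (hS : ∀ q ∈ S, Gp q) (hQ : ∀ q ∈ Q, Gp q)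
    (hD : D = 2 * ∏ q ∈ S, (q : ℤ)) (h : Ad S Q B l) : C0 D Q (fr l) := by
  obtain ⟨-, h16, hl, hq⟩ := h
  have pl' := hl.gp.1
  refine ⟨fun p hp a => ?_, (c16_frob hA.ec (by rw [pl_p pl']; omega)
    (fr_frob pl' (by omega))).2 (by rwa [pl_p pl']), fun q a => ?_⟩
  · rw [hl.qz_eq hS (a.trans (dvd_of_eq (by rw [hD]; ring)))]
    exact tau_G1 p hp a
  · have e := hq q a
    rw [qz_fr pl' fun c => ?_, js, jac_swap pl' (by omega) (hQ q a).1 (hQ q a).ne.1, e,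
      if_neg (by decide)]
    rcases (Nat.Prime.dvd_mul pl').1 (show l ∣ 2 * q by exact_mod_cast c) with c | c
    · have := Nat.le_of_dvd (by norm_num) c
      omega
    · rw [← (Nat.prime_dvd_prime_iff_eq pl' (hQ q a).1).1 c, jacobiSym.mod_left,
        Int.emod_eq_zero_of_dvd (dvd_neg.2 dvd_rfl), jacobiSym.zero_left pl'.one_lt] at e
      exact absurd e (by decide)

end CHEBc

open CHEBc TCHL COrth in
theorem p_CHEB :
    S_CHEB := by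
  intro S Q B l ι _ φ u θ g h hS hQ hl hθ e2
  obtain ⟨D, hD⟩ : ∃ D : ℤ, D = 2 * ∏ q ∈ S, (q : ℤ) := ⟨_, rfl⟩
  have h0 : D ≠ 0 := hD ▸ mul_ne_zero two_ne_zero
    (prod_ne_zero_iff.2 fun q hq => Nat.cast_ne_zero.2 (hS q hq).1.ne_zero)
  have hQ' : ∀ q ∈ Q, Gp q := fun q hq => (hQ q hq).1
  have ha : ∀ i, ∀ x ∈ G1 D, ∀ y, θ i (x * y) = θ i x + θ i y ∧ θ i (y * x) = θ i y + θ i x :=
    fun i x hx y => by
      obtain ⟨h1, h2, h3, -⟩ := hθ i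
      rw [h3.2 x trivial y trivial, h3.2 y trivial x trivial]
      simp [d2, zero_G1 hS hD h0 h1 hx, zero_G1 hS hD h0 h2 hx]
  have sq : ∀ i x, θ i (x * x) = ee (φ i x) (u i x) := fun i x => by
    rw [(hθ i).2.2.1.2 x trivial x trivial, CharTwo.add_self_eq_zero, zero_add]
    rfl
  have c0 := fr_C0 hS hQ' hD hl
  have qq : ∀ (q : ℤ) x, qz q (x * x) = 0 := fun q x => by
    rw [(isCh_qz (H := ⊤) q).2 _ trivial _ trivial]
    exact CharTwo.add_self_eq_zero _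
  have c1 : C0 D Q (fr l * (g * g * (h * h))) := c0.mul ⟨mul_mem (G1_sq _ _) (G1_sq _ _),
    c16_sq e2, fun q _ => by rw [(isCh_qz (H := ⊤) _).2 _ trivial _ trivial, qq, qq, add_zero]⟩
  obtain ⟨w, f, hB, hf, f1, f2, f3⟩ := cheb hA h0 (ι := ι ⊕ Q)
    (Sum.elim θ fun q => qz (q : ℕ))
    (by rintro (i | q); exacts [(hθ i).2.2.1.1, (isCh_qz _).1])
    (by
      rintro (i | q) x hx y
      exacts [ha i x hx y, ⟨(isCh_qz (H := ⊤) _).2 _ trivial _ trivial,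
        (isCh_qz (H := ⊤) _).2 _ trivial _ trivial⟩])
    c1.1 c1.2.1 (B + l + 60 * ∏ q ∈ S, q + Q.sup id + 2)
  have c2 : C0 D Q f := ⟨f1, f2, fun q hq => (f3 (.inr ⟨q, hq⟩)).trans (c1.2.2 q hq)⟩
  have ar := c2.arith hS hQ' hD hf (by omega) fun e => by
    have := le_sup (f := id) e
    simp only [id] at this
    omega
  refine ⟨w.p, by omega, ⟨by omega, ar⟩, fun i => ?_⟩
  obtain ⟨σ, hσ⟩ := exists_smul w
  have h4 := hf.smul σ⁻¹
  rw [inv_smul_eq_iff.2 hσ.symm] at h4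
  have h5 := h4.inv_mul (fr_frob w.prime (by omega))
  have h6 := (hθ i).2.2.2 (pl w.p) (by rw [pl_p w.prime]; exact ar.2.1.gp.2)
    (by rw [pl_p w.prime]; exact ar.2.1.nm) _ h5
  have h7 := (ha i _ (G1_conj f1 σ⁻¹) σ⁻¹).1
  rw [inv_mul_cancel_right, (ha i f f1 σ⁻¹).2, add_comm, add_left_inj] at h7
  have h8 : θ i f = θ i (fr l * (g * g * (h * h))) := f3 (.inl i)
  rw [← mul_inv_cancel_left (σ⁻¹ * f * σ⁻¹⁻¹) (fr w.p), (ha i _ (G1_conj f1 σ⁻¹) _).1, h6,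
    add_zero, ← h7, h8, (ha i _ c0.1 _).1, (ha i _ (G1_sq _ _) _).1, sq, sq, add_assoc]

end Pool.Agent.P.MP_8b7eba_nt.SM.Tc
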