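import Pool.Agent.P.MP_8b7eba_nt.TC.Iface
import Pool.Agent.P.MP_8b7eba_nt.TC.TLocB

/-! Step CLAS. -/

set_option autoImplicit false

namespace Pool.Agent.P.MP_8b7eba_nt.SM.Tc

theorem p_CLAS : S_CLAS := fun _ T _ _ h2 hδ hm hS => TC.Loc.clas2 T h2 hδ hm.ne_zero hS

end Pool.Agent.P.MP_8b7eba_nt.SM.Tc
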