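import Pool.Agent.P.MP_8b7eba_nt.TC.Iface

/-! Step CNT1. -/

set_option autoImplicit false

namespace Pool.Agent.P.MP_8b7eba_nt.SM.Tc

open Finset R2 X
open scoped Matrix

namespace CNT1c

theorem vec1 : ∀ (j : Fin 2) (v x y : V1), v ≠ 0 → v ≠ Pi.single j 1 → ee v x = 0 → ee v y = 0 →
    x (j + 1) = y (j + 1) → x = y := by
  unfold ee
  decide

theorem vec2 : ∀ (j : Fin 2) (x : V1), ee (Pi.single j 1) x = 0 → Pi.single j (x j) = x := by
  unfold ee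
  decide

theorem key (hFINW : S_FINW) (hGW : S_GW) {Λ : Lat} {S : Finset ℕ} {v : V1} (hL : Loc Λ S)
    (hv : v ≠ 0) (h4 : 4 * (XX Λ S : Set X2).ncard ≤ (Av (XX Λ S) v).ncard ^ 2) (j : Fin 2)
    (hj : v ≠ Pi.single j 1) {a b c : ℕ} (ha : Dm (Lj Λ (chi S) j 2) 2 a)
    (hb : Dm (Lj Λ (chi S) j 3) 3 b) (hc : Dm (Lj Λ (chi S) j 5) 5 c) :
    a + b + c ≤ 2 ∧ (a + b + c = 2 → (Av (XX Λ S) v).ncard ^ 2 ≤ 4 * (XX Λ S : Set X2).ncard ∧
      ∀ α ∈ Sr S (Lj Λ (chi S) j), ∃ x ∈ Av (XX Λ S) v, (fun g => x g (j + 1)) = α) := by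
  obtain ⟨f1, f2⟩ := hFINW S hL.gp
  have fX : (XX Λ S : Set X2).Finite := f2.subset fun x hx => ⟨hx.1, hx.2.1⟩
  have fA : (Av (XX Λ S) v).Finite := fX.subset fun x hx => hx.1
  have fP : (Sp S (Lj Λ (chi S) j)).Finite := f1.subset fun x hx => ⟨hx.1, hx.2.1⟩
  have fR : (Sr S (Lj Λ (chi S) j)).Finite := f1.subset fun x hx => ⟨hx.1, hx.2.1⟩
  have pA : 0 < (Av (XX Λ S) v).ncard :=
    (Set.ncard_pos fA).2 ⟨0, zero_mem _, fun g => by simp [ee]⟩
  have pP : 0 < (Sp S (Lj Λ (chi S) j)).ncard :=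
    (Set.ncard_pos fP).2 ⟨0, ax_mem_XX.1 (by rw [map_zero]; exact zero_mem _)⟩
  have inj : Set.InjOn (fun (x : X2) (g : GQ) => x g (j + 1)) (Av (XX Λ S) v) :=
    fun x hx y hy e => funext fun g => vec1 j v _ _ hv hj (hx.2 g) (hy.2 g) (congrFun e g)
  have sub : (fun (x : X2) (g : GQ) => x g (j + 1)) '' Av (XX Λ S) v ⊆ Sr S (Lj Λ (chi S) j) := by
    rintro _ ⟨x, hx, rfl⟩
    exact XX.sr hx.1 j
  have c1 : (Av (XX Λ S) v).ncard ≤ (Sr S (Lj Λ (chi S) j)).ncard := by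
    rw [← inj.ncard_image]
    exact Set.ncard_le_ncard sub fR
  have c2 : (Av (XX Λ S) v).ncard * (Sp S (Lj Λ (chi S) j)).ncard ≤ (XX Λ S : Set X2).ncard := by
    rw [← Set.ncard_prod]
    refine Set.ncard_le_ncard_of_injOn (fun q => q.1 + ax j q.2)
      (fun q hq => add_mem hq.1.1 (ax_mem_XX.2 hq.2)) (fun q hq r hr e => ?_) fX
    have e' : q.1 + ax j q.2 = r.1 + ax j r.2 := e
    have e1 : q.1 = r.1 := inj hq.1 hr.1 (funext fun g => by
      have := congrFun (congrFun e' g) (j + 1)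
      simpa only [Pi.add_apply, ax_succ, add_zero] using this)
    rw [e1, add_right_inj] at e'
    refine Prod.ext e1 (funext fun g => ?_)
    rw [← ax_same j q.2 g, e', ax_same]
  have c3 := hGW S (Lj Λ (chi S) j) a b c hL.gp (sat_Lj Λ _ j S) (hL.dS j) ha hb hc
  have c4 : 4 * (Sp S (Lj Λ (chi S) j)).ncard ≤ (Av (XX Λ S) v).ncard := by
    refine Nat.le_of_mul_le_mul_left ?_ pA
    nlinarith
  refine ⟨?_, fun e => ?_⟩
  · by_contra h
    have : 2 ^ 3 ≤ 2 ^ (a + b + c) := Nat.pow_le_pow_right (by norm_num) (by omega)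
    nlinarith
  · rw [e] at c3
    have c5 : (Av (XX Λ S) v).ncard = 4 * (Sp S (Lj Λ (chi S) j)).ncard := by omega
    refine ⟨by nlinarith, fun α hα => ?_⟩
    have := Set.eq_of_subset_of_ncard_le sub (by rw [inj.ncard_image]; omega) fR
    rw [← this] at hα
    exact hα

theorem onto {Λ : Lat} {S : Finset ℕ} {j : Fin 2} {α : GQ → F2}
    (h : ∃ x ∈ Av (XX Λ S) (Pi.single (j + 1) 1), (fun g => x g (j + 1)) = α) :
    ax (j + 1) α ∈ XX Λ S := by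
  obtain ⟨x, hx, rfl⟩ := h
  have : ax (j + 1) (fun g => x g (j + 1)) = x := funext fun g => vec2 (j + 1) _ (hx.2 g)
  rw [this]
  exact hx.1

end CNT1c

open CNT1c in
theorem p_CNT1 (hFINW : S_FINW) (hGW : S_GW) :
    S_CNT1 := by
  intro Λ S v hL hv h4
  have K := fun j hj a b c => @key hFINW hGW Λ S v hL hv h4 j hj a b c
  have ne : (Pi.single 0 1 : V1) ≠ Pi.single 1 1 := by decide
  have z := fun j p => Dm.zero (Lj Λ (chi S) j p) p
  obtain ⟨a0, a1⟩ := hL.d2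
  rcases hL.d5 with ⟨c0, c1, -⟩ | hD
  · exfalso
    by_cases h0 : v = Pi.single 0 1
    · rcases hL.d3 with ⟨-, b1⟩ | b1
      · have := (K 1 (h0 ▸ ne) _ _ _ a1 b1 c1).1
        omega
      · have := (K 1 (h0 ▸ ne) _ _ _ a1 b1 c1).1
        omega
    · have := (K 0 h0 _ _ _ a0 (z 0 3) c0).1
      omega
  · rcases hL.d3 with ⟨b0, b1⟩ | b1
    · have h0 : v = Pi.single 0 1 := by
        by_contra h0
        have := (K 0 h0 _ _ _ a0 b0 (z 0 5)).1
        omega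
      obtain ⟨k1, k2⟩ := (K 1 (h0 ▸ ne) _ _ _ a1 b1 (z 1 5)).2 rfl
      refine ⟨hD, k1, 1, 1, 1, 2, 1, h0, fun α hα => onto ?_, rfl, rfl, a1, b1, a0, b0⟩
      have := k2 α hα
      rw [h0] at this
      exact this
    · have h1 : v = Pi.single 1 1 := by
        by_contra h1
        have := (K 1 h1 _ _ _ a1 b1 (z 1 5)).1
        omega
      obtain ⟨k1, k2⟩ := (K 0 (h1 ▸ ne.symm) _ _ _ a0 (z 0 3) (z 0 5)).2 rfl
      refine ⟨hD, k1, 0, 2, 0, 1, 2, h1, fun α hα => onto ?_, rfl, rfl, a0, z 0 3, a1, b1⟩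
      have := k2 α hα
      rw [h1] at this
      exact this

end Pool.Agent.P.MP_8b7eba_nt.SM.Tc
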