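import Pool.Agent.P.MP_8b7eba_nt.TC.Iface

/-! Step CNT2. -/

set_option autoImplicit false

namespace Pool.Agent.P.MP_8b7eba_nt.SM.Tc

open Finset R2 X
open scoped Matrix

namespace CNT2c

theorem f1 : ∀ (j : Fin 2) (x : V1), ee (Pi.single j 1) x = 0 → x (j + 1) = 0 := by decide

theorem f2 : ∀ (j : Fin 2) (v x y : V1), v ≠ 0 → v ≠ Pi.single j 1 → ee v x = 0 → ee v y = 0 →
    x (j + 1) = y (j + 1) → x = y := by decide

theorem f3 : ∀ (j : Fin 2) (x y : V1), x (j + 1) = y (j + 1) → x j = y j → x = y := by decide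

theorem f4 : ∀ j : Fin 2, j + 1 + 1 = j := by decide

theorem co (j : Fin 2) (α γ : GQ → F2) (g : GQ) : (ax (j + 1) α + ax j γ) g (j + 1) = α g := by
  rw [Pi.add_apply, Pi.add_apply, ax_same, ax_succ, add_zero]

end CNT2c

open CNT2c in
theorem p_CNT2 (hFINW : S_FINW) (hGW : S_GW) (hSHL : S_SHL) :
    S_CNT2 := by
  intro Λ Λ' j S a b a' b' v hS hs dS e e' d2 d3 d2' d3' d5 hl hv
  obtain ⟨F1, F2'⟩ := hFINW S hS
  have fr : ∀ L, (Sr S L).Finite := fun L => F1.subset fun α h => ⟨h.1, h.2.1⟩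
  have fp : ∀ L, (Sp S L).Finite := fun L => F1.subset fun α h => ⟨h.1, h.2.1⟩
  have fx : (XX Λ' S : Set X2).Finite := F2'.subset fun α h => ⟨h.1, h.2.1⟩
  have cross : ∀ p, ∀ α ∈ Lj Λ (chi S) (j + 1) p, ∀ β ∈ Lj Λ' (chi S) j p,
      iv p (cu β α) = 0 := fun p α hα β hβ => by
    obtain ⟨γ, h⟩ := (hSHL Λ Λ' j (chi S) p hs).2.2 α hα
    simpa only [co] using Lj.iso (isCh_chi S) hβ h
  have le : ∀ p, Lj Λ (chi S) j p ≤ Lj Λ' (chi S) j p := fun p α hα => by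
    have := (hSHL Λ' Λ (j + 1) (chi S) p (hSHL Λ Λ' j (chi S) p hs).1).2.1 _ (mem_Lj.1 hα)
    simpa only [f4, ax_same] using this
  have h1 : (Sp S (Lj Λ (chi S) (j + 1))).ncard ≤ (Sp S (Lj Λ' (chi S) j)).ncard := by
    have a1 := hGW S _ a b 2 hS (sat_Lj Λ' (chi S) j S) (fun p hp => (dS j p hp).mono (le p))
      (d2.mono (le 2)) (d3.mono (le 3)) d5
    have a2 := Set.ncard_le_ncard (show Sp S (Lj Λ (chi S) (j + 1)) ⊆ Sr S (Lj Λ' (chi S) j) from
      fun α h => ⟨h.1, h.2.1, fun p hp β hβ => cross p α (h.2.2.2 p hp) β hβ⟩) (fr _)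
    rw [e] at a1
    omega
  have h2 : (Sp S (Lj Λ' (chi S) j)).ncard ≤ 2 * (Sp S (Lj Λ (chi S) (j + 1))).ncard := by
    have a1 := hGW S _ a' b' 0 hS (sat_Lj Λ (chi S) (j + 1) S) (dS _) d2' d3' (Dm.zero _ _)
    have a2 := Set.ncard_le_ncard (show Sp S (Lj Λ' (chi S) j) ⊆ Sr S (Lj Λ (chi S) (j + 1)) from
      fun α h => ⟨h.1, h.2.1, fun p hp β hβ => (iv_swap (Lj.ch hβ) (Lj.ch (h.2.2.2 p hp))).trans
        (cross p β hβ α (h.2.2.2 p hp))⟩) (fr _)
    rw [e'] at a1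
    omega
  have h3 : (Sp S (Lj Λ (chi S) (j + 1))).ncard * (Sp S (Lj Λ' (chi S) j)).ncard ≤
      (XX Λ' S : Set X2).ncard := by
    choose! γ hγ using hl
    rw [← Set.ncard_prod]
    refine Set.ncard_le_ncard_of_injOn (fun z => ax (j + 1) z.1 + ax j (γ z.1 + z.2))
      (fun z hz => ?_) ?_ fx
    · rw [map_add, ← add_assoc]
      exact add_mem (hγ _ (ax_mem_XX.2 hz.1)) (ax_mem_XX.2 hz.2)
    · rintro ⟨α, β⟩ - ⟨α', β'⟩ - (h : ax (j + 1) α + ax j _ = ax (j + 1) α' + ax j _)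
      obtain rfl : α = α' := funext fun g => by
        simpa only [co] using congrFun (congrFun h g) (j + 1)
      have h' := add_left_cancel h
      rw [map_add, map_add, add_right_inj] at h'
      obtain rfl : β = β' := funext fun g => by
        simpa only [ax_same] using congrFun (congrFun h' g) j
      rfl
  have h4 : 0 < (XX Λ' S : Set X2).ncard := (Set.ncard_pos fx).2 ⟨0, zero_mem _⟩
  by_cases c : v = Pi.single j 1
  · subst c
    have h5 : (Av (XX Λ' S) (Pi.single j 1)).ncard ≤ (Sp S (Lj Λ' (chi S) j)).ncard := by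
      refine Set.ncard_le_ncard_of_injOn (fun x g => x g j) (fun x hx => ax_mem_XX.1 ?_)
        (fun x hx y hy h => funext fun g => f3 j _ _ ((f1 j _ (hx.2 g)).trans
          (f1 j _ (hy.2 g)).symm) (congrFun h g)) (fp _)
      rw [show (ax j fun g => x g j) = x from funext fun g => f3 j _ _
        ((ax_succ _ _ _).trans (f1 j _ (hx.2 g)).symm) (ax_same _ _ _)]
      exact hx.1
    nlinarith [Nat.pow_le_pow_left h5 2, Nat.mul_le_mul_right (Sp S (Lj Λ' (chi S) j)).ncard h2]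
  · have h5 : (Av (XX Λ' S) v).ncard ≤ (Sp S (Lj Λ (chi S) (j + 1))).ncard :=
      Set.ncard_le_ncard_of_injOn (fun x g => x g (j + 1)) (fun x hx => ⟨isCh_co hx.1.1 _,
        fun w a b g hg => congrFun (hx.1.2.1 w a b g hg) _, congrFun hx.1.2.2.1 _,
        fun p hp => (hSHL Λ Λ' j (chi S) p hs).2.1 x (hx.1.2.2.2 p hp)⟩)
        (fun x hx y hy h => funext fun g => f2 j v _ _ hv c (hx.2 g) (hy.2 g) (congrFun h g)) (fp _)
    nlinarith [Nat.pow_le_pow_left h5 2,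
      Nat.mul_le_mul_left (Sp S (Lj Λ (chi S) (j + 1))).ncard h1]

end Pool.Agent.P.MP_8b7eba_nt.SM.Tc
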