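import Pool.Agent.P.MP_8b7eba_nt.TC.Iface

/-! Step CORE. -/

set_option autoImplicit false

namespace Pool.Agent.P.MP_8b7eba_nt.SM.Tc

open Finset R2 X
open scoped Matrix

namespace COREc

theorem ax_pred (j : Fin 2) (α : GQ → F2) (g : GQ) : ax (j + 1) α g j = 0 := by
  rw [ax_apply, Pi.single_eq_of_ne ((by decide : ∀ j : Fin 2, j ≠ j + 1) j)]

theorem av {Λ : Lat} {S : Finset ℕ} {i : Fin 2} {α : GQ → F2} (h : ax i α ∈ XX Λ S) :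
    ax i α ∈ Av (XX Λ S) (Pi.single i 1) :=
  ⟨h, fun g => by fin_cases i <;> simp [ee, ax_apply]⟩

end COREc

theorem p_CORE (hMAX : S_MAX) (hRAD : S_RAD) (hTWO : S_TWO) (hLIFT : S_LIFT) (hCNT1 : S_CNT1) (hCNT2 : S_CNT2) (hDG5 : S_DG5) :
    S_CORE := by
  intro Λ S Q B hL hsh hQ
  obtain ⟨l, F, hA, hF, h | ⟨v, hv, h⟩⟩ := hMAX Λ S Q B hL.gp hQ
    (hL.d5.elim (fun a => a.2.2) fun a => (hDG5 Λ S a).1)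
  · exact ⟨l, hA, hRAD Λ S l F hL.gp hA.2.2.1 hF h⟩
  obtain ⟨hD, hle, j, a, b, a', b', rfl, hSr, e, e', d1, d2, d3, d4⟩ := hCNT1 Λ S v hL hv h.1
  obtain ⟨Λ', hs⟩ := hsh j
  obtain ⟨d5, g0⟩ := (hDG5 Λ S hD).2 Λ' j hs
  obtain ⟨l', F', hA', hF', h' | ⟨v', hv', h'⟩⟩ := hMAX Λ' S Q B hL.gp hQ g0
  · exact ⟨l', hA', fun h2 => hRAD Λ' S l' F' hL.gp hA'.2.2.1 hF' h' (hTWO Λ Λ' j S l' hs h2)⟩
  refine absurd h'.1 (not_le.2 (hCNT2 Λ Λ' j S a b a' b' v' hL.gp hs hL.dS e e' d1 d2 d3 d4 d5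
    (fun α hα => ?_) hv'))
  exact hLIFT Λ Λ' j S l F ⟨_, hα⟩ hL.gp hs hA.2.2.1 hF (COREc.ax_pred j α) fun β hβ =>
    ⟨⟨_, hSr β hβ⟩, rfl, h.2 hle _ _ (COREc.av hα) (COREc.av (hSr β hβ))⟩

end Pool.Agent.P.MP_8b7eba_nt.SM.Tc
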