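import Pool.Agent.P.MP_8b7eba_nt.TC.Iface

/-! Step DG5. -/

set_option autoImplicit false

namespace Pool.Agent.P.MP_8b7eba_nt.SM.Tc

open Finset R2 X
open scoped Matrix

namespace DG5c

theorem p5 : Nat.Prime 5 := by norm_num

theorem fr5 : qz 2 (fr 5) = 1 := by
  rw [qz_fr p5 (by norm_num), js, if_neg (by norm_num)]

theorem dm {L : Submodule F2 (GQ → F2)} (h : ∀ c, IsCh (pl 5).D c → c ∈ L) : Dm L 5 2 :=
  Dm.two (h _ (isCh_qs 5)) (h _ (isCh_qz 2)) (tp_D p5 (by norm_num)) (fr_D p5 (by norm_num))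
    (qs_tp_self p5 (by norm_num)) (qs_fr_self p5 (by norm_num)) fr5

theorem dgax (c : GQ → F2) : (ax 0 + ax 1) c = fun g _ => c g :=
  ax_add_ax (fun g _ => c g) 0

theorem mem5 (S : Finset ℕ) : 5 ∈ S ∪ T30 := mem_union_right _ (mem_T30.2 ⟨p5, by norm_num⟩)

end DG5c

open DG5c in

theorem p_DG5 (hLD : S_LD) (hSHL : S_SHL) :
    S_DG5 := by
  intro Λ S h
  have hf := fr_D p5 (by norm_num)
  refine ⟨⟨fr 5, fr5, ?_⟩, fun Λ' j hj => ?_⟩
  · have key : ∀ x ∈ XX Λ S, x (fr 5) 1 + x (fr 5) 0 = 0 := by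
      intro x hx
      have h5 := hx.2.2.2 5 (mem5 S)
      have hc := LL.ch h5
      have hL : ∀ β ∈ (LL Λ (chi S) 5).comap (ax 0 + ax 1), IsCh (pl 5).D β := fun β hβ => by
        have := isCh_co (LL.ch (Submodule.mem_comap.1 hβ)) 0
        rwa [dgax] at this
      have ha : IsCh (pl 5).D ((fun g => x g 1) + fun g => x g 0) :=
        (isCh_co hc 1).add (isCh_co hc 0)
      have ho : ∀ β ∈ (LL Λ (chi S) 5).comap (ax 0 + ax 1),
          iv 5 (cu β ((fun g => x g 1) + fun g => x g 0)) = 0 := fun β hβ => by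
        rw [← LL.iso (isCh_chi S) (Submodule.mem_comap.1 hβ) h5, dgax]
        exact iv_congr fun g _ k _ => mul_add _ _ _
      exact (hLD 5 _ _ _ p5 hL ha ha ho ho).1
        (dm fun c hc => Submodule.mem_comap.2 (by rw [dgax]; exact h c hc)) _ hf
    intro x hx y hy
    rw [ee]
    linear_combination y (fr 5) 0 * key x hx + x (fr 5) 0 * key y hy -
      x (fr 5) 0 * y (fr 5) 0 * (by decide : (2 : F2) = 0)
  · have e : j + 1 + 1 = j := by fin_cases j <;> rfl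
    have hd : Dm (Lj Λ' (chi S) j 5) 5 2 := dm fun c hc => by
      have := (hSHL Λ' Λ (j + 1) (chi S) 5 (hSHL Λ Λ' j (chi S) 5 hj).1).2.1 _ (h c hc)
      rwa [e] at this
    refine ⟨hd, fr 5, fr5, ?_⟩
    have key : ∀ x ∈ XX Λ' S, x (fr 5) (j + 1) = 0 := by
      intro x hx
      have h5 := hx.2.2.2 5 (mem5 S)
      have ha := isCh_co (LL.ch h5) (j + 1)
      have ho : ∀ β ∈ Lj Λ' (chi S) j 5, iv 5 (cu β fun g => x g (j + 1)) = 0 :=
        fun β hβ => Lj.iso (isCh_chi S) hβ h5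
      exact (hLD 5 _ _ _ p5 (fun _ => Lj.ch) ha ha ho ho).1 hd _ hf
    intro x hx y hy
    have h1 := key x hx
    have h2 := key y hy
    rw [ee]
    fin_cases j
    · rw [show x (fr 5) 1 = 0 from h1, show y (fr 5) 1 = 0 from h2, mul_zero, zero_mul, add_zero]
    · rw [show x (fr 5) 0 = 0 from h1, show y (fr 5) 0 = 0 from h2, mul_zero, zero_mul, add_zero]

end Pool.Agent.P.MP_8b7eba_nt.SM.Tc
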