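import Pool.Agent.P.MP_8b7eba_nt.TC.Iface

/-! Step FINW. -/

set_option autoImplicit false

namespace Pool.Agent.P.MP_8b7eba_nt.SM.Tc

open Finset R2 X
open scoped Matrix

namespace FINWc

theorem fin {A : Type} [AddCommGroup A] [Module F2 A] [Finite A] {S : Finset ℕ}
    (hS : ∀ p ∈ S, Gp p) : {χ : GQ → A | IsCh ⊤ χ ∧ Un S χ}.Finite := by
  refine (Set.finite_range fun (c : (Fin 4 → A) × (S → A)) (g : GQ) =>
    ∑ i, qz (bs i) g • c.1 i + ∑ p : S, qs p g • c.2 p).subset fun χ h => ?_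
  obtain ⟨c, hc⟩ := chars hS h.1 h.2
  refine ⟨(c, fun p => χ (tp p)), funext fun g => ?_⟩
  rw [hc g, ← sum_coe_sort S fun p => qs p g • χ (tp p)]

end FINWc

theorem p_FINW :
    S_FINW := fun _ hS => ⟨FINWc.fin hS, FINWc.fin hS⟩

end Pool.Agent.P.MP_8b7eba_nt.SM.Tc
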