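import Pool.Agent.P.MP_8b7eba_nt.TC.Iface

/-! Step GW. -/

set_option autoImplicit false

namespace Pool.Agent.P.MP_8b7eba_nt.SM.Tc

open Finset R2 X
open scoped Matrix

namespace GWc

open QT.PP Module

theorem dm_le {p k : ℕ} {L : Submodule F2 (GQ → F2)} (hp : p.Prime)
    (hL : (∀ α ∈ L, IsCh (pl p).D α) ∧ ∀ α, (∀ g ∈ (pl p).D, α g = 0) → α ∈ L) (h : Dm L p k) :
    k ≤ finrank F2 (L.comap (Hc p).subtype) := by
  have := (hc_fin hp).1
  obtain ⟨f, f1, f2⟩ := h
  let v : Fin k → L.comap (Hc p).subtype := fun i => ⟨rc p (hL.1 _ (f1 i)), by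
    change (rc p (hL.1 _ (f1 i))).1 ∈ L
    rw [← sub_add_cancel (rc p (hL.1 _ (f1 i))).1 (f i)]
    exact add_mem (hL.2 _ fun g hg => by rw [Pi.sub_apply, rc_of _ hg, sub_self]) (f1 i)⟩
  have hv : LinearIndependent F2 v := Fintype.linearIndependent_iff.2 fun c hc i =>
    congrFun (f2 c fun g hg => by
      have := congrArg (fun z : L.comap (Hc p).subtype => z.1.1 g) hc
      simpa [v, rc_of _ hg] using this) i
  simpa using hv.fintype_card_le_finrank

theorem cd {V : Type} [AddCommGroup V] [Module F2 V] [FiniteDimensional F2 V]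
    (K : Submodule F2 V) : (K : Set V).ncard = 2 ^ finrank F2 K := by
  rw [← Nat.card_coe_set_eq]
  exact (Module.natCard_eq_pow_finrank (K := F2) (V := K)).trans (by rw [Nat.card_zmod])

end GWc

open QT.PP Module GWc in
theorem p_GW :
    S_GW := by
  classical
  intro S L a b c hS hL h1 h2 h3 h5
  have := hh_fin hS
  have : Finite (HH S) := Module.finite_of_finite F2
  have k : ∀ p ∈ S ∪ T30, ∀ α ∈ L p, ∀ β, (∀ g ∈ (pl p).D, β g = α g) → β ∈ L p :=
    fun p hp α a β e => by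
      rw [← sub_add_cancel β α]
      exact add_mem ((hL p hp).2 _ fun g hg => by rw [Pi.sub_apply, e g hg, sub_self]) a
  let U : (p : Ix S) → Submodule F2 (Hc p) := fun p => (L p).comap (Hc p).subtype
  let r : (GQ → F2) → HH S := fun χ => if h : IsCh ⊤ χ then rg S h else 0
  have rs : ∀ χ, IsCh ⊤ χ → Rs χ (r χ) := fun χ h => by
    simp only [r, dif_pos h]
    exact rs_rg h
  have inj : Set.InjOn r {χ | Gc S χ} := fun χ x ψ y e => by
    refine sub_eq_zero.1 (Gc.zero (S := S) ⟨?_, fun w u v g hg => ?_⟩ fun p g hg => ?_)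
    · exact ch_congr (x.1.add y.1) fun g _ => CharTwo.sub_eq_add _ _
    · rw [Pi.sub_apply, x.2 w u v g hg, y.2 w u v g hg, sub_self]
    · rw [Pi.sub_apply, ← rs χ x.1 p g hg, ← rs ψ y.1 p g hg, e, sub_self]
      rfl
  have e1 : (Sr S L).ncard ≤
      2 ^ finrank F2 ((BB S).orthogonal (GG S False ⊔ Submodule.pi Set.univ U)) := by
    rw [← cd]
    refine Set.ncard_le_ncard_of_injOn r (fun χ x => ?_)
      (inj.mono fun χ x => And.intro x.1 x.2.1)
    rw [CG.PA.orth_sup, (gg_dual hS).2.1, orth_pi]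
    exact ⟨⟨χ, ⟨x.1, x.2.1⟩, rs χ x.1, .inl trivial⟩, fun p _ β e =>
      (bp_of (fun _ _ => rfl) (rs χ x.1 p)).trans (x.2.2 p p.2 _ e)⟩
  have e2 : (Sp S L).ncard = 2 ^ finrank F2 ↥(GG S False ⊓ Submodule.pi Set.univ U) := by
    rw [← cd, ← (inj.mono (s₁ := Sp S L) fun χ x => And.intro x.1 x.2.1).ncard_image]
    congr 1
    ext n
    refine ⟨?_, ?_⟩
    · rintro ⟨χ, x, rfl⟩
      exact ⟨⟨χ, ⟨x.1, x.2.1⟩, rs χ x.1, .inr x.2.2.1⟩, fun p _ =>
        k p p.2 χ (x.2.2.2 p p.2) _ (rs χ x.1 p)⟩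
    · rintro ⟨⟨χ, x, y, z⟩, u⟩
      exact ⟨χ, ⟨x.1, x.2, z.resolve_left id, fun p hp => k p hp _ (u ⟨p, hp⟩ trivial) _
        fun g hg => (y ⟨p, hp⟩ g hg).symm⟩, (rs χ x.1).eq y⟩
  have e3 : S.card + (a + b + c) ≤ finrank F2 (Submodule.pi Set.univ U) := by
    have m : ∀ p ∈ T30, p ∈ S ∪ T30 := fun p hp => mem_union_right _ hp
    have b2 := dm_le Nat.prime_two (hL 2 (m 2 (by decide))) h2
    have b3 := dm_le Nat.prime_three (hL 3 (m 3 (by decide))) h3
    have b5 := dm_le Nat.prime_five (hL 5 (m 5 (by decide))) h5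
    rw [rk_pi hS, sum_coe_sort (S ∪ T30) fun p => finrank F2 ((L p).comap (Hc p).subtype),
      sum_union (disj hS)]
    refine add_le_add ?_ ?_
    · simpa using card_nsmul_le_sum S _ 1 fun p hp =>
        dm_le (hS p hp).1 (hL p (mem_union_left _ hp)) (h1 p hp)
    · rw [T30, sum_insert (by decide), sum_pair (by decide)]
      omega
  have e4 := (BB S).finrank_orthogonal bb_nd (GG S False ⊔ Submodule.pi Set.univ U)
  have e5 := (Nat.add_le_add_left e3 _).trans_eq
    (Submodule.finrank_sup_add_finrank_inf_eq (GG S False) _).symm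
  have e6 := Submodule.finrank_le (GG S False ⊔ Submodule.pi Set.univ U)
  obtain ⟨-, -, -, e7, e8⟩ := gg_dual hS
  refine (Nat.mul_le_mul_right _ e1).trans ?_
  rw [e2, ← pow_add, show 16 = 2 ^ 4 from rfl, ← pow_add]
  exact Nat.pow_le_pow_right two_pos (by omega)

end Pool.Agent.P.MP_8b7eba_nt.SM.Tc
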