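import Pool.Agent.P.MP_8b7eba_nt.TC.Iface

/-! Step HIL2. -/

set_option autoImplicit false

namespace Pool.Agent.P.MP_8b7eba_nt.SM.Tc

open Finset R2 X
open scoped Matrix

namespace HIL2c

theorem mul' (m : ℤ) (g h : GQ) : qz m (g * h) = qz m g + qz m h :=
  (isCh_qz (H := ⊤) m).2 g trivial h trivial

/-- reciprocity for two quadratic characters -/
theorem rec2 {m n : ℤ} {p : ℕ} (hp : p.Prime) (h2 : p ≠ 2) (hn : 0 < n)
    (hd : ∀ q : ℕ, q.Prime → q ≠ 2 → q ≠ p → ¬ (q : ℤ) ∣ 2 * m ∧ ¬ (q : ℤ) ∣ 2 * n) :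
    iv 2 (cu (qz m) (qz n)) = iv p (cu (qz m) (qz n)) := by
  have h := recp_iv (S := {2, p}) (κ := cu (qz m) (qz n)) (fun q hq => by
      rcases mem_insert.1 hq with rfl | hq
      · exact Nat.prime_two
      · rwa [mem_singleton.1 hq])
    (co2_cu (isCh_qz m) (isCh_qz n))
    (Triv.one.congr fun g _ k hk => by
      simp [sgn, cu, zero_Ht (isCh_qz n) ((qz_tau hA.tau hn.ne').2 hn) hk])
    fun w hw => by
      have h1 := hd w.p w.prime (fun e => hw (by rw [e]; exact mem_insert_self _ _))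
        fun e => hw (by rw [e]; exact mem_insert_of_mem (mem_singleton_self _))
      refine BasN.unr (co2_cu (isCh_qz m) (isCh_qz n)) fun g _ k _ i hi => ⟨?_, ?_⟩
      · rw [cu, cu, mul', qz_I hA h1.1 hi, add_zero]
      · rw [cu, cu, mul', qz_I hA h1.2 hi, add_zero]
  rw [sum_pair h2.symm] at h
  exact (by decide : ∀ a b : F2, a + b = 0 → a = b) _ _ h

theorem tp0 {m : ℤ} {p : ℕ} (hp : p.Prime) (h2 : p ≠ 2) (h : ¬ (p : ℤ) ∣ 2 * m) :
    qz m (tp p) = 0 := qz_I hA (by rwa [pl_p hp]) (tp_I hp h2)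

theorem tp1 {p : ℕ} (hp : p.Prime) (h2 : p ≠ 2) : qz p (tp p) = 1 := by
  have e := pl_p hp
  have := qz_gen hA (m := p) (by rwa [e]) (tp_I hp h2) (by rw [e]; exact tp_mov hp h2)
    (Nat.prime_iff_prime_int.1 hp).squarefree
  rw [e] at this
  exact (LA.cases _).resolve_left fun e => this.1 e dvd_rfl

theorem nd {q p : ℕ} (hq : q.Prime) (hp : p.Prime) (h2 : q ≠ 2) (h : q ≠ p) :
    (¬ (q : ℤ) ∣ 2 * (-1)) ∧ (¬ (q : ℤ) ∣ 2 * 2) ∧ ¬ (q : ℤ) ∣ 2 * p := by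
  have k : ∀ r : ℕ, r.Prime → q ≠ r → ¬ (q : ℤ) ∣ 2 * r := fun r hr e d => by
    have d' : q ∣ 2 * r := by exact_mod_cast d
    rcases (Nat.Prime.dvd_mul hq).1 d' with a | a
    · exact h2 ((Nat.prime_dvd_prime_iff_eq hq Nat.prime_two).1 a)
    · exact e ((Nat.prime_dvd_prime_iff_eq hq hr).1 a)
  refine ⟨fun d => k 2 Nat.prime_two h2 ?_, k 2 Nat.prime_two h2, k p hp h⟩
  exact d.trans ⟨-2, by norm_num⟩

theorem js1 : js (-1) 5 = 0 := by unfold js; rw [if_pos (by norm_num)]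
theorem js2 : js 2 5 = 1 := by unfold js; rw [if_neg (by norm_num)]
theorem js3 : js (-1) 3 = 1 := by unfold js; rw [if_neg (by norm_num)]

theorem t5 : qz 5 (tp 5) = 1 := tp1 Nat.prime_five (by norm_num)
theorem t3 : qz 3 (tp 3) = 1 := tp1 Nat.prime_three (by norm_num)

theorem s15 (H : S_HILP) : iv 2 (cu (qz (-1)) (qz 5)) = 0 := by
  rw [rec2 (m := -1) (n := 5) Nat.prime_five (by norm_num) (by norm_num)
      fun q hq h h' =>
      ⟨(nd hq Nat.prime_five h h').1, (nd hq Nat.prime_five h h').2.2⟩,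
    H 5 _ _ Nat.prime_five (by norm_num) (isCh_qz _) (isCh_qz _),
    tp0 (m := -1) Nat.prime_five (by norm_num) (by norm_num),
    qz_fr (a := -1) Nat.prime_five (by norm_num), js1]
  simp

theorem s25 (H : S_HILP) : iv 2 (cu (qz 2) (qz 5)) = 1 := by
  rw [rec2 (m := 2) (n := 5) Nat.prime_five (by norm_num) (by norm_num)
      fun q hq h h' =>
      ⟨(nd hq Nat.prime_five h h').2.1, (nd hq Nat.prime_five h h').2.2⟩,
    H 5 _ _ Nat.prime_five (by norm_num) (isCh_qz _) (isCh_qz _),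
    tp0 (m := 2) Nat.prime_five (by norm_num) (by norm_num),
    qz_fr (a := 2) Nat.prime_five (by norm_num), js2, t5]
  simp

theorem s55 (H : S_HILP) : iv 2 (cu (qz 5) (qz 5)) = 0 := by
  rw [rec2 (m := 5) (n := 5) Nat.prime_five (by norm_num) (by norm_num)
      fun q hq h h' =>
      ⟨(nd hq Nat.prime_five h h').2.2, (nd hq Nat.prime_five h h').2.2⟩,
    H 5 _ _ Nat.prime_five (by norm_num) (isCh_qz _) (isCh_qz _), js1, t5]
  exact (by decide : ∀ a : F2, a * 1 + 1 * a + 0 * 1 * 1 = 0) _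

theorem s12 (H : S_HILP) : iv 2 (cu (qz (-1)) (qz 2)) = 0 := by
  rw [rec2 Nat.prime_five (by norm_num) (by norm_num)
      fun q hq h h' =>
      ⟨(nd hq Nat.prime_five h h').1, (nd hq Nat.prime_five h h').2.1⟩,
    H 5 _ _ Nat.prime_five (by norm_num) (isCh_qz _) (isCh_qz _),
    tp0 (m := -1) Nat.prime_five (by norm_num) (by norm_num),
    tp0 (m := 2) Nat.prime_five (by norm_num) (by norm_num)]
  simp

theorem s22 (H : S_HILP) : iv 2 (cu (qz 2) (qz 2)) = 0 := by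
  rw [rec2 Nat.prime_five (by norm_num) (by norm_num)
      fun q hq h h' =>
      ⟨(nd hq Nat.prime_five h h').2.1, (nd hq Nat.prime_five h h').2.1⟩,
    H 5 _ _ Nat.prime_five (by norm_num) (isCh_qz _) (isCh_qz _),
    tp0 (m := 2) Nat.prime_five (by norm_num) (by norm_num)]
  simp

theorem s13 (H : S_HILP) : iv 2 (cu (qz (-1)) (qz 3)) = 1 := by
  rw [rec2 (m := -1) (n := 3) Nat.prime_three (by norm_num) (by norm_num)
      fun q hq h h' =>
      ⟨(nd hq Nat.prime_three h h').1, (nd hq Nat.prime_three h h').2.2⟩,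
    H 3 _ _ Nat.prime_three (by norm_num) (isCh_qz _) (isCh_qz _),
    tp0 (m := -1) Nat.prime_three (by norm_num) (by norm_num),
    qz_fr (a := -1) Nat.prime_three (by norm_num), js3, t3]
  simp

theorem s11 (H : S_HILP) : iv 2 (cu (qz (-1)) (qz (-1))) = 1 := by
  have e : ∀ g ∈ (pl 2).D, qz (-1) g = (qz 3 + qz 5) g := fun g hg => by
    have h := qz_D_two hA (m := -1 * (3 * 5)) (pl_p Nat.prime_two) (by norm_num) hg
    rw [qz_mul (by norm_num) (by norm_num), qz_mul (by norm_num) (by norm_num), Pi.add_apply] at h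
    exact (by decide : ∀ a b : F2, a + b = 0 → a = b) _ _ h
  have e2 : iv 2 (cu (qz (-1)) (qz (-1))) = iv 2 (cu (qz 3 + qz 5) (qz (-1))) :=
    iv_congr fun g hg k _ => by rw [cu, cu, ← e g hg]
  rw [e2, iv_cu_add (isCh_qz _) (isCh_qz _) (isCh_qz _), iv_swap (isCh_qz 3) (isCh_qz _),
    iv_swap (isCh_qz 5) (isCh_qz _), s13 H, s15 H, add_zero]

theorem ch_smul {H : Subgroup GQ} {α : GQ → F2} (h : IsCh H α) (a : F2) : IsCh H (a • α) :=
  ⟨h.1.comp (a • ·), fun g hg k hk => by simp only [Pi.smul_apply, h.2 g hg k hk, smul_add]⟩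

theorem iv_smul (α β : GQ → F2) (a : F2) : iv 2 (cu (a • α) β) = a * iv 2 (cu α β) := by
  rcases LA.cases a with rfl | rfl
  · rw [zero_mul]
    exact BasN.zero fun g _ k _ => by simp [cu]
  · rw [one_smul, one_mul]

theorem lin {α β : GQ → F2} {a b c : F2} (hβ : IsCh (pl 2).D β)
    (e : ∀ g ∈ (pl 2).D, α g = a * qz (-1) g + b * qz 2 g + c * qz 5 g) :
    iv 2 (cu α β) = a * iv 2 (cu β (qz (-1))) + b * iv 2 (cu β (qz 2)) + c * iv 2 (cu β (qz 5)) := by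
  have e2 : iv 2 (cu α β) = iv 2 (cu (a • qz (-1) + b • qz 2 + c • qz 5) β) :=
    iv_congr fun g hg k _ => by rw [cu, cu, e g hg]; rfl
  have h12 : IsCh (pl 2).D (a • qz (-1) + b • qz 2) :=
    (ch_smul (isCh_qz _) a).add (ch_smul (isCh_qz _) b)
  rw [e2, iv_cu_add h12 (ch_smul (isCh_qz _) c) hβ,
    iv_cu_add (ch_smul (isCh_qz _) a) (ch_smul (isCh_qz _) b) hβ, iv_smul, iv_smul, iv_smul,
    iv_swap (isCh_qz (-1)) hβ, iv_swap (isCh_qz 2) hβ, iv_swap (isCh_qz 5) hβ]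

end HIL2c

theorem p_HIL2 (hHILP : S_HILP) :
    S_HIL2 := by
  have e : (pl 2).p = 2 := pl_p Nat.prime_two
  obtain ⟨x, hx, y, hy, x1, x2, y1, y2⟩ := BasH.two e
  have x5 : qz 5 x = 0 := qz_I_two e (by norm_num) hx
  have y5 : qz 5 y = 0 := qz_I_two e (by norm_num) hy
  have hx' := (pl 2).I_le_D hx
  have hy' := (pl 2).I_le_D hy
  obtain ⟨z, hz, z5⟩ : ∃ z ∈ (pl 2).D, qz 5 z = 1 := by
    by_contra e1
    have := (((hA.sq2 (pl 2)).2.2.2.2.1 e 5 (by decide)).1).1 ((qz_D_iff (by norm_num)).1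
      fun z hz => (LA.cases _).resolve_right fun e' => e1 ⟨z, hz, e'⟩)
    norm_num at this
  obtain ⟨u, hu, u1, u2, u5⟩ : ∃ u ∈ (pl 2).D, qz (-1) u = 0 ∧ qz 2 u = 0 ∧ qz 5 u = 1 := by
    rcases LA.cases (qz (-1) z) with a | a <;> rcases LA.cases (qz 2 z) with b | b
    · exact ⟨z, hz, a, b, z5⟩
    · refine ⟨z * y, mul_mem hz hy', ?_, ?_, ?_⟩ <;>
        simp only [HIL2c.mul', a, b, z5, y1, y2, y5] <;> decide
    · refine ⟨z * x, mul_mem hz hx', ?_, ?_, ?_⟩ <;>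
        simp only [HIL2c.mul', a, b, z5, x1, x2, x5] <;> decide
    · refine ⟨z * x * y, mul_mem (mul_mem hz hx') hy', ?_, ?_, ?_⟩ <;>
        simp only [HIL2c.mul', a, b, z5, x1, x2, x5, y1, y2, y5] <;> decide
  have ex : ∀ α : GQ → F2, IsCh (pl 2).D α → ∀ g ∈ (pl 2).D,
      α g = α x * qz (-1) g + α y * qz 2 g + α u * qz 5 g := fun α h g hg => by
    obtain ⟨a, b, c, k⟩ := BasH.loc2 e h
    rw [k g hg, k x hx', k y hy', k u hu, x1, x2, x5, y1, y2, y5, u1, u2, u5]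
    simp
  refine ⟨![x, y, u], fun i => ?_, fun i j => ?_, ex, fun α β hα hβ => ?_⟩
  · fin_cases i
    exacts [hx', hy', hu]
  · fin_cases i <;> fin_cases j
    exacts [x1, y1, u1, x2, y2, u2, x5, y5, u5]
  · rw [HIL2c.lin hβ (ex α hα), HIL2c.lin (isCh_qz (-1)) (ex β hβ), HIL2c.lin (isCh_qz 2) (ex β hβ),
      HIL2c.lin (isCh_qz 5) (ex β hβ), iv_swap (isCh_qz 2) (isCh_qz (-1)),
      iv_swap (isCh_qz 5) (isCh_qz (-1)), iv_swap (isCh_qz 5) (isCh_qz 2), HIL2c.s11 hHILP,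
      HIL2c.s12 hHILP, HIL2c.s15 hHILP, HIL2c.s22 hHILP, HIL2c.s25 hHILP, HIL2c.s55 hHILP]
    change _ = α x * β x + α y * β u + α u * β y
    ring

end Pool.Agent.P.MP_8b7eba_nt.SM.Tc
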