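import Pool.Agent.P.MP_8b7eba_nt.TC.Iface

/-! Step HILP. -/

set_option autoImplicit false

namespace Pool.Agent.P.MP_8b7eba_nt.SM.Tc

open Finset R2 X
open scoped Matrix

namespace HILPc

variable {p : ℕ} {α β : GQ → F2}

theorem self (hp : p.Prime) (h2 : p ≠ 2) : iv p (cu (qs p) (qs p)) = js (-1) p := by
  have h0 : ps p ≠ 0 := fun e => by
    have := BasG.abs_ps p
    rw [e] at this
    exact hp.ne_zero this.symm
  have hd : ¬ (p : ℤ) ∣ 2 * -1 := fun h3 => h2 ((Nat.prime_dvd_prime_iff_eq hp Nat.prime_two).1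
    (by rw [Int.natCast_dvd] at h3; exact h3))
  have h1 : iv p (cu (qz (-1 * ps p)) (qs p)) = 0 :=
    if_pos ((triv_qz_iff hA (pl p).closed_D (by simpa using h0) h0).2
      ⟨0, 1, fix_zero, fix_one, by simp⟩)
  have h3 : iv p (cu (qz (-1)) (qs p)) = qz (-1) (fr p) * qs p (tp p) :=
    BasN.cup hp h2 (isCh_qz _) (isCh_qs p) fun g hg => qz_I hA (by rwa [pl_p hp]) hg
  rw [qz_mul (by norm_num) h0, iv_cu_add (isCh_qz _) (isCh_qz _) (isCh_qs p), h3, qz_fr hp hd,
    qs_tp_self hp h2, mul_one, CharTwo.add_eq_zero] at h1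
  exact h1.symm

theorem split (hp : p.Prime) (h2 : p ≠ 2) (hα : IsCh (pl p).D α) (hβ : IsCh (pl p).D β) :
    iv p (cu α β) = α (fr p) * β (tp p) + α (tp p) * iv p (cu (qs p) β) := by
  have hI := fun g (hg : g ∈ (pl p).I) => ch_I hp h2 (hα.mono (pl p).I_le_D) hg
  rcases BasG.f2 (α (tp p)) with e | e
  · rw [e, zero_mul, add_zero]
    exact BasN.cup hp h2 hα hβ fun g hg => by rw [hI g hg, e, smul_zero]
  have h1 : IsCh (pl p).D (α + qs p) := hα.add (isCh_qs p)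
  have h3 : iv p (cu (α + qs p) β) = (α + qs p) (fr p) * β (tp p) :=
    BasN.cup hp h2 h1 hβ fun g hg => by
      rw [Pi.add_apply, hI g hg, e, smul_eq_mul, mul_one, CharTwo.add_self_eq_zero]
  rw [iv_cu_add hα (isCh_qs p) hβ, Pi.add_apply, qs_fr_self hp h2, add_zero] at h3
  rw [e, one_mul, ← h3, add_assoc, CharTwo.add_self_eq_zero, add_zero]

end HILPc

theorem p_HILP :
    S_HILP := by
  intro p α β hp h2 hα hβ
  rw [HILPc.split hp h2 hα hβ, iv_swap (isCh_qs p) hβ, HILPc.split hp h2 hβ (isCh_qs p),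
    HILPc.self hp h2, qs_tp_self hp h2]
  ring

end Pool.Agent.P.MP_8b7eba_nt.SM.Tc
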