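import Pool.Agent.P.MP_8b7eba_nt.TC.Iface

/-! Step KG0. -/

set_option autoImplicit false

namespace Pool.Agent.P.MP_8b7eba_nt.SM.Tc

open Finset R2 X
open scoped Matrix

namespace KG0c

theorem e0 {u v : V1} (hu : u (1 + 1) = 0) (hv : v (1 + 1) = 0) : ee u v = 0 := by
  have a : u 0 = 0 := hu
  have b : v 0 = 0 := hv
  rw [ee, a, b, zero_mul, mul_zero, add_zero]

theorem e1 {u v : V1} (hu : u (0 + 1) = 0) (hv : v (0 + 1) = 0) : ee u v = 0 := by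
  have a : u 1 = 0 := hu
  have b : v 1 = 0 := hv
  rw [ee, a, b, zero_mul, mul_zero, add_zero]

end KG0c

theorem p_KG0 (hLD : S_LD) :
    S_KG0 := by
  intro Λ S p hp pp
  have c : ∀ x ∈ XX Λ S, ∀ i, IsCh (pl p).D fun g => x g i := fun x hx i =>
    isCh_co (LL.ch (hx.2.2.2 p hp)) i
  have o : ∀ x ∈ XX Λ S, ∀ j, ∀ γ ∈ Lj Λ (chi S) j p, iv p (cu γ fun g => x g (j + 1)) = 0 :=
    fun x hx j γ h => Lj.iso (isCh_chi S) h (hx.2.2.2 p hp)
  refine ⟨fun hd ⟨g, hg, e⟩ => ?_, fun β hβ hd ⟨k, hk, ek⟩ ⟨g, hg, e0, e⟩ => ?_⟩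
  · have z : ∀ x ∈ XX Λ S, x g (1 + 1) = 0 := fun x hx =>
      (hLD p _ _ _ pp (fun _ h => Lj.ch h) (c x hx (1 + 1)) (c x hx (1 + 1)) (o x hx 1)
        (o x hx 1)).1 hd g hg
    exact ⟨g, e, fun x hx y hy => KG0c.e0 (z x hx) (z y hy)⟩
  · have ob : ∀ γ ∈ Lj Λ (chi S) 0 p, iv p (cu γ β) = 0 := fun γ h => by
      have h1 := Lj.iso (isCh_chi S) h (mem_Lj.1 hβ)
      simpa only [zero_add, ax_same] using h1
    have z : ∀ x ∈ XX Λ S, x g (0 + 1) = 0 := fun x hx => by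
      rcases (hLD p _ _ _ pp (fun _ h => Lj.ch h) (c x hx (0 + 1)) (Lj.ch hβ) (o x hx 0) ob).2 hd
        with h | h | h
      · exact h g hg
      · exact absurd ((h k hk).symm.trans ek) zero_ne_one
      · exact (h g hg).trans e0
    exact ⟨g, e, fun x hx y hy => KG0c.e1 (z x hx) (z y hy)⟩

end Pool.Agent.P.MP_8b7eba_nt.SM.Tc
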