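import Pool.Agent.P.MP_8b7eba_nt.TC.Iface

/-! Step KLL. -/

set_option autoImplicit false

namespace Pool.Agent.P.MP_8b7eba_nt.SM.Tc

open Finset R2 X
open scoped Matrix

namespace KLLc

open TRA1

theorem cv_qz {T : Tate (pl 2)} {Λ : Lat} (hΛ : Λ.Of T) (d : ℤ) (g : GQ) (v : VZ) :
    cv (Λ.rt (qz d) g *ᵥ v) = T.rq (rt d) g (cv v) := by
  rw [Tate.rq_apply, Tate.rd, sd_eq_qz (rt_sq _)]
  funext i
  simp [cv, Lat.rt, sg, Matrix.mulVec, dotProduct, hΛ g]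

theorem two_dvd {z : Z2} (h : ‖(z : ℚ_[2])‖ < 1) : (2 : Z2) ^ 1 ∣ z := by
  rw [pow_one]
  exact (PadicInt.norm_lt_one_iff_dvd z).1 h

end KLLc

open KLLc TRA1 in
theorem p_KLL :
    S_KLL := by
  intro T Λ d α hΛ ⟨Q, κ, k1, k2, k3, k4⟩
  have hf := TLOC2.fix_sq (rt_sq d)
  have hr := T.rep hf
  have co : ∀ g ∈ (pl 2).D, ∀ g' ∈ (pl 2).D, κ (g * g') = κ g + T.rq (rt d) g (κ g') :=
    fun g hg g' hg' => sub_eq_zero.1 <| TLOC2.small fun i => by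
      rw [smul_sub, ← T.pt_eq, k2 _ (mul_mem hg hg'), smul_add, map_add, k2 g hg, Tate.rq_apply,
        ← Matrix.mulVec_smul, ← T.tgal, k2 g' hg', map_sub, tac_mul hf]
      abel
  have uc : Uc (pl 2).D κ := uc_of_cocycle (hr.mono le_top) co fun ε hε => by
    obtain ⟨i, hi⟩ := pow_unbounded_of_one_lt ε⁻¹ (one_lt_two (α := ℝ))
    obtain ⟨N, a, b⟩ := exists_ON_ac {Q i}
    obtain ⟨N', a', b'⟩ := exists_ON_fix {rt d}
    refine ⟨_, a.inf a', fun n hn h => ?_⟩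
    have := (T.ker _).1 ((k2 n hn i).trans (by
      rw [tac_apply, sd_eq_one.2 (b' (rt d) (by simp) n h.2), b _ (by simp) n h.1]; simp))
    rw [norm_smul, TLOC2.npow] at this
    rw [inv_lt_iff_one_lt_mul₀ hε] at hi
    exact le_of_mul_le_mul_left (this.trans hi.le) (by positivity)
  have hb : ∀ g, ∃ z : VZ, cv z = κ g := fun g =>
    ⟨fun i => ⟨κ g i, (norm_le_pi_norm _ i).trans (k1 g)⟩, rfl⟩
  choose b hb using hb
  refine mem_Lj.2 (mem_LL.2 ⟨b, ⟨fun n => BasZ.zn_iff.2 ⟨?_, fun g hg m hm => ?_⟩, 0, 0,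
    fun g hg => ⟨?_, fun h => absurd rfl h⟩⟩, fun g hg i => ?_⟩)
  · obtain ⟨N, hN, hN'⟩ := uc (2⁻¹ ^ n) (by positivity)
    refine ⟨N, hN, fun g hg m hm hmN => dv_norm.2 ?_⟩
    rw [cv_sub, hb, hb]
    exact hN' g hg m hm hmN
  · refine dv_norm.2 ?_
    rw [cv_sub, cv_sub, cv_qz hΛ, hb, hb, hb, co g hg m hm, add_sub_cancel_left, sub_self,
      norm_zero]
    positivity
  · have : b g 1 = 0 := Subtype.ext ((congrFun (hb g) 1).trans (k3 g hg))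
    simp [this, Lat.bd]
  · refine two_dvd ?_
    have e : ∀ i, (b g i : ℚ_[2]) = κ g i := congrFun (hb g)
    fin_cases i
    · have := k4 g hg
      rw [norm_sub_rev] at this
      simpa [lf, ax_apply, e, -ZMod.natCast_val] using this
    · simp [lf, ax_apply, e, k3 g hg]

end Pool.Agent.P.MP_8b7eba_nt.SM.Tc
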