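import Pool.Agent.P.MP_8b7eba_nt.TC.Iface

/-! Step KM2. -/

set_option autoImplicit false

namespace Pool.Agent.P.MP_8b7eba_nt.SM.Tc

open Finset R2 X
open scoped Matrix

namespace KM2c

variable {w : Pl} {T : Tate w} {δ : Om} {m k : ℤ} {g : GQ}

theorem congr {α β : GQ → F2} (h : Km T δ α) (e : ∀ g ∈ w.D, β g = α g) : Km T δ β :=
  let ⟨Q, κ, a, b, c, d⟩ := h
  ⟨Q, κ, a, b, c, fun g hg => e g hg ▸ d g hg⟩

theorem tors (T : Tate w) (hδ : δ ^ 2 = m) (hm : m ≠ 0) : Km T δ (qz (-m)) := by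
  obtain ⟨v, v0, v1⟩ : ∃ v : V2, v 0 = 2⁻¹ ∧ v 1 = 0 := ⟨![2⁻¹, 0], rfl, rfl⟩
  have hv : ‖v‖ ≤ 2 := LC.pi (a := 2⁻¹) (b := 0) (by rw [norm_inv, SelA.two, inv_inv])
    (by simp) v0 v1
  refine ⟨fun i => T.pt (((2 : ℚ_[2]) ^ i)⁻¹ • v), fun g => T.rd δ g *ᵥ v - v,
    fun g => (T.rd_norm δ g v).2.trans (by linarith), fun g _ i => ?_, fun g hg => ?_,
    fun g _ => ?_⟩
  · rw [T.tgal, smul_sub, map_sub, Matrix.mulVec_smul]
  · simp [SelA.rd_up T δ hg, v1]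
  · have h1 := (norm_le_pi_norm _ 0).trans (T.rd_four hA.ec hδ hm g v)
    simp only [Pi.sub_apply, Matrix.cons_val_zero, v0] at h1 ⊢
    replace h1 : _ ≤ (2⁻¹ : ℝ) := h1.trans (by linarith)
    rcases LA.cases (qz (-m) g) with e | e <;> rw [e] at h1 ⊢
    · exact lt_of_le_of_lt (by simpa using h1) (by norm_num : (2⁻¹ : ℝ) < 1)
    · rw [ZMod.val_one] at h1 ⊢
      have h2 := SelA.add h1 (b := -2) (by rw [norm_neg, SelA.two])
      refine lt_of_le_of_lt (le_of_eq_of_le (congrArg _ ?_) h2) (by norm_num)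
      push_cast
      ring

theorem three (h2 : w.p = 2) (hk : k % 4 = 3) (hg : g ∈ w.I) : qz k g = qz (-1) g := by
  rw [show k = -1 * -k by ring, qz_mul (by norm_num) (by omega), Pi.add_apply,
    qz_I_two h2 (m := -k) (by omega) hg, add_zero]

theorem twice (h2 : w.p = 2) (hk : k % 2 = 1) (hg : g ∈ w.I) (h : qz (-1) g = 0) :
    qz (2 * k) g = qz 2 g := by
  rw [qz_mul (by norm_num) (by omega), Pi.add_apply]
  rcases (show k % 4 = 1 ∨ k % 4 = 3 by omega) with e | e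
  · rw [qz_I_two h2 e hg, add_zero]
  · rw [three h2 e hg, h, add_zero]

theorem sq8 (h2 : w.p = 2) {a b : ℤ} (ha : a % 2 = 1) (h : 8 ∣ b - a) :
    ∀ g ∈ w.D, qz (a * b) g = 0 := fun g hg => by
  refine qz_D_two hA h2 ?_ hg
  rw [Int.mul_emod, show b % 8 = a % 8 by omega]
  rcases (show a % 8 = 1 ∨ a % 8 = 3 ∨ a % 8 = 5 ∨ a % 8 = 7 by omega) with e | e | e | e <;>
    rw [e] <;> rfl

theorem v4 (h2 : w.p = 2) (n : ℤ) : w.v (4 * (n : Om)) < 2⁻¹ := by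
  rw [map_mul, show (4 : Om) = 2 ^ 2 by norm_num, map_pow, Pl.v_two' h2]
  exact (mul_le_of_le_one_right' (w.v_int_le n)).trans_lt (by
    rw [← NNReal.coe_lt_coe]; norm_num)

theorem vo (h2 : w.p = 2) (hk : k % 2 = 1) : w.v k = 1 :=
  Pl.v_int_eq_one.2 (by rw [h2]; omega)

theorem half : (2⁻¹ : NNReal) < 1 := by rw [← NNReal.coe_lt_coe]; norm_num

end KM2c

open KM2c in
theorem p_KM2 (hKPT : S_KPT) :
    S_KM2 := by
  intro w T δ m h2 hδ hm
  have m0 := hm.ne_zero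
  have h4 : m % 4 ≠ 0 := fun e => by
    have := hm 2 (by omega)
    rcases Int.isUnit_iff.1 this with e | e <;> omega
  have k1 := tors T hδ m0
  have k5 : Odd m → Km T δ (qz 5) := fun ho => by
    have ho := Int.odd_iff.1 ho
    refine congr (hKPT w T δ m 1 2 h2 hδ m0 one_ne_zero two_ne_zero (by omega)
      ((qz_D_iff (mul_ne_zero (by omega) (by omega))).1 (sq8 h2 (by omega) (by omega)))
      ((v4 h2 _).trans (half.trans_eq (vo h2 (by omega)).symm))) fun g hg => ?_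
    have := sq8 h2 (a := 5) (b := 1 ^ 2 - 9 * m * 2 ^ 2) (by norm_num) (by omega) g hg
    rw [qz_mul (by norm_num) (by omega), Pi.add_apply] at this
    exact CharTwo.add_eq_zero.1 this
  refine ⟨k1, k5, ?_⟩
  obtain ⟨x, hx, y, hy, x1, x2, y1, y2⟩ := BasH.two h2
  obtain ⟨f, hf, f5⟩ : ∃ f ∈ w.D, qz 5 f = 1 := by
    by_contra! e
    have := ((hA.sq2 w).2.2.2.2.1 h2 5 (by decide)).1.1 ((qz_D_iff (by norm_num)).1
      fun g hg => (LA.cases _).resolve_right (e g hg))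
    omega
  rcases (show m % 4 = 1 ∨ m % 4 = 3 ∨ m % 4 = 2 by omega) with e | e | e
  · exact ⟨_, _, k5 (Int.odd_iff.2 (by omega)), k1, f, hf, x, hx.1, f5,
      qz_I_two h2 (by norm_num) hx, (three h2 (by omega) hx).trans x1⟩
  · obtain ⟨u, hu⟩ : ∃ u, 1 ^ 2 - 9 * m * 1 ^ 2 = 2 * u := ⟨(1 - 9 * m) / 2, by omega⟩
    have u2 : u % 2 = 1 := by omega
    refine ⟨_, _, k5 (Int.odd_iff.2 (by omega)), hKPT w T δ m 1 1 h2 hδ m0 one_ne_zero
      one_ne_zero (by omega) ((qz_D_iff (mul_ne_zero (by omega) (by omega))).1 fun g hg => ?_)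
      ((v4 h2 _).trans_eq ?_), f, hf, y, hy.1, f5, qz_I_two h2 (by norm_num) hy, ?_⟩
    · rw [show (1 ^ 2 - 9 * m * 1 ^ 2) * (1 ^ 2 - 25 * m * 1 ^ 2) = 2 ^ 2 * (u * (u - 8 * m)) by
        rw [show 1 ^ 2 - 25 * m * 1 ^ 2 = 2 * (u - 8 * m) by omega, hu]; ring,
        qz_mul (by norm_num) (mul_ne_zero (by omega) (by omega)), qz_sq, zero_add]
      exact sq8 h2 u2 (by omega) g hg
    · rw [hu, Int.cast_mul, map_mul, vo h2 u2, mul_one, Int.cast_ofNat, Pl.v_two' h2]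
    · rw [hu, twice h2 u2 hy y1, y2]
  · obtain ⟨k, hk⟩ : ∃ k, -m = 2 * k := ⟨-m / 2, by omega⟩
    have k2 : k % 2 = 1 := by omega
    have k3 := hKPT w T δ m 1 1 h2 hδ m0 one_ne_zero one_ne_zero (by omega)
      ((qz_D_iff (mul_ne_zero (by omega) (by omega))).1 (sq8 h2 (by omega) (by omega)))
      ((v4 h2 _).trans (half.trans_eq (vo h2 (by omega)).symm))
    have e1 : qz (-m) y = 1 := by rw [hk, twice h2 k2 hy y1, y2]
    rcases LA.cases (qz (-m) x) with e2 | e2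
    · exact ⟨_, _, k1, k3, y, hy.1, x, hx.1, e1, e2, (three h2 (by omega) hx).trans x1⟩
    · have mul : ∀ n : ℤ, qz n (x * y) = qz n x + qz n y := fun n =>
        (isCh_qz (H := ⊤) n).2 x trivial y trivial
      exact ⟨_, _, k1, k3, y, hy.1, x * y, (mul_mem hx hy).1, e1, by rw [mul, e1, e2]; rfl,
        (three h2 (by omega) (mul_mem hx hy)).trans (by rw [mul, x1, y1, add_zero])⟩

end Pool.Agent.P.MP_8b7eba_nt.SM.Tc
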