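import Pool.Agent.P.MP_8b7eba_nt.TC.Iface

/-! Step KPT. -/

set_option autoImplicit false

namespace Pool.Agent.P.MP_8b7eba_nt.SM.Tc

open Finset R2 X
open scoped Matrix

namespace KPTc

open MP_9c97e9_nt (Is Split UU UU_map UU_sq UU_add zero_or_is)

theorem uu_tac {δ : Om} (g : GQ) (Q : EO) :
    UU 0 (-9) 16 (tac δ g Q) = sd δ g * g (UU (0 : Om) (-9) 16 Q) := by
  have h1 : UU 0 (-9) 16 (ac g Q) = g (UU (0 : Om) (-9) 16 Q) := by
    simpa [map_ofNat, ac] using UU_map (e₁ := (0 : Om)) (e₂ := -9) (e₃ := 16) (g : Om →+* Om) Q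
  rw [tac_apply, ← h1]
  rcases sd_cases δ g with e | e <;> rw [e]
  · simp
  rcases zero_or_is (ac g Q) with h | ⟨x, η, h⟩
  · rw [h]; simp; rfl
  · rw [neg_one_zsmul, h.neg.UU_eq, h.UU_eq]; simp [div_neg]

theorem half {k : ℚ_[2]} (h : ‖k‖ < 1) : ‖k‖ ≤ 2⁻¹ := by
  have := (Padic.norm_le_pow_iff_norm_lt_pow_add_one k (-1)).2 (by simpa using h)
  simpa using this

theorem two_cases {k : ℚ_[2]} (h : ‖k‖ ≤ 1) : ‖k‖ < 1 ∨ ‖k - 1‖ < 1 := by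
  obtain ⟨z, rfl⟩ : ∃ z : ℤ_[2], (z : ℚ_[2]) = k := ⟨⟨k, h⟩, rfl⟩
  have h1 := PadicInt.sub_zmodRepr_mem z
  have h2 := PadicInt.zmodRepr_lt_p z
  rw [IsLocalRing.mem_maximalIdeal, PadicInt.mem_nonunits] at h1
  generalize PadicInt.zmodRepr z = r at h1 h2
  interval_cases r
  · rw [Nat.cast_zero, sub_zero] at h1
    exact .inl h1
  · rw [Nat.cast_one] at h1
    exact .inr h1

theorem nrm {v : V2} {t : ℚ_[2]} (h1 : v 1 = 0) (h : ‖v 0 - t‖ < 1) :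
    ‖((2 : ℚ_[2]) ^ 1)⁻¹ • v - ![2⁻¹ * t, 0]‖ ≤ 1 := by
  refine (pi_norm_le_iff_of_nonneg zero_le_one).2 (Fin.forall_fin_two.2 ⟨?_, ?_⟩)
  · have := half h
    simp only [pow_one, Pi.sub_apply, Pi.smul_apply, smul_eq_mul, Matrix.cons_val_zero]
    rw [← mul_sub, norm_mul, norm_inv, TLOC2.n2]
    linarith
  · simp [h1]

end KPTc

open KPTc MP_9c97e9_nt in
theorem p_KPT :
    S_KPT := by
  intro w T δ m a c h2 hd m0 a0 c0 n0 ⟨s, hs, es⟩ hv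
  have m1 : (m : Om) ≠ 0 := Int.cast_ne_zero.2 m0
  have d0 : δ ≠ 0 := fun e => m1 (by rw [← hd, e]; ring)
  have c1 : (c : Om) ≠ 0 := Int.cast_ne_zero.2 c0
  have n1 : ((a ^ 2 - 9 * m * c ^ 2 : ℤ) : Om) ≠ 0 := Int.cast_ne_zero.2 n0
  have hF := TLOC2.fix_sq hd
  push_cast at es
  obtain ⟨R, h⟩ := R2.split15.exists_is (x := (a ^ 2 - 9 * δ ^ 2 * c ^ 2) / (c * δ) ^ 2)
    (η := 2 * a * s / (c * δ) ^ 3) (by
    rw [div_pow, mul_pow, ← es, ← hd]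
    field_simp
    ring)
  have h3 : ∀ g ∈ w.D, tac δ g R = R := fun g hg => by
    have h1 := is_ac g h
    simp only [map_div₀, map_mul, map_sub, map_pow, map_ofNat, map_intCast, hs g hg,
      sd_apply hF g] at h1
    rw [tac_apply]
    rcases sd_cases δ g with e | e <;> rw [e] at h1 ⊢
    · exact Is.unique R2.split15 (by simpa using h1) h
    · refine Is.unique R2.split15 ?_ h
      have h2 := h1.neg
      rw [neg_one_zsmul]
      have e1 : ((a : Om) ^ 2 - 9 * (((-1 : ℤ) : Om) * δ) ^ 2 * c ^ 2) /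
          (c * (((-1 : ℤ) : Om) * δ)) ^ 2 = (a ^ 2 - 9 * δ ^ 2 * c ^ 2) / (c * δ) ^ 2 := by
        push_cast; ring
      have e2 : -(2 * (a : Om) * s / (c * (((-1 : ℤ) : Om) * δ)) ^ 3) =
          2 * a * s / (c * δ) ^ 3 := by
        push_cast; ring
      rwa [e1, e2] at h2
  have h1 : E1 w R := fun x η h' => by
    have e : ((a : Om) ^ 2 - 9 * δ ^ 2 * c ^ 2) / (c * δ) ^ 2 =
        ((a ^ 2 - 9 * m * c ^ 2 : ℤ) : Om) / ((c ^ 2 * m : ℤ) : Om) := by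
      rw [mul_pow, hd]; push_cast; rfl
    have z : w.v ((c ^ 2 * m : ℤ) : Om) ≠ 0 :=
      (map_ne_zero _).2 (Int.cast_ne_zero.2 (mul_ne_zero (pow_ne_zero 2 c0) m0))
    rw [(h'.inj h).1, e, map_div₀, lt_div_iff₀ (pos_iff_ne_zero.2 z), ← map_mul]
    exact hv
  choose! f f1 f2 using (t_E1G w).2.2.2.2.1
  have q1 : ∀ i, E1 w (f^[i] R) := fun i => by
    induction i with
    | zero => exact h1
    | succ i ih => rw [Function.iterate_succ_apply']; exact f1 _ ih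
  have q2 : ∀ i, 2 • f^[i + 1] R = f^[i] R := fun i => by
    rw [Function.iterate_succ_apply', f2 _ (q1 i)]
  have k : ∀ g, ∃ k : V2, ‖k‖ ≤ 1 ∧ (g ∈ w.D → ∀ i : ℕ,
      T.pt (((2 : ℚ_[2]) ^ i)⁻¹ • k) = tac δ g (f^[i] R) - f^[i] R) := fun g => by
    by_cases hg : g ∈ w.D
    · obtain ⟨k, a, b⟩ := TLOC2.lim T (fun i => tac δ g (f^[i] R) - f^[i] R)
        (sub_eq_zero.2 (h3 g hg)) fun i => by rw [smul_sub, ← map_nsmul, q2]
      exact ⟨k, a, fun _ => b⟩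
    · exact ⟨0, by simp, fun e => absurd e hg⟩
  choose κ k1 k2 using k
  have k3 : ∀ g ∈ w.D, κ g 1 = 0 := fun g hg => TLOC2.small fun i =>
    (T.e1 (((2 : ℚ_[2]) ^ i)⁻¹ • κ g)).1 (k2 g hg i ▸ TLOC2.e1_tac t_E1G hg (q1 i))
  refine ⟨fun i => f^[i] R, κ, k1, k2, k3, fun g hg => ?_⟩
  have r2 : f R + f R = R := by rw [← two_nsmul, f2 _ h1]
  have hR : Is (f R + f R) _ _ := r2.symm ▸ h
  have e : tac δ g (f R) = f R + T.pt (((2 : ℚ_[2]) ^ 1)⁻¹ • κ g) := by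
    rw [k2 g hg 1]; exact (add_sub_cancel _ _).symm
  have hT : T.pt (((2 : ℚ_[2]) ^ 1)⁻¹ • κ g) + T.pt (((2 : ℚ_[2]) ^ 1)⁻¹ • κ g) = 0 := by
    rw [← map_add, ← add_smul, T.ker, show ((2 : ℚ_[2]) ^ 1)⁻¹ + ((2 : ℚ_[2]) ^ 1)⁻¹ = 1 by
      norm_num, one_smul]
    exact k1 g
  have u0 := UU_sq R2.split15 hR
  have b0 := uu_tac (δ := δ) g (f R)
  rw [e, UU_add R2.split15 hT hR.ne_zero] at b0
  generalize UU (0 : Om) (-9) 16 (f R) = U at u0 b0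
  have q0 : (c * δ * U) ^ 2 = ((a ^ 2 - 9 * m * c ^ 2 : ℤ) : Om) := by
    rw [mul_pow, ← u0]; push_cast; rw [← hd]; field_simp; ring
  have b1 : g (c * δ * U) =
      MP_9c97e9_nt.sg (0 : Om) (T.pt (((2 : ℚ_[2]) ^ 1)⁻¹ • κ g)) * (c * δ * U) := by
    rw [map_mul, map_mul, map_intCast, sd_apply hF g]
    linear_combination -c * δ * b0
  have u5 : c * δ * U ≠ 0 := fun e0 => n1 (by rw [← q0, e0]; ring)
  rcases two_cases ((norm_le_pi_norm (κ g) 0).trans (k1 g)) with k | k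
  · have t0 : T.pt (((2 : ℚ_[2]) ^ 1)⁻¹ • κ g) = 0 := by
      have := nrm (t := 0) (k3 g hg) (by simpa using k)
      rw [T.ker]
      rwa [show (![2⁻¹ * 0, 0] : V2) = 0 by ext i; fin_cases i <;> simp, sub_zero] at this
    rw [t0, MP_9c97e9_nt.sg_zero] at b1
    rw [(qz_eq_zero q0).2 (by simpa using b1)]
    simpa using k
  · have t0 : T.pt (((2 : ℚ_[2]) ^ 1)⁻¹ • κ g) = T.pt ![2⁻¹, 0] := by
      have := nrm (k3 g hg) k
      rw [mul_one] at this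
      exact T.pt_eq.2 this
    rw [t0, T.t0.sg_ne (e₂ := 0) (by norm_num)] at b1
    rw [(qz_eq_one q0).2 (fun e1 => u5 (by
      rw [e1] at b1; push_cast at b1; linear_combination b1 / 2))]
    simpa [ZMod.val_one] using k

end Pool.Agent.P.MP_8b7eba_nt.SM.Tc
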