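import Pool.Agent.P.MP_8b7eba_nt.TC.Iface

/-! Step L2. -/

set_option autoImplicit false

namespace Pool.Agent.P.MP_8b7eba_nt.SM.Tc

open Finset R2 X
open scoped Matrix

namespace L2c

theorem ex_one {m : ℤ} (hm : m ≠ 0) (h : ¬ Sq (pl 2).D m) : ∃ g ∈ (pl 2).D, qz m g = 1 := by
  rw [← qz_D_iff hm] at h
  push Not at h
  obtain ⟨g, hg, e⟩ := h
  exact ⟨g, hg, BasG.one_of_ne e⟩

theorem odd_one {m : ℤ} (h : m % 2 = 1) (h8 : m % 8 ≠ 1) : ∃ g ∈ (pl 2).D, qz m g = 1 :=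
  ex_one (by omega) fun e =>
    h8 (((hA.sq2 (pl 2)).2.2.2.2.1 (pl_p Nat.prime_two) m (Int.odd_iff.2 h)).1.1 e)

theorem even_one {m : ℤ} (h : m % 2 = 1) : ∃ g ∈ (pl 2).D, qz (2 * m) g = 1 :=
  ex_one (by omega) fun e =>
    ((hA.sq2 (pl 2)).2.2.2.2.1 (pl_p Nat.prime_two) m (Int.odd_iff.2 h)).2 (by
      simpa only [Int.cast_mul, Int.cast_ofNat] using e)

theorem sep {m : ℤ} (hm : m ≠ 0) (h : ∃ g ∈ (pl 2).D, qz (2 * m) g = 1) :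
    ∃ g ∈ (pl 2).D, qz m g = 0 ∧ qz 2 g = 1 := by
  obtain ⟨g, hg, e⟩ := even_one (m := 1) (by norm_num)
  obtain ⟨k, hk, e'⟩ := h
  rw [mul_one] at e
  rw [qz_mul two_ne_zero hm, Pi.add_apply] at e'
  rcases BasG.f2 (qz m g) with a | a
  · exact ⟨g, hg, a, e⟩
  rcases BasG.f2 (qz m k) with b | b
  · exact ⟨k, hk, b, by rwa [b, add_zero] at e'⟩
  have c : qz 2 k = 0 := by
    rw [b] at e'
    exact add_eq_right.1 e'
  refine ⟨g * k, mul_mem hg hk, ?_, ?_⟩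
  · rw [(isCh_qz (H := (pl 2).D) m).2 g hg k hk, a, b]; rfl
  · rw [(isCh_qz (H := (pl 2).D) 2).2 g hg k hk, e, c, add_zero]

end L2c

theorem p_L2 (hMOD8 : S_MOD8) (hTORS : S_TORS) (hRHO : S_RHO) (hKM2 : S_KM2) (hKLL : S_KLL) :
    S_L2 := by
  intro T Λ d hT hd
  have p2 : (pl 2).p = 2 := pl_p Nat.prime_two
  obtain ⟨-, k5, α, β, kα, kβ, g, hg, g', hg', e1, e2, e3⟩ := hKM2 (pl 2) T (rt d) d p2 (rt_sq d) hd
  refine ⟨Dm.two (hKLL T Λ d α hT kα) (hKLL T Λ d β hT kβ) hg hg' e1 e2 e3, ?_⟩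
  have h8 := hMOD8 T Λ hT
  obtain ⟨t1, t2, t3, -⟩ := hTORS Λ (qz d) 2 h8 (isCh_qz d)
  by_cases h : d % 8 = 1
  · have z : ∀ g ∈ (pl 2).D, qz d g = 0 := fun g hg => qz_D_two hA p2 h hg
    obtain ⟨c, hc⟩ := hRHO Λ h8
    have a1 : qz (-1) ∈ Lj Λ (qz d) 0 2 :=
      Lj.congr t1 fun g hg => by rw [Pi.add_apply, z g hg, add_zero]
    have a5 : qz 5 ∈ Lj Λ (qz d) 0 2 := hKLL T Λ d _ hT (k5 (Int.odd_iff.2 (by omega)))
    have a : (fun g => q4 (Λ.r g 0 1)) ∈ Lj Λ (qz d) 0 2 :=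
      Lj.congr (add_mem (Submodule.smul_mem _ c a1) a5) fun g _ => hc g
    refine ⟨qz 5, ?_, L2c.odd_one (by norm_num) (by norm_num),
      fun _ => L2c.sep (by norm_num) (L2c.even_one (by norm_num))⟩
    have := sub_mem (t3 z) (mem_Lj.1 a)
    rwa [add_sub_cancel_left] at this
  · rcases Int.emod_two_eq_zero_or_one d with h2 | h2
    · obtain ⟨m, rfl⟩ : ∃ m, d = 2 * m := ⟨d / 2, by omega⟩
      have hm : m % 2 = 1 := by
        by_contra e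
        obtain ⟨k, rfl⟩ : ∃ k, m = 2 * k := ⟨m / 2, by omega⟩
        have := hd 2 ⟨k, by ring⟩
        rw [Int.isUnit_iff] at this
        omega
      refine ⟨_, t2, L2c.even_one hm, fun h16 => L2c.sep hd.ne_zero ?_⟩
      rw [show 2 * (2 * m) = 2 ^ 2 * m by ring, qz_mul (by norm_num) (by omega), qz_sq, zero_add]
      exact L2c.odd_one hm (by omega)
    · exact ⟨_, t2, L2c.odd_one h2 h, fun _ => L2c.sep hd.ne_zero (L2c.even_one h2)⟩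

end Pool.Agent.P.MP_8b7eba_nt.SM.Tc
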