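import Pool.Agent.P.MP_8b7eba_nt.TC.Iface

/-! Step L3. -/

set_option autoImplicit false

namespace Pool.Agent.P.MP_8b7eba_nt.SM.Tc

open Finset R2 X
open scoped Matrix

namespace L3c

theorem p3 : Nat.Prime 3 := Nat.prime_three

theorem n3 : (3 : ℕ) ≠ 2 := by decide

theorem nd {d : ℤ} (h : jacobiSym d 3 ≠ 0) : ¬ ((3 : ℕ) : ℤ) ∣ 2 * d := fun e => by
  have h1 : (3 : ℤ) ∣ d := by
    have : (3 : ℤ) ∣ 2 * d := by exact_mod_cast e
    omega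
  obtain ⟨k, rfl⟩ := h1
  refine h ?_
  rw [jacobiSym.mul_left, show jacobiSym 3 3 = 0 by norm_num, zero_mul]

theorem qz_tp3 {d : ℤ} (h : ¬ ((3 : ℕ) : ℤ) ∣ 2 * d) : qz d (tp 3) = 0 :=
  qz_I hA (by rwa [pl_p p3]) (tp_I p3 n3)

theorem m1 : ¬ ((3 : ℕ) : ℤ) ∣ 2 * (-1) := by decide

theorem m5 : ¬ ((3 : ℕ) : ℤ) ∣ 2 * 5 := by decide

theorem neg_fr : qz (-1) (fr 3) = 1 := by
  rw [qz_fr p3 m1, js, if_neg (by norm_num)]

theorem five_fr : qz 5 (fr 3) = 1 := by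
  rw [qz_fr p3 m5, js, if_neg (by norm_num)]

theorem cyc_fr3 : (cyc (fr 3) : Z2) = 3 := by
  have h := hA.ec.2.2.2.2.2.1 (pl 3) 1 (fr 3) (by rw [pl_p p3]; exact n3) (fr_frob p3 n3)
  rw [pl_p p3, pow_one] at h
  exact_mod_cast h

theorem cyc_tp3 : (cyc (tp 3) : Z2) = 1 := by
  have h := hA.ec.2.2.2.2.2.1 (pl 3) 0 (tp 3) (by rw [pl_p p3]; exact n3)
    (Pl.isFrob_zero.2 (tp_I p3 n3))
  rwa [pow_zero] at h

theorem split {Λ : Lat} {ψ α β : GQ → F2} {p : ℕ} (h : ax 0 α + ax 1 β ∈ LL Λ ψ p)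
    (h' : α ∈ Lj Λ ψ 0 p) : β ∈ Lj Λ ψ 1 p := by
  have := sub_mem h (mem_Lj.1 h')
  rwa [add_sub_cancel_left] at this

theorem ch0 {Λ : Lat} {ψ α β : GQ → F2} {p : ℕ} (h : ax 0 α + ax 1 β ∈ LL Λ ψ p) :
    IsCh (pl p).D α := by
  have := isCh_co (LL.ch h) 0
  simpa [ax_apply] using this

end L3c

open L3c in
theorem p_L3 (hTORS : S_TORS) :
    S_L3 := by
  intro Λ d h8
  obtain ⟨t1, t2, t3, t4⟩ := hTORS Λ (qz d) 3 h8 (isCh_qz d)
  refine ⟨fun hj => ?_, fun hj => ?_⟩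
  · have hd := nd (d := d) (by rw [hj]; decide)
    have hf : qz d (fr 3) = 0 := by rw [qz_fr p3 hd, js, if_pos hj]
    have h0 : ∀ g ∈ (pl 3).D, qz d g = 0 := fun g hg =>
      ch_D p3 n3 (isCh_qz d) (qz_tp3 hd) hf hg
    have e1 : (qz (-1) + qz d) (fr 3) = 1 := by rw [Pi.add_apply, neg_fr, hf, add_zero]
    have e2 : (qz (-1) + qz d) (tp 3) = 0 := by
      rw [Pi.add_apply, qz_tp3 m1, qz_tp3 hd, add_zero]
    refine ⟨Dm.one t1 (fr_D p3 n3) e1, Dm.one (split (t3 h0) ?_) (fr_D p3 n3) five_fr⟩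
    have hc := ch0 (t3 h0)
    rcases LA.cases (q4 (Λ.r (fr 3) 0 1)) with e | e
    · exact Lj.congr (zero_mem _) fun g hg => ch_D p3 n3 hc h8.t3.2 e hg
    · refine Lj.congr t1 fun g hg => ?_
      have := ch_D p3 n3 (hc.add (Lj.ch t1)) (by rw [h8.t3.2, e2, add_zero])
        (by rw [e, e1]; rfl) hg
      exact CharTwo.add_eq_zero.1 this
  · have hd := nd (d := d) (by rw [hj]; decide)
    have hf : qz d (fr 3) = 1 := by rw [qz_fr p3 hd, js, if_neg (by rw [hj]; decide)]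
    have h0 : ∀ g ∈ (pl 3).D, qz d g = qz (-1) g := fun g hg =>
      CharTwo.add_eq_zero.1 (ch_D p3 n3 ((isCh_qz d).add (isCh_qz (-1)))
        (by rw [qz_tp3 m1, qz_tp3 hd, add_zero]) (by rw [hf, neg_fr]; rfl) hg)
    have hc := ch0 (t4 h0)
    have a1 : q4 (Λ.rt (qz d) (tp 3) 0 0 - 1) = 0 := by
      refine if_pos ?_
      have := h8.r00 (tp 3)
      rw [cyc_tp3, qz_tp3 m5] at this
      simpa [Lat.rt, qz_tp3 hd, sg] using this
    have a2 : q4 (Λ.rt (qz d) (fr 3) 0 0 - 1) = 0 := by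
      refine if_pos ?_
      obtain ⟨k, hk⟩ := h8.r00 (fr 3)
      rw [cyc_fr3, five_fr, ZMod.val_one] at hk
      refine ⟨-k - 2, ?_⟩
      rw [Lat.rt, hf, sg, ZMod.val_one, Matrix.smul_apply, smul_eq_mul]
      push_cast at hk
      linear_combination -hk
    have hs := split (t4 h0) (Lj.congr (zero_mem _) fun g hg => ch_D p3 n3 hc a1 a2 hg)
    exact Dm.two t2 hs (fr_D p3 n3) (tp_D p3 n3) hf (qz_tp3 hd) h8.t3.1

end Pool.Agent.P.MP_8b7eba_nt.SM.Tc
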