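import Pool.Agent.P.MP_8b7eba_nt.TC.Iface

/-! Step L5. -/

set_option autoImplicit false

namespace Pool.Agent.P.MP_8b7eba_nt.SM.Tc

open Finset R2 X
open scoped Matrix

namespace L5c

theorem q4_one {z : Z2} (h : 8 ∣ z + 1 - 5) : q4 z = 1 := by
  refine if_neg fun e => ?_
  have h4 : (8 : Z2) ∣ 4 := by
    have := dvd_sub e h
    rwa [show z - (z + 1 - 5) = 4 by ring] at this
  have h1 : (2 : Z2) ∣ 1 := (mul_dvd_mul_iff_left (a := (4 : Z2)) (by norm_num)).1 (by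
    rwa [show (4 : Z2) * 2 = 8 by norm_num, mul_one])
  exact PadicInt.prime_p.not_dvd_one (by exact_mod_cast h1)

theorem p5 : Nat.Prime 5 := by norm_num

theorem q5_tp : qz 5 (tp 5) = 1 := qs_tp_self p5 (by norm_num)

theorem q5_fr : qz 5 (fr 5) = 0 := qs_fr_self p5 (by norm_num)

theorem cyc_tp : (cyc (tp 5) : Z2) = 1 := by
  rw [hA.ec.2.2.2.2.2.2.1 (pl 5) (by rw [pl_p p5]; norm_num) _ (tp_I p5 (by norm_num)),
    Units.val_one]

theorem cyc_fr : (cyc (fr 5) : Z2) = 5 := by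
  rw [hA.ec.2.2.2.2.2.1 (pl 5) 1 _ (by rw [pl_p p5]; norm_num) (fr_frob p5 (by norm_num)),
    pl_p p5, pow_one, Nat.cast_ofNat]

theorem nd {d : ℤ} (h : jacobiSym d 5 ≠ 0) : ¬ ((5 : ℕ) : ℤ) ∣ 2 * d := fun e => by
  have : ((5 : ℕ) : ℤ) ∣ d := by omega
  obtain ⟨k, rfl⟩ := this
  exact h (by rw [jacobiSym.mul_left, show jacobiSym ((5 : ℕ) : ℤ) 5 = 0 by norm_num, zero_mul])

theorem zero5 {d : ℤ} (h : jacobiSym d 5 = 1) {g : GQ} (hg : g ∈ (pl 5).D) : qz d g = 0 := by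
  have n := nd (d := d) (by rw [h]; norm_num)
  refine ch_D p5 (by norm_num) (isCh_qz d)
    (qz_I hA (by rwa [pl_p p5]) (tp_I p5 (by norm_num))) ?_ hg
  rw [qz_fr p5 n, js, if_pos h]

end L5c

open L5c in
theorem p_L5 (hTORS : S_TORS) :
    S_L5 := by
  intro Λ d hM
  obtain ⟨h1, h2, h3, h4⟩ := hTORS Λ (qz d) 5 hM (isCh_qz d)
  have hf := fr_D p5 (by norm_num)
  have ht := tp_D p5 (by norm_num)
  have m1 : jacobiSym (-1) 5 = 1 := by norm_num
  refine ⟨fun h => ?_, fun h c hc => ?_⟩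
  · have e : qz d (fr 5) = 1 := by
      rw [qz_fr p5 (nd (by rw [h]; norm_num)), js, if_neg (by rw [h]; norm_num)]
    exact ⟨Dm.one h1 hf (by rw [Pi.add_apply, zero5 m1 hf, e, zero_add]), Dm.one h2 hf e⟩
  have hA' := h3 fun g hg => zero5 h hg
  have hB' := h4 fun g hg => by rw [zero5 h hg, zero5 m1 hg]
  have hC := add_mem (Submodule.smul_mem _ (c (fr 5)) hB')
    (Submodule.smul_mem _ (c (tp 5) + c (fr 5)) hA')
  have mt : q4 (Λ.rt (qz d) (tp 5) 0 0 - 1) = 1 := q4_one (by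
    have := hM.r00 (tp 5)
    rw [cyc_tp, q5_tp, ZMod.val_one] at this
    rw [Lat.rt, zero5 h ht, BasY.sg_zero, one_smul, sub_add_cancel]
    exact (by norm_num at this ⊢; exact this))
  have mf : q4 (Λ.rt (qz d) (fr 5) 0 0 - 1) = 1 := q4_one (by
    have := hM.r00 (fr 5)
    rw [cyc_fr, q5_fr, ZMod.val_zero] at this
    rw [Lat.rt, zero5 h hf, BasY.sg_zero, one_smul, sub_add_cancel]
    exact (by norm_num at this ⊢; exact this))
  have hc' : IsCh (pl 5).D fun (g : GQ) (_ : Fin 2) => c g :=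
    ⟨hc.1.comp fun a _ => a, fun g hg k hk => funext fun _ => hc.2 g hg k hk⟩
  refine LL.congr hC fun g hg => ?_
  refine CharTwo.add_eq_zero.1 (ch_D p5 (by norm_num) (hc'.add (LL.ch hC)) ?_ ?_ hg)
  · funext i
    fin_cases i <;>
      simp [ax_apply, mt, q5_tp, hM.t5.1, hM.t5.2] <;> generalize c (fr 5) = a <;>
      generalize c (tp 5) = b <;> revert a b <;> decide
  · funext i
    fin_cases i <;>
      simp [ax_apply, mf, q5_fr, hM.f5.1, hM.f5.2, CharTwo.add_self_eq_zero]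

end Pool.Agent.P.MP_8b7eba_nt.SM.Tc
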