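import Pool.Agent.P.MP_8b7eba_nt.TC.Iface

/-! Step LIFT. -/

set_option autoImplicit false

namespace Pool.Agent.P.MP_8b7eba_nt.SM.Tc

open Finset R2 X
open scoped Matrix

namespace LIFTc

theorem jj (j : Fin 2) : j + 1 + 1 = j := (by decide : ∀ j : Fin 2, j + 1 + 1 = j) j

theorem half (j : Fin 2) (v : VZ) (h : rd v j = 0) : ∃ v', v = dg2 j *ᵥ v' := by
  obtain ⟨c, hc⟩ := (BasY.dvd_iff1 _).1 h
  refine ⟨fun i => if i = j then c else v i, funext fun i => ?_⟩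
  rw [TSHW.app]
  split_ifs with e
  · rw [e, hc, pow_one]
  · rw [one_mul]

theorem rd_dg (j : Fin 2) (v : VZ) : rd (dg2 j *ᵥ v) = Pi.single (j + 1) (rd v (j + 1)) := by
  funext i
  have h : rd (dg2 j *ᵥ v) i = PadicInt.toZMod (if i = j then (2 : Z2) else 1) * rd v i := by
    rw [rd, TSHW.app, map_mul, rd]
  rw [h]
  fin_cases i <;> fin_cases j <;> simp [BasY.toZMod_two]

theorem comb (j : Fin 2) (a m : V1) :
    a + Pi.single j (m j) = Pi.single (j + 1) (a (j + 1)) + Pi.single j (a j + m j) := by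
  funext i
  fin_cases i <;> fin_cases j <;> simp

theorem lj_le (hSHL : S_SHL) {Λ Λ' : Lat} {j : Fin 2} (h : Λ.Sh Λ' j) (ψ : GQ → F2) (p : ℕ)
    {β : GQ → F2} (hβ : β ∈ Lj Λ ψ j p) : β ∈ Lj Λ' ψ j p := by
  have h1 := (hSHL Λ' Λ (j + 1) ψ p (hSHL Λ Λ' j ψ p h).1).2.1 _ (mem_Lj.1 hβ)
  simpa only [jj, ax_same] using h1

theorem rec0 {S : Finset ℕ} {l : ℕ} {α β : GQ → F2} (hS : ∀ p ∈ S, Gp p) (hl : Spl S l)
    (hβ : IsCh ⊤ β) (uβ : Un (insert l S) β) (hα : IsCh ⊤ α) (uα : Un S α) (ht : α tau = 0) :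
    ∑ p ∈ S ∪ T30, iv p (cu β α) = 0 := by
  have h := recp_iv (S := insert l (S ∪ T30)) (κ := cu β α)
    (fun p hp => (mem_insert.1 hp).elim (fun e => e ▸ hl.gp.1) (prime_of hS)) (co2_cu hβ hα)
    (Triv.one.congr fun g _ k hk => by simp [sgn, cu, zero_Ht hα ht hk]) fun w hw => by
      rw [mem_insert, mem_union, not_or, not_or] at hw
      have h30 : ¬ w.p ∣ 30 := fun e => hw.2.2 (mem_T30.2 ⟨w.prime, e⟩)
      refine BasN.unr (co2_cu (hβ.mono le_top) (hα.mono le_top)) fun g _ k _ i hi => ?_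
      rw [cu, cu, cu, hβ.2 g trivial i trivial, hα.2 k trivial i trivial,
        uβ w h30 (fun e => (mem_insert.1 e).elim hw.1 hw.2.1) i hi, uα w h30 hw.2.1 i hi,
        add_zero, add_zero]
      exact ⟨rfl, rfl⟩
  rwa [sum_insert (not_mem hl), iv_cu_zero fun g hg => zero_D hS hl hα uα ht hg, zero_add] at h

end LIFTc

open LIFTc in
theorem p_LIFT (hPT : S_PT) (hSHL : S_SHL) :
    S_LIFT := by
  intro Λ Λ' j S l F x hS hsh hl hF hx hα
  obtain ⟨y, m, hy, hr, hm, -⟩ := (hF x 0 _).2 rfl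
  have hFx : ∀ u : XX Λ S, ∑ p ∈ S ∪ T30, iv p (d2 (m p) u) = F x u := fun u =>
    (hF x u _).1 ⟨y, m, hy, hr, hm, rfl⟩
  choose y' e using fun g => half j (y g) (by rw [hr, hx])
  have hch : IsCh ⊤ fun g => rd (y' g) :=
    Lat.zn_one.1 (TSHW.zn (n := 1) hsh (fun g _ => e g) hy.zn)
  have hx' : ∀ g, x.1 g = Pi.single (j + 1) (rd (y' g) (j + 1)) := fun g => by
    rw [← hr, e g, rd_dg]
  have h0 : IsCh ⊤ fun g => rd (y' g) j := isCh_co hch j
  have u0 : Un (insert l S) fun g => rd (y' g) j := fun w a b g hg =>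
    congrFun (rd_eq_zero.2 (TSHW.dv_of (i := j) (e g ▸ hy.unr w a b g hg))) j
  have hloc : ∀ p ∈ S ∪ T30,
      x.1 + ax j ((fun g => rd (y' g) j) + fun g => m p g j) ∈ LL Λ' (chi S) p := by
    intro p hp
    have h1 : Λ'.Lc (p = 2) (chi (insert l S)) (pl p).D (0 + 1)
        fun g => y' g - dg2 (j + 1) *ᵥ lf (m p g) :=
      TSHW.lc hsh (fun g => by rw [Matrix.mulVec_sub, TSHW.dd, ← e, pow_one]) (hm p hp).2
    refine LL.congr (LL.congr_chi (LL.of_lc h1) fun g hg => (chi_D hS hl hp hg).symm)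
      fun g _ => ?_
    rw [rd_sub, rd_dg, jj, rd_lf, comb, Pi.add_apply, hx', ax_apply, Pi.add_apply]
  obtain ⟨γ, g1, g2, g3, g4⟩ := hPT S (Lj Λ (chi S) j)
    (fun p => (fun g => rd (y' g) j) + fun g => m p g j) hS (sat_Lj Λ _ j S)
    (fun p hp => (h0.mono le_top).add (isCh_co (hm p hp).1 j)) (by
      intro α ha
      obtain ⟨u, hu, hu0⟩ := hα α ha
      have ht : α tau = 0 := by rw [← ax_same (j + 1) α tau, ← hu, u.2.2.2.1, Pi.zero_apply]
      rw [sum_congr rfl fun p hp => iv_cu_add (h0.mono le_top) (isCh_co (hm p hp).1 j)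
        (ha.1.mono le_top), sum_add_distrib, rec0 hS hl h0 u0 ha.1 ha.2.1 ht, zero_add, ← hu0,
        ← hFx, hu]
      exact sum_congr rfl fun p _ => by rw [d2_ax', jj])
  refine ⟨γ, x.2.1.add (isCh_ax g1 j), fun w a b g hg => ?_, ?_, fun p hp => ?_⟩
  · rw [Pi.add_apply, x.2.2.1 w a b g hg, ax_apply, g2 w a b g hg, Pi.single_zero, add_zero]
  · rw [Pi.add_apply, x.2.2.2.1, ax_apply, g3, Pi.single_zero, add_zero]
  · have h1 := add_mem (hloc p hp) (mem_Lj.1 (lj_le hSHL hsh _ p (g4 p hp)))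
    refine LL.congr h1 fun g _ => ?_
    have h2 : ∀ a b : F2, b = a + (b + a) := by decide
    simp only [Pi.add_apply, ax_apply, add_assoc, ← Pi.single_add]
    rw [← add_assoc, ← h2]

end Pool.Agent.P.MP_8b7eba_nt.SM.Tc
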