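import Pool.Agent.P.MP_8b7eba_nt.SM.DefG

/-! The rank lemma for a family of symmetric forms over the field with two elements. -/

namespace Pool.Agent.P.MP_8b7eba_nt.TC

open SM Module

namespace TLIN

theorem f2 (a : F2) : a = 0 ∨ a = 1 := by revert a; decide

theorem ee_add (u u' v : V1) : ee (u + u') v = ee u v + ee u' v := by
  simp only [ee, Pi.add_apply]; ring

theorem ee_add' (u v v' : V1) : ee u (v + v') = ee u v + ee u v' := by
  simp only [ee, Pi.add_apply]; ring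

theorem ee_zero (v : V1) : ee 0 v = 0 := by simp [ee]

theorem ee_nd : ∀ z v v' : V1, ee v' v = 1 → ee z v = 0 → ee z v' = 0 → z = 0 := by
  unfold ee; decide

theorem ee_ex : ∀ v : V1, v ≠ 0 → ∃ v', ee v' v = 1 := by unfold ee; decide

theorem ee_dec : ∀ v v' z z' : V1, ee v' v = 1 →
    ee z z' = ee z v' * ee z' v + ee z v * ee z' v' := by unfold ee; decide

variable {X G : Type} [AddCommGroup X] [Module F2 X]

/-- the pairing with a fixed vector -/
def eL (v : V1) : V1 →ₗ[F2] F2 where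
  toFun z := ee z v
  map_add' a b := ee_add a b v
  map_smul' c a := by simp only [ee, Pi.smul_apply, smul_eq_mul, RingHom.id_apply]; ring

theorem fr_le [FiniteDimensional F2 X] (W : Submodule F2 X) (f : X →ₗ[F2] F2) :
    finrank F2 W ≤ finrank F2 (W ⊓ LinearMap.ker f : Submodule F2 X) + 1 := by
  have h := (f.domRestrict W).finrank_range_add_finrank_ker
  have h1 : finrank F2 (LinearMap.range (f.domRestrict W)) ≤ 1 := by
    simpa using Submodule.finrank_le (LinearMap.range (f.domRestrict W))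
  have h2 : finrank F2 (LinearMap.ker (f.domRestrict W)) =
      finrank F2 (W ⊓ LinearMap.ker f : Submodule F2 X) := by
    rw [LinearMap.ker_domRestrict, ← Submodule.finrank_map_subtype_eq, Submodule.map_comap_subtype]
  omega

theorem fr_lt [FiniteDimensional F2 X] {W W' : Submodule F2 X} (h : W' ≤ W) {w : X} (hw : w ∈ W)
    (h' : w ∉ W') : finrank F2 W' < finrank F2 W :=
  Submodule.finrank_lt_finrank_of_lt (lt_of_le_of_ne h fun e => h' (e ▸ hw))

theorem ex_ne {W : Submodule F2 X} (h : 1 ≤ finrank F2 W) : ∃ w ∈ W, w ≠ 0 := by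
  by_contra k
  push Not at k
  rw [(Submodule.eq_bot_iff W).2 k, finrank_bot] at h
  omega

theorem two [Mul G] {s t : G → F2} (hs : ∀ g h, s (g * h) = s g + s h)
    (ht : ∀ g h, t (g * h) = t g + t h) {a b : G} (ha : s a = 1) (hb : t b = 1) :
    ∃ g, s g = 1 ∧ t g = 1 := by
  rcases f2 (t a) with h | h
  · rcases f2 (s b) with k | k
    · exact ⟨a * b, by rw [hs, ha, k, add_zero], by rw [ht, hb, h, zero_add]⟩
    · exact ⟨b, k, hb⟩
  · exact ⟨a, ha, h⟩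

end TLIN

open TLIN

variable {X G : Type} [AddCommGroup X] [Module F2 X]

/-- the elements all of whose values are multiples of `v` -/
def Xv (ev : G → X →ₗ[F2] V1) (v : V1) : Submodule F2 X := ⨅ g, LinearMap.ker (eL v ∘ₗ ev g)

theorem mem_Xv {ev : G → X →ₗ[F2] V1} {v : V1} {x : X} :
    x ∈ Xv ev v ↔ ∀ g, ee (ev g x) v = 0 := by
  simp [Xv, Submodule.mem_iInf, eL]

/-- the rank lemma -/
theorem lin [FiniteDimensional F2 X] [Mul G] (ev : G → X →ₗ[F2] V1)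
    (hm : ∀ g h x, ev (g * h) x = ev g x + ev h x) (hs : ∀ x, (∀ g, ev g x = 0) → x = 0)
    (𝒞 : Set (LinearMap.BilinForm F2 X)) (h0 : 𝒞.Nonempty) (sy : ∀ C ∈ 𝒞, ∀ x y, C x y = C y x)
    (cl : ∀ C ∈ 𝒞, ∀ g, ∃ C' ∈ 𝒞, ∀ x y, C' x y = C x y + ee (ev g x) (ev g y))
    (rad : ∀ C ∈ 𝒞, 2 ≤ finrank F2 (LinearMap.ker C)) :
    ∃ C ∈ 𝒞, ∃ v ≠ 0, C.orthogonal (Xv ev v) ≤ Xv ev v ∧
      finrank F2 X + 2 ≤ finrank F2 (C.orthogonal (Xv ev v)) + finrank F2 (Xv ev v) := by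
  obtain ⟨C, hC, hmin⟩ := (measure fun C : LinearMap.BilinForm F2 X =>
    finrank F2 (LinearMap.ker C)).wf.has_min 𝒞 h0
  replace hmin : ∀ C' ∈ 𝒞, ¬ finrank F2 (LinearMap.ker C') < finrank F2 (LinearMap.ker C) := hmin
  have mk : ∀ {D : LinearMap.BilinForm F2 X} {x}, x ∈ LinearMap.ker D ↔ ∀ y, D x y = 0 :=
    fun {D x} => ⟨fun h y => by rw [LinearMap.mem_ker.1 h]; rfl, fun h => LinearMap.ext h⟩
  set R := LinearMap.ker C with hR
  have hR2 : 2 ≤ finrank F2 R := rad C hC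
  have cr : ∀ r ∈ R, ∀ x, C x r = 0 := fun r hr x => by rw [sy C hC, mk.1 hr]
  have s1 : ∀ g, ∀ r ∈ R, ∀ r' ∈ R, ee (ev g r) (ev g r') = 0 := fun g r hr r' hr' => by
    refine (f2 _).resolve_right fun e => ?_
    obtain ⟨C', hC', h⟩ := cl C hC g
    refine hmin C' hC' (fr_lt (fun x hx => ?_) hr fun k => ?_)
    · have a := mk.1 hx r
      have b := mk.1 hx r'
      rw [h, cr _ ‹_›, zero_add] at a b
      have := ee_nd _ _ _ e b a
      exact mk.2 fun y => by simpa [h, this, ee_zero] using mk.1 hx y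
    · simpa [h, cr _ hr', e] using mk.1 k r'
  have pol : ∀ g h, ∀ r ∈ R, ∀ s ∈ R, ev g r = 0 → ee (ev h r) (ev g s) = 0 :=
    fun g h r hr s hs' e => by
      have := s1 (g * h) r hr s hs'
      rwa [hm, hm, e, zero_add, ee_add', s1 h r hr s hs', add_zero] at this
  obtain ⟨r₀, hr₀, n₀⟩ := ex_ne (W := R) (by omega)
  obtain ⟨g₀, hg₀⟩ := not_forall.1 fun h => n₀ (hs r₀ h)
  set v := ev g₀ r₀ with hv
  have s2 : ∀ r ∈ R, ∀ g, ee (ev g r) v = 0 := fun r₁ hr₁ g => by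
    refine (f2 _).resolve_right fun e => ?_
    have := fr_le R (eL (ev g r₁) ∘ₗ ev g₀)
    obtain ⟨r, ⟨hr, k⟩, n⟩ := ex_ne (W := R ⊓ LinearMap.ker (eL (ev g r₁) ∘ₗ ev g₀)) (by omega)
    have a : ev g₀ r = 0 := ee_nd _ _ _ e (s1 _ r hr r₀ hr₀) k
    have b : ev g r = 0 := ee_nd _ _ _ e (pol _ _ r hr r₀ hr₀ a) (s1 _ r hr r₁ hr₁)
    exact n (hs r fun h => ee_nd _ _ _ e (pol _ _ r hr r₀ hr₀ a) (pol _ _ r hr r₁ hr₁ b))
  have RX : R ≤ Xv ev v := fun r hr => mem_Xv.2 (s2 r hr)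
  refine ⟨C, hC, v, hg₀, fun u hu => ?_, ?_⟩
  swap
  · have := C.finrank_add_finrank_orthogonal' (Xv ev v)
    rw [← hR, inf_eq_right.2 RX] at this
    omega
  by_contra hn
  obtain ⟨h₀, hh₀⟩ := not_forall.1 (mt mem_Xv.2 hn)
  replace hh₀ := (f2 _).resolve_left hh₀
  obtain ⟨v', hv'⟩ := ee_ex v hg₀
  have exu : ∀ g, ∃ z, ∀ y, C z y = ee (ev g y) v := fun g => by
    have : eL v ∘ₗ ev g ∈ LinearMap.range (LinearMap.flip C) := by
      rw [← LinearMap.dualAnnihilator_ker_eq_range_flip, Submodule.mem_dualAnnihilator]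
      exact fun r hr => s2 r hr g
    obtain ⟨z, hz⟩ := this
    exact ⟨z, fun y => by rw [sy C hC]; exact LinearMap.congr_fun hz y⟩
  choose U hU using exu
  obtain ⟨e₀, he₀⟩ : ∃ g, ∀ y, C u y = ee (ev g y) v := by
    let W : Submodule F2 (Dual F2 X) :=
      { carrier := Set.range fun g => eL v ∘ₗ ev g
        add_mem' := by
          rintro _ _ ⟨a, rfl⟩ ⟨b, rfl⟩
          exact ⟨a * b, LinearMap.ext fun x => by simp [hm]⟩
        zero_mem' := ⟨g₀ * g₀, LinearMap.ext fun x => by simp [hm, CharTwo.add_self_eq_zero]⟩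
        smul_mem' := by
          rintro c _ ⟨a, rfl⟩
          rcases f2 c with rfl | rfl
          · exact ⟨g₀ * g₀, LinearMap.ext fun x => by simp [hm, CharTwo.add_self_eq_zero]⟩
          · exact ⟨a, by simp⟩ }
    have : C u ∈ W := by
      rw [← Subspace.dualCoannihilator_dualAnnihilator_eq (W := W), Submodule.mem_dualAnnihilator]
      intro y hy
      rw [sy C hC]
      exact hu y (mem_Xv.2 fun g => (Submodule.mem_dualCoannihilator _).1 hy _ ⟨g, rfl⟩)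
    obtain ⟨g, hg⟩ := this
    exact ⟨g, fun y => (LinearMap.congr_fun hg y).symm⟩
  have sep : ∀ r ∈ R, r ≠ 0 → ∃ g, ee (ev g r) v' = 1 := fun r hr n => by
    obtain ⟨g, hg⟩ := not_forall.1 fun h => n (hs r h)
    exact ⟨g, (f2 _).resolve_left fun k => hg (ee_nd _ _ _ hv' (s2 r hr g) k)⟩
  have ad : ∀ x w g h, ee (ev (g * h) x) w = ee (ev g x) w + ee (ev h x) w :=
    fun x w g h => by rw [hm, ee_add]
  obtain ⟨a₀, ha₀⟩ := sep r₀ hr₀ n₀
  obtain ⟨e, e1, e2⟩ := two (s := fun g => ee (ev g r₀) v') (t := fun g => ee (ev g (U h₀)) v)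
    (b := e₀) (ad r₀ v') (ad (U h₀) v) ha₀
    (show ee (ev e₀ (U h₀)) v = 1 by rw [← he₀, sy C hC, hU, hh₀])
  have k1 := fr_le R (eL v' ∘ₗ ev e)
  obtain ⟨r, ⟨hr, kr⟩, n⟩ := ex_ne (W := R ⊓ LinearMap.ker (eL v' ∘ₗ ev e)) (by omega)
  replace kr : ee (ev e r) v' = 0 := kr
  obtain ⟨a₁, ha₁⟩ := sep r hr n
  obtain ⟨h, h1, h2⟩ := two (s := fun g => ee (ev g r) v') (t := fun g => ee (ev g (U e)) v)
    (b := h₀) (ad r v') (ad (U e) v) ha₁
    (show ee (ev h₀ (U e)) v = 1 by rw [← hU, sy C hC, hU, e2])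
  obtain ⟨C₁, c1, d1⟩ := cl C hC e
  obtain ⟨C₂, c2, d2⟩ := cl C₁ c1 h
  obtain ⟨C₃, c3, d3⟩ := cl C₂ c2 (e * h)
  have d : ∀ x y, C₃ x y = C x y + (ee (ev e x) v' * ee (ev h y) v + ee (ev e x) v * ee (ev h y) v'
      + (ee (ev h x) v' * ee (ev e y) v + ee (ev h x) v * ee (ev e y) v')) := fun x y => by
    rw [d3, d2, d1, hm, hm, ee_add, ee_add', ee_add', ← ee_dec _ _ _ _ hv', ← ee_dec _ _ _ _ hv']
    linear_combination (ee (ev e x) (ev e y) + ee (ev h x) (ev h y)) *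
      (CharTwo.two_eq_zero : (2 : F2) = 0)
  have k2 := fr_le (LinearMap.ker C₃) (eL v' ∘ₗ ev e)
  have k3 : finrank F2 (R ⊓ LinearMap.ker (eL v' ∘ₗ ev e) : Submodule F2 X) < finrank F2 R :=
    fr_lt inf_le_left hr₀ fun k => by
      have : ee (ev e r₀) v' = 0 := k.2
      simp [e1] at this
  have k4 : finrank F2 (LinearMap.ker C₃ ⊓ LinearMap.ker (eL v' ∘ₗ ev e) : Submodule F2 X) <
      finrank F2 (R ⊓ LinearMap.ker (eL v' ∘ₗ ev e) : Submodule F2 X) := by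
    refine fr_lt (fun x hx => ⟨?_, hx.2⟩) (w := r) ⟨hr, kr⟩ fun k => ?_
    · have x0 : ee (ev e x) v' = 0 := hx.2
      have x1 := mk.1 hx.1 r
      rw [d, cr r hr, s2 r hr, s2 r hr, kr, h1] at x1
      have x2 := mk.1 hx.1 r₀
      replace x1 : ee (ev e x) v = 0 := by simpa using x1
      rw [d, cr _ hr₀, s2 _ hr₀, s2 _ hr₀, e1, x1] at x2
      replace x2 : ee (ev h x) v = 0 := by simpa using x2
      have x3 := mk.1 hx.1 (U h)
      rw [d, x0, x1, x2, sy C hC, hU, x2, ← hU e, sy C hC, hU h, h2] at x3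
      replace x3 : ee (ev h x) v' = 0 := by simpa using x3
      exact mk.2 fun y => by simpa [d, x0, x1, x2, x3] using mk.1 hx.1 y
    · have := mk.1 k.1 (U h)
      rw [d, mk.1 hr, kr, s2 r hr, s2 r hr, h1, ← hU e, sy C hC, hU h, h2] at this
      simp at this
  exact hmin C₃ c3 (by omega)

end Pool.Agent.P.MP_8b7eba_nt.TC
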