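import Pool.Agent.P.MP_8b7eba_nt.TC.Iface
import Pool.Agent.P.MP_8b7eba_nt.TC.TLINx

/-! Step LIN. -/

set_option autoImplicit false

namespace Pool.Agent.P.MP_8b7eba_nt.SM.Tc

open Finset R2 X Module
open scoped Matrix

namespace LINc

theorem card_eq {V : Type} [AddCommGroup V] [Module F2 V] [Finite V] :
    Nat.card V = 2 ^ finrank F2 V := by
  rw [Module.natCard_eq_pow_finrank (K := F2), Nat.card_zmod]

theorem two_le {V : Type} [AddCommGroup V] [Module F2 V] [Finite V] {W : Submodule F2 V} {x y : V}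
    (hx : x ∈ W) (hy : y ∈ W) (h1 : x ≠ 0) (h2 : y ≠ 0) (h3 : x ≠ y) : 2 ≤ finrank F2 W := by
  by_contra h
  obtain ⟨u, hu⟩ := finrank_le_one_iff.1 (show finrank F2 W ≤ 1 by omega)
  obtain ⟨a, ha⟩ := hu ⟨x, hx⟩
  obtain ⟨b, hb⟩ := hu ⟨y, hy⟩
  have e1 : a • u.1 = x := congrArg Subtype.val ha
  have e2 : b • u.1 = y := congrArg Subtype.val hb
  rcases TC.TLIN.f2 a with rfl | rfl
  · exact h1 (by rw [← e1, zero_smul])
  rcases TC.TLIN.f2 b with rfl | rfl
  · exact h2 (by rw [← e2, zero_smul])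
  exact h3 (e1.symm.trans e2)

theorem ee_comm (u v : V1) : ee u v = ee v u := by
  simp only [ee]
  ring

end LINc

open LINc

theorem p_LIN : S_LIN := by
  intro G _ X 𝓕 hf hm h0 sy cl
  by_cases h : ∃ F ∈ 𝓕, Rad1 F
  · exact h.imp fun F k => ⟨k.1, .inl k.2⟩
  have : Finite X := hf
  obtain ⟨C, hC, v, v0, k1, k2⟩ := TC.lin (X := X) (fun g => LinearMap.proj g ∘ₗ X.subtype)
    (fun g g' x => hm x x.2 g g') (fun x e => Subtype.ext (funext e)) 𝓕 h0 sy cl fun C hC => by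
      have k : ¬ Rad1 C := fun k => h ⟨C, hC, k⟩
      unfold Rad1 at k
      push Not at k
      obtain ⟨x, y, a1, a2, a3, a4, a5⟩ := k
      exact two_le (LinearMap.mem_ker.2 (LinearMap.ext a1))
        (LinearMap.mem_ker.2 (LinearMap.ext a2)) a3 a4 a5
  generalize hA : TC.Xv (X := X) (fun g => LinearMap.proj g ∘ₗ X.subtype) v = A at k1 k2
  have mA : ∀ x : X, x ∈ A ↔ x.1 ∈ Av X v := fun x => by
    rw [← hA, TC.mem_Xv]
    exact ⟨fun e => ⟨x.2, fun g => (ee_comm _ _).trans (e g)⟩,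
      fun e g => (ee_comm _ _).trans (e.2 g)⟩
  have c1 : (X : Set (G → V1)).ncard = 2 ^ finrank F2 X := card_eq (V := X)
  have c2 : (Av X v).ncard = 2 ^ finrank F2 A := by
    refine Eq.trans ?_ (show (A : Set X).ncard = _ from card_eq (V := A))
    rw [← Set.ncard_image_of_injective (A : Set X) Subtype.val_injective]
    congr 1
    ext x
    exact ⟨fun e => ⟨⟨x, e.1⟩, (mA _).2 e, rfl⟩, fun ⟨y, a, b⟩ => b ▸ (mA y).1 a⟩
  have k3 := Submodule.finrank_mono k1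
  refine ⟨C, hC, .inr ⟨v, v0, ?_, fun e x y hx hy => ?_⟩⟩
  · rw [c1, c2, ← pow_mul, show 4 = 2 ^ 2 from rfl, ← pow_add]
    exact Nat.pow_le_pow_right two_pos (by omega)
  · rw [c1, c2, ← pow_mul, show 4 = 2 ^ 2 from rfl, ← pow_add,
      Nat.pow_le_pow_iff_right one_lt_two] at e
    have k4 := Submodule.eq_of_le_of_finrank_le k1 (by omega)
    exact (k4.ge ((mA y).2 hy)) x ((mA x).2 hx)

end Pool.Agent.P.MP_8b7eba_nt.SM.Tc
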