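import Pool.Agent.P.MP_8b7eba_nt.TC.Iface

/-! Step LOCA. -/

set_option autoImplicit false

namespace Pool.Agent.P.MP_8b7eba_nt.SM.Tc

open Finset R2 X
open scoped Matrix

namespace LOCAc

theorem qz_tp' {p : ℕ} {m : ℤ} (hp : p.Prime) (h2 : p ≠ 2) (hm : Squarefree m) :
    qz m (tp p) = 0 ↔ ¬ (p : ℤ) ∣ m := by
  have e := pl_p hp
  have := qz_gen hA (w := pl p) (m := m) (by rwa [e]) (tp_I hp h2)
    (by rw [e]; exact tp_mov hp h2) hm
  rwa [e] at this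

theorem tp_one {p : ℕ} {m : ℤ} (hp : p.Prime) (h2 : p ≠ 2) (hm : Squarefree m) (h : (p : ℤ) ∣ m) :
    qz m (tp p) = 1 := BasG.one_of_ne fun e => (qz_tp' hp h2 hm).1 e h

theorem nd {p : ℕ} (hp : p.Prime) (h2 : p ≠ 2) : ¬ (p : ℤ) ∣ 2 * 2 := fun e => by
  have e' : p ∣ 2 ^ 2 := by exact_mod_cast e
  exact h2 ((Nat.prime_dvd_prime_iff_eq hp Nat.prime_two).1 (hp.dvd_of_dvd_pow e'))

theorem tp_neg {p : ℕ} (hp : p.Prime) (h2 : p ≠ 2) : qz (-1) (tp p) = 0 :=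
  qz_I hA (w := pl p) (fun e => nd hp h2 (by rw [pl_p hp] at e; exact e.trans (by norm_num)))
    (tp_I hp h2)

theorem tp_two {p : ℕ} (hp : p.Prime) (h2 : p ≠ 2) : qz 2 (tp p) = 0 :=
  qz_I hA (w := pl p) (by rw [pl_p hp]; exact nd hp h2) (tp_I hp h2)

theorem fr_two {p : ℕ} (hp : p.Prime) (h : p % 8 = 3 ∨ p % 8 = 5) : qz 2 (fr p) = 1 := by
  have h2 : p ≠ 2 := by omega
  rw [qz_fr hp (nd hp h2), js, if_neg]
  rw [jacobiSym.at_two (hp.odd_of_ne_two h2), ZMod.χ₈_nat_eq_if_mod_eight, if_neg (by omega),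
    if_neg (by omega)]
  decide

theorem jac3 (d : ℤ) : (3 : ℤ) ∣ d ∨ (d % 3 = 1 ∧ jacobiSym d 3 = 1) ∨ jacobiSym d 3 = -1 := by
  rw [jacobiSym.mod_left d 3, Nat.cast_ofNat]
  have : d % 3 = 0 ∨ d % 3 = 1 ∨ d % 3 = 2 := by omega
  rcases this with h | h | h
  · exact .inl (Int.dvd_of_emod_eq_zero h)
  · rw [h]; exact .inr (.inl ⟨rfl, by norm_num⟩)
  · rw [h]; exact .inr (.inr (by norm_num))

theorem jac5 (d : ℤ) : (5 : ℤ) ∣ d ∨ ((d % 5 = 2 ∨ d % 5 = 3) ∧ jacobiSym d 5 = -1) ∨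
    jacobiSym d 5 = 1 := by
  rw [jacobiSym.mod_left d 5, Nat.cast_ofNat]
  have : d % 5 = 0 ∨ d % 5 = 1 ∨ d % 5 = 2 ∨ d % 5 = 3 ∨ d % 5 = 4 := by omega
  rcases this with h | h | h | h | h
  · exact .inl (Int.dvd_of_emod_eq_zero h)
  · rw [h]; exact .inr (.inr (by norm_num))
  · rw [h]; exact .inr (.inl ⟨.inl rfl, by norm_num⟩)
  · rw [h]; exact .inr (.inl ⟨.inr rfl, by norm_num⟩)
  · rw [h]; exact .inr (.inr (by norm_num))

end LOCAc

theorem p_LOCA (hMOD8 : S_MOD8) (hTORS : S_TORS) (hL2 : S_L2) (hL3 : S_L3) (hL5 : S_L5) (hKG0 : S_KG0) :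
    S_LOCA := by
  intro T Λ b hb n hΛ hn hc hd hE
  have ho : Odd n := Nat.coprime_two_right.1 (hc.coprime_dvd_right (by norm_num))
  have m8 := hMOD8 T Λ hΛ
  have hdv := fun (p : ℕ) (hp : p.Prime) => R3.dvd_tw hb (n := n) hp hn.ne_zero
  have hLL : ∀ p, LL (R3.tw Λ hb) (chi n.primeFactors) p = LL Λ (qz (b * ps n)) p := fun p => by
    ext φ
    rw [mem_LL, mem_LL, R3.tw_lc, R3.chi_tw hb hn ho]
  have hpn : ∀ p ∈ n.primeFactors, (p : ℤ) ∣ b * ps n := fun p hp =>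
    Dvd.dvd.mul_left (Int.natCast_dvd.2 (by
      rw [BasG.abs_ps]; exact Nat.dvd_of_mem_primeFactors hp)) b
  generalize b * ps n = d at hd hE hdv hLL hpn
  have hLj : ∀ j p, Lj (R3.tw Λ hb) (chi n.primeFactors) j p = Lj Λ (qz d) j p := fun j p => by
    rw [Lj, Lj, hLL]
  have tors : ∀ p : ℕ, p.Prime → p ≠ 2 → (p : ℤ) ∣ d → ∀ j, Dm (Lj Λ (qz d) j p) p 1 := by
    intro p hp h2 h j
    obtain ⟨t0, t1, -⟩ := hTORS Λ (qz d) p m8 (isCh_qz d)
    have e := LOCAc.tp_one hp h2 hd h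
    fin_cases j
    · exact Dm.one t0 (tp_D hp h2) (by rw [Pi.add_apply, LOCAc.tp_neg hp h2, e, zero_add])
    · exact Dm.one t1 (tp_D hp h2) e
  have gp : ∀ p ∈ n.primeFactors, Gp p := fun p hp =>
    ⟨Nat.prime_of_mem_primeFactors hp, fun e => (Nat.prime_of_mem_primeFactors hp).one_lt.ne'
      (Nat.eq_one_of_dvd_coprimes hc (Nat.dvd_of_mem_primeFactors hp) e)⟩
  obtain ⟨l20, β, l21, l22, l23⟩ := hL2 T Λ d hΛ hd
  have p3 : Nat.Prime 3 := Nat.prime_three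
  have p5 : Nat.Prime 5 := Nat.prime_five
  have g0 : jacobiSym d 5 ≠ 1 → G0 (R3.tw Λ hb) n.primeFactors := by
    intro h5
    by_cases h3 : jacobiSym d 3 = -1
    · refine (hKG0 _ _ 3 (mem_union_right _ (by decide)) p3).1 ?_
        ⟨fr 3, fr_D p3 (by decide), LOCAc.fr_two p3 (by decide)⟩
      rw [hLj]
      exact (hL3 Λ d m8).2 h3
    by_cases hq : ∃ p : ℕ, p.Prime ∧ (p : ℤ) ∣ d ∧ (p % 8 = 3 ∨ p % 8 = 5)
    · obtain ⟨p, hp, h1, h8⟩ := hq
      have h2 : p ≠ 2 := by omega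
      have hm : p ∈ n.primeFactors ∪ T30 := mem_union.2
        ((hdv p hp (h1.mul_left 30)).symm.imp_right fun a => mem_T30.2 ⟨hp, a⟩)
      have e := LOCAc.tp_one hp h2 hd h1
      refine (hKG0 _ _ p hm hp).2 (qz d) ?_ ?_ ⟨tp p, tp_D hp h2, e⟩ ?_
      · rw [hLj]
        exact (hTORS Λ (qz d) p m8 (isCh_qz d)).2.1
      · rw [hLj, du, if_neg h2]
        exact tors p hp h2 h1 0
      · rcases BasG.f2 (qz d (fr p)) with a | a
        · exact ⟨fr p, fr_D hp h2, a, LOCAc.fr_two hp h8⟩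
        · refine ⟨fr p * tp p, mul_mem (fr_D hp h2) (tp_D hp h2), ?_, ?_⟩
          · rw [(isCh_qz (H := ⊤) d).2 _ trivial _ trivial, a, e]
            rfl
          · rw [(isCh_qz (H := ⊤) 2).2 _ trivial _ trivial, LOCAc.fr_two hp h8,
              LOCAc.tp_two hp h2, add_zero]
    · have a3 : d % 3 = 1 := by
        rcases LOCAc.jac3 d with a | a | a
        · exact absurd ⟨3, p3, by exact_mod_cast a, by decide⟩ hq
        · exact a.1
        · exact absurd a h3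
      have a5 : d % 5 = 2 ∨ d % 5 = 3 := by
        rcases LOCAc.jac5 d with a | a | a
        · exact absurd ⟨5, p5, by exact_mod_cast a, by decide⟩ hq
        · exact a.1
        · exact absurd a h5
      have a16 : d % 16 ≠ 2 := fun e => hE ⟨by omega, fun p hp h2 h1 => by
        have h3 := Nat.odd_iff.1 (hp.odd_of_ne_two h2)
        by_contra h4
        exact hq ⟨p, hp, h1, by omega⟩⟩
      refine (hKG0 _ _ 2 (mem_union_right _ (by decide)) Nat.prime_two).2 β ?_ ?_ l22 (l23 a16)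
      · rw [hLj]
        exact l21
      · rw [hLj]
        exact l20
  refine ⟨gp, fun j p hp => ?_, ?_, ?_, ?_⟩
  · rw [hLj]
    exact tors p (gp p hp).1 (gp p hp).ne.1 (hpn p hp) j
  · rw [hLj, hLj]
    obtain ⟨g, a, c⟩ := l22
    exact ⟨l20, Dm.one l21 a c⟩
  · rw [hLj, hLj]
    rcases LOCAc.jac3 d with a | a | a
    · exact .inl ⟨tors 3 p3 (by decide) (by exact_mod_cast a) 0,
        tors 3 p3 (by decide) (by exact_mod_cast a) 1⟩
    · exact .inl ((hL3 Λ d m8).1 a.2)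
    · exact .inr ((hL3 Λ d m8).2 a)
  · rw [hLj, hLj]
    by_cases h5 : jacobiSym d 5 = 1
    · refine .inr fun c hc => ?_
      rw [hLL]
      exact (hL5 Λ d m8).2 h5 c hc
    · rcases LOCAc.jac5 d with a | a | a
      · exact .inl ⟨tors 5 p5 (by decide) (by exact_mod_cast a) 0,
          tors 5 p5 (by decide) (by exact_mod_cast a) 1, g0 h5⟩
      · exact .inl ⟨((hL5 Λ d m8).1 a.2).1, ((hL5 Λ d m8).1 a.2).2, g0 h5⟩
      · exact absurd a h5

end Pool.Agent.P.MP_8b7eba_nt.SM.Tc
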