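import Pool.Agent.P.MP_8b7eba_nt.TC.Iface

/-! Step MAX. -/

set_option autoImplicit false

namespace Pool.Agent.P.MP_8b7eba_nt.SM.Tc

open Finset R2 X
open scoped Matrix

namespace MAXc

theorem two (a b : F2) (h : a ≠ 0) (e : b = 1) : a = b := by
  revert a b; decide

theorem sol (a b c d e : F2) (h : a + b = c + d) (h' : d = c + e + 0) : b = a + e := by
  revert a b c d e; decide

theorem ee_zero : ee (0 : V1) 0 = 0 := by simp [ee]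

end MAXc

theorem p_MAX (hFINW : S_FINW) (hFORM : S_FORM) (hSYM : S_SYM) (hTH : S_TH) (hVAR : S_VAR) (hADM : S_ADM) (hCHEB : S_CHEB) (hLIN : S_LIN) :
    S_MAX := by
  intro Λ S Q B hS hQ hG
  obtain ⟨g0, hg0, hg1⟩ := hG
  have key := hLIN GQ (XX Λ S) {F | ∃ l, Ad S Q B l ∧ IsF Λ S l F}
    ((hFINW S hS).2.subset fun φ hφ => ⟨hφ.1, hφ.2.1⟩)
    (fun x hx g h => hx.1.2 g trivial h trivial)
    (by
      obtain ⟨l, hl⟩ := hADM S Q B hS hQ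
      obtain ⟨F, hF⟩ := hFORM Λ S l hS hl.2.2.1
      exact ⟨F, l, hl, hF⟩)
    (by
      rintro F ⟨l, hl, hF⟩ x y
      exact hSYM Λ S l x y _ _ hS hl.2.2.1 x.2 y.2 ((hF x y _).2 rfl) ((hF y x _).2 rfl))
    (by
      rintro F ⟨l, hl, hF⟩ g
      have hex : ∃ h, qz 2 g = qz 2 h ∧ ∀ x ∈ XX Λ S, ∀ y ∈ XX Λ S, ee (x h) (y h) = 0 := by
        by_cases e : qz 2 g = 0
        · refine ⟨1, by rw [e, (isCh_qz (H := ⊤) 2).one], fun x hx y hy => ?_⟩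
          rw [hx.1.one, hy.1.one, MAXc.ee_zero]
        · exact ⟨g0, MAXc.two _ _ e hg0, hg1⟩
      obtain ⟨h, hh, hh'⟩ := hex
      have hfin : Finite (XX Λ S) :=
        ((hFINW S hS).2.subset fun φ (hφ : φ ∈ XX Λ S) => ⟨hφ.1, hφ.2.1⟩).to_subtype
      choose θ hθ using fun i : XX Λ S × XX Λ S => hTH Λ S i.1 i.2 hS i.1.2 i.2.2
      obtain ⟨l', hll, hl', hv⟩ := hCHEB S Q B l (XX Λ S × XX Λ S) (fun i => i.1) (fun i => i.2) θ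
        g h hS hQ hl (fun i => ⟨⟨i.1.2.1, i.1.2.2.1, i.1.2.2.2.1⟩,
          ⟨i.2.2.1, i.2.2.2.1, i.2.2.2.2.1⟩, hθ i⟩) hh
      obtain ⟨F', hF'⟩ := hFORM Λ S l' hS hl'.2.2.1
      refine ⟨F', ⟨l', hl', hF'⟩, fun x y => ?_⟩
      have h1 := hVAR Λ S l l' x y _ _ (θ (x, y)) hS hl.2.2.1 hl'.2.2.1 hll.ne x.2 y.2
        ((hF x y _).2 rfl) ((hF' x y _).2 rfl) (hθ (x, y)).1 (hθ (x, y)).2
      have h2 := hv (x, y)
      rw [hh' _ x.2 _ y.2] at h2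
      exact MAXc.sol _ _ _ _ _ h1 h2)
  obtain ⟨F, ⟨l, hl, hF⟩, h⟩ := key
  exact ⟨l, F, hl, hF, h⟩

end Pool.Agent.P.MP_8b7eba_nt.SM.Tc
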