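import Pool.Agent.P.MP_8b7eba_nt.TC.Iface

/-! Step MOD8. -/

set_option autoImplicit false

namespace Pool.Agent.P.MP_8b7eba_nt.SM.Tc

open Finset R2 X
open scoped Matrix

namespace MOD8c

theorem four {z : Z2} (h : ‖(z : ℚ_[2])‖ ≤ 4⁻¹) : 4 ∣ z := by
  have := TLATX.dvd_of_norm (z := z) (n := 2) (h.trans_eq (by norm_num))
  rwa [show (2 : Z2) ^ 2 = 4 by norm_num] at this

theorem eight {z : Z2} : 8 ∣ z ↔ ‖(z : ℚ_[2])‖ < 4⁻¹ := by
  have a := PadicInt.norm_le_pow_iff_mem_span_pow z 3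
  have b := PadicInt.norm_lt_pow_iff_norm_le_pow_sub_one z (-2)
  rw [Ideal.mem_span_singleton] at a
  norm_num at a b
  rw [← a, ← b, show ‖(z : ℚ_[2])‖ = ‖z‖ from rfl]
  norm_num

theorem odd {k z : Z2} (hk : k ≠ 0) (h : k * (1 - 2 * z) = 0) : False :=
  (PadicInt.prime_p (p := 2)).not_dvd_one ⟨z, by
    simpa using sub_eq_zero.1 ((mul_eq_zero.1 h).resolve_left hk)⟩

theorem near {z : Z2} (h : ‖(z : ℚ_[2]) - 1‖ < 1) : ∃ c, z = 1 + 2 * c := by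
  obtain ⟨c, hc⟩ := (BasY.dvd_iff1 (z - 1)).1 (TLATX.red_zero.2 (by simpa using h))
  exact ⟨c, by rw [pow_one] at hc; linear_combination hc⟩

theorem par (z : Z2) : (∃ c, z = 2 * c) ∨ ∃ c, z = 1 + 2 * c := by
  by_cases h : PadicInt.toZMod z = (0 : F2)
  · obtain ⟨c, hc⟩ := (BasY.dvd_iff1 z).1 h
    exact .inl ⟨c, by rwa [pow_one] at hc⟩
  · obtain ⟨c, hc⟩ := (BasY.dvd_iff1 (z - 1)).1 (by rw [map_sub, BasG.one_of_ne h, map_one, sub_self])
    exact .inr ⟨c, by rw [pow_one] at hc; linear_combination hc⟩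

theorem q0 {z : Z2} (h : 8 ∣ z) : q4 z = 0 := if_pos h
theorem q1 {z : Z2} (h : ¬ 8 ∣ z) : q4 z = 1 := if_neg h
theorem q1' {z : Z2} (h : ‖(z : ℚ_[2])‖ = 4⁻¹) : q4 z = 1 := q1 fun e => (eight.1 e).ne h

end MOD8c

open MOD8c R3.BAlpha in
theorem p_MOD8 :
    S_MOD8 := by
  intro T Λ h
  have r01 : ∀ g, 4 ∣ Λ.r g 0 1 := fun g => four (by rw [h]; exact n01 T g)
  have r10 : ∀ g, 4 ∣ Λ.r g 1 0 := fun g => four (by rw [h]; exact n10 T g)
  have r11 : ∀ g, 8 ∣ Λ.r g 1 1 - (1 + 4 * ((qz 5 g).val : Z2)) := fun g => by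
    have a : 8 ∣ Λ.r g 1 1 - 1 ↔ qz 5 g = 0 := by
      rw [eight, ← R3.alpha T (pl_p Nat.prime_two) g, PadicInt.coe_sub, h, PadicInt.coe_one]
    by_cases e : qz 5 g = 0
    · simpa [e] using a.2 e
    obtain ⟨c, hc⟩ : 4 ∣ Λ.r g 1 1 - 1 := four (by
      rw [PadicInt.coe_sub, h, PadicInt.coe_one]; exact n11 T g)
    rcases par c with ⟨k, rfl⟩ | ⟨k, rfl⟩
    · exact absurd (a.1 ⟨k, by linear_combination hc⟩) e
    · rw [BasG.one_of_ne e, ZMod.val_one, Nat.cast_one]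
      exact ⟨k, by linear_combination hc⟩
  have r00 : ∀ g, 8 ∣ Λ.r g 0 0 - cyc g * (1 + 4 * ((qz 5 g).val : Z2)) := fun g => by
    obtain ⟨a, ha⟩ := r11 g
    obtain ⟨b, hb⟩ := r01 g
    obtain ⟨c, hc⟩ := r10 g
    rw [← Λ.det, Matrix.det_fin_two, hb, hc, sub_eq_iff_eq_add.1 ha]
    generalize ((qz 5 g).val : Z2) = v
    exact ⟨2 * b * c * (1 + 4 * v) - Λ.r g 0 0 * (v + 2 * v ^ 2 + a * (1 + 4 * v)), by ring⟩
  have h3 : (pl 3).p = 3 := pl_p (by norm_num)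
  have h5 : (pl 5).p = 5 := pl_p (by norm_num)
  have ht : tp 5 ∈ (pl 5).I := tp_I (by norm_num) (by norm_num)
  have hf := fr_frob (p := 5) (by norm_num) (by norm_num)
  obtain ⟨e, -, -, he, h1, h2, h4⟩ := HA.cf.unip _ T (pl 5) (by rw [h5]; norm_num)
  have hm : ∀ a, ‖e a - 1‖ < 1 := fun a => by
    have := (norm_le_pi_norm (e - ![1, 1]) a).trans_lt (he h5)
    fin_cases a <;> simpa using this
  have hn : ∀ a, ‖e a‖ = 1 := fun a => unit (hm a)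
  refine ⟨r01, r10, r11, r00, ?_, ?_, ?_⟩
  · have ht : tp 3 ∈ (pl 3).I := tp_I (by norm_num) (by norm_num)
    obtain ⟨ε, a, b, c, -⟩ := TSUF3.str HA.cf T h3 (fr_frob (by norm_num) (by norm_num)) ht
      (by rw [h3]; exact tp_mov (by norm_num) (by norm_num))
    refine ⟨q1' (by rw [h, b]), q0 (eight.2 ?_)⟩
    rw [h, (c _ ht).2.1, norm_neg, norm_mul, norm_mul, b]
    nlinarith [norm_nonneg ε]
  · obtain ⟨⟨a₀, b₀, h0⟩, -⟩ := h2 _ ht (by rw [h5]; exact tp_mov (by norm_num) (by norm_num))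
    obtain ⟨s, hA, hz⟩ := shape (h1 _ ht).1 (h1 _ ht).2
    have hs : ‖s 0‖ = ‖s 1‖ := by simpa [hn] using congrArg norm hz
    have hall : ∀ b, ‖s b‖ = ‖s 1‖ := fun b => by
      fin_cases b
      exacts [hs, rfl]
    have k : ∀ a b, ‖(T.rho (tp 5) - 1) a b‖ = 4⁻¹ := fun a b => by
      rw [hA, norm_mul, hn, hall] at h0 ⊢
      exact h0
    exact ⟨q1' (by rw [h]; simpa using k 1 0), q1' (by rw [h]; simpa using k 0 1)⟩
  · have z : qz 5 (fr 5) = 0 := qs_fr_self (p := 5) (by norm_num) (by norm_num)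
    have cy : (cyc (fr 5) : Z2) = 5 := by
      rw [hA.ec.2.2.2.2.2.1 _ 1 _ (by omega) hf, h5]; norm_num
    obtain ⟨a, ha⟩ := r11 (fr 5)
    obtain ⟨b, hb⟩ := r00 (fr 5)
    obtain ⟨c, hc⟩ := r10 (fr 5)
    obtain ⟨d, hd⟩ := r01 (fr 5)
    rw [z, ZMod.val_zero, Nat.cast_zero] at ha hb
    rw [cy] at hb
    obtain ⟨E, hE⟩ : ∃ E : Fin 2 → Z2, ∀ a, (E a : ℚ_[2]) = e a :=
      ⟨fun a => ⟨e a, (hn a).le⟩, fun _ => rfl⟩
    obtain ⟨x, hx⟩ := near (z := E 0) (by rw [hE]; exact hm 0)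
    obtain ⟨y, hy⟩ := near (z := E 1) (by rw [hE]; exact hm 1)
    have row : ∀ (u : ℤ) (i : Fin 2), T.rho (fr 5) *ᵥ e = (u : ℚ_[2]) • e →
        Λ.r (fr 5) i 0 * (1 + 2 * x) + Λ.r (fr 5) i 1 * (1 + 2 * y) = u * E i := fun u i k => by
      have := congrFun k i
      rw [Matrix.mulVec, dotProduct, Fin.sum_univ_two, Pi.smul_apply, smul_eq_mul, ← h, ← h, ← hE,
        ← hE, ← hE] at this
      rw [← hx, ← hy]
      exact Subtype.ext (by exact_mod_cast this)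
    rcases h4 _ hf with k | k
    · have k0 := row 5 0 (by simpa [h5] using k)
      have k1 := row 5 1 (by simpa [h5] using k)
      rw [hx] at k0
      rw [hy] at k1
      push_cast at k0 k1
      refine ⟨q1 fun ⟨c', hc'⟩ => odd (k := 4) (z := c' * (1 + 2 * x) + a * (1 + 2 * y) - y)
        (by norm_num) ?_, q0 ⟨-(b * (1 + 2 * x)) - d * y, ?_⟩⟩
      · linear_combination (1 + 2 * x) * hc' + (1 + 2 * y) * ha - k1
      · linear_combination k0 - (1 + 2 * x) * hb - 2 * y * hd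
    · have k1 := row (-5) 1 (by simpa [h5] using k)
      rw [hy] at k1
      push_cast at k1
      refine (odd (k := 2) (z := -(c * (1 + 2 * x)) - 2 * a * (1 + 2 * y) - 1 - 3 * y)
        (by norm_num) ?_).elim
      linear_combination k1 - (1 + 2 * x) * hc - (1 + 2 * y) * ha

end Pool.Agent.P.MP_8b7eba_nt.SM.Tc
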