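import Pool.Agent.P.MP_8b7eba_nt.TC.Iface

/-! Step PT. -/

set_option autoImplicit false

namespace Pool.Agent.P.MP_8b7eba_nt.SM.Tc

open Finset R2 X
open scoped Matrix

open QT.PP in
theorem p_PT :
    S_PT := by
  intro S L m hS hL hm h
  have := hh_fin hS
  have k : ∀ p ∈ S ∪ T30, ∀ α ∈ L p, ∀ β, (∀ g ∈ (pl p).D, β g = α g) → β ∈ L p :=
    fun p hp α a β e => by
      rw [← sub_add_cancel β α]
      exact add_mem ((hL p hp).2 _ fun g hg => by rw [Pi.sub_apply, e g hg, sub_self]) a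
  let U : (p : Ix S) → Submodule F2 (Hc p) := fun p => (L p).comap (Hc p).subtype
  let M : HH S := fun p => rc p (hm p p.2)
  have hM : M ∈ GG S False ⊔ Submodule.pi Set.univ U := by
    rw [← (BB S).orthogonal_orthogonal bb_nd (fun x y e => by rw [bb_sy, e]) (_ ⊔ _), CG.PA.orth_sup,
      (gg_dual hS).2.1, orth_pi]
    rintro n ⟨⟨χ, a, b, -⟩, c⟩
    change BB S n M = 0
    rw [bb_sy, bb_eq,
      sum_congr rfl fun (p : Ix S) _ => bp_of (fun g hg => rc_of (hm p p.2) hg) (b p),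
      sum_coe_sort (S ∪ T30) fun p => iv p (QT.cu (m p) χ)]
    refine h χ ⟨a.1, a.2, fun p hp β e => ?_⟩
    have e' := (hL p hp).1 β e
    exact (bp_of (fun g hg => rc_of e' hg) (b ⟨p, hp⟩)).symm.trans
      (c ⟨p, hp⟩ trivial (rc p e') (k p hp β e _ fun g hg => rc_of e' hg))
  obtain ⟨w, ⟨χ, a, b, c⟩, u, d, e⟩ := Submodule.mem_sup.1 hM
  refine ⟨χ, a.1, a.2, c.resolve_left id, fun p hp => k p hp _ (d ⟨p, hp⟩ trivial) _ fun g hg => ?_⟩
  have e1 : (w ⟨p, hp⟩).1 g + (u ⟨p, hp⟩).1 g = (M ⟨p, hp⟩).1 g := by rw [← e]; rfl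
  rw [rc_of (hm p hp) hg, b ⟨p, hp⟩ g hg] at e1
  rw [Pi.add_apply, ← e1, ← add_assoc, CharTwo.add_self_eq_zero, zero_add]
  rfl

end Pool.Agent.P.MP_8b7eba_nt.SM.Tc
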