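import Pool.Agent.P.MP_8b7eba_nt.TC.Iface

/-! Step RAD. -/

set_option autoImplicit false

namespace Pool.Agent.P.MP_8b7eba_nt.SM.Tc

open Finset R2 X
open scoped Matrix

namespace RADc

variable {Λ : Lat} {S : Finset ℕ} {l : ℕ} {x : GQ → VZ}

theorem mem (hS : ∀ p ∈ S, Gp p) (h : Spl S l) (hx : Λ.Wn (insert l S) 1 x) (h0 : x (tp l) = 0) :
    (fun g => rd (x g)) ∈ XX Λ S := by
  have se := Lat.Wn.se (n := 0) (gp_insert hS h) hx
  have z : rd (x (tp l)) = 0 := rd_eq_zero.2 (h0 ▸ dv_zero)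
  have hu : Un S fun g => rd (x g) := fun w a b g hg => by
    by_cases e : w.p = l
    · exact ch_unr_top (e ▸ h.gp.ne.1) se.ch (e ▸ z) hg
    · exact se.unr w a (fun c => (mem_insert.1 c).elim e b) g hg
  refine ⟨se.ch, hu, ?_, fun p hp => ?_⟩
  · refine (h.ch_eq hS se.ch hu).symm.trans ?_
    have := se.loc l (mem_insert_self _ _)
    simpa only [z, Matrix.mulVec_zero, smul_zero, add_zero] using this
  · exact LL.congr_chi (LL.of_lc (n := 0) (hx.loc p (insert_union' S l ▸ mem_insert_of_mem hp)))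
      fun g hg => (chi_D hS h hp hg).symm

theorem pr (hx : Λ.Wn (insert l S) 2 x) (u : X2) : Pr Λ S l (fun g => rd (x g)) u 0 := by
  refine ⟨x, fun _ => 0, hx.toGy, fun _ => rfl, fun p hp => ⟨⟨Sm.const 0, fun _ _ _ _ =>
    (add_zero _).symm⟩, ?_⟩, (sum_eq_zero fun p _ => BasN.zero fun g _ k _ => by simp [d2]).symm⟩
  have e : lf 0 = 0 := by funext i; simp [lf]
  simpa only [Pi.zero_apply, e, smul_zero, sub_zero] using
    hx.loc p (insert_union' S l ▸ mem_insert_of_mem hp)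

end RADc

theorem p_RAD :
    S_RAD := by
  rintro Λ S l F hS h hF hR ⟨x, y, hW, hx, hy, hi⟩
  have a := RADc.mem hS h (hW 1).1 hx
  have b := RADc.mem hS h (hW 1).2 hy
  rcases hR ⟨_, a⟩ ⟨_, b⟩ (fun z => ((hF ⟨_, a⟩ z 0).1 (RADc.pr (hW 2).1 z)).symm)
    (fun z => ((hF ⟨_, b⟩ z 0).1 (RADc.pr (hW 2).2 z)).symm) with e | e | e
  · have e' : ∀ g, rd (x g) = 0 := congrFun (congrArg Subtype.val e)
    exact one_ne_zero (hi 1 0 fun g => by rw [e', smul_zero, zero_smul, add_zero]).1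
  · have e' : ∀ g, rd (y g) = 0 := congrFun (congrArg Subtype.val e)
    exact one_ne_zero (hi 0 1 fun g => by rw [e', smul_zero, zero_smul, add_zero]).2
  · have e' : ∀ g, rd (x g) = rd (y g) := congrFun (congrArg Subtype.val e)
    exact one_ne_zero (hi 1 1 fun g => by
      rw [e', ← add_smul, CharTwo.add_self_eq_zero, zero_smul]).1

end Pool.Agent.P.MP_8b7eba_nt.SM.Tc
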