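import Pool.Agent.P.MP_8b7eba_nt.TC.Iface

/-! Step RHO. -/

set_option autoImplicit false

namespace Pool.Agent.P.MP_8b7eba_nt.SM.Tc

open Finset R2 X
open scoped Matrix

namespace RHOc

theorem q4_four (z : Z2) : q4 (4 * z) = PadicInt.toZMod z := by
  have h : (8 : Z2) ∣ 4 * z ↔ PadicInt.toZMod z = 0 := by
    rw [BasY.dvd_iff1, pow_one, show (8 : Z2) = 4 * 2 by norm_num]
    exact mul_dvd_mul_iff_left (by norm_num)
  unfold q4
  split_ifs with e
  · exact (h.1 e).symm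
  · exact (BasG.one_of_ne fun e' => e (h.2 e')).symm

theorem q4_congr {a b : Z2} (h : PadicInt.toZModPow 3 a = PadicInt.toZModPow 3 b) :
    q4 a = q4 b := by
  have e : ∀ z : Z2, (8 : Z2) ∣ z ↔ PadicInt.toZModPow 3 z = 0 := fun z => by
    rw [BasY.dvd_iff, show (2 : Z2) ^ 3 = 8 by norm_num]
  unfold q4
  rw [e, e, h]

theorem diag (Λ : Lat) (g : GQ) (i : Fin 2) : PadicInt.toZMod (Λ.r g i i) = (1 : F2) := by
  rw [Λ.hc g, Matrix.add_apply, Matrix.one_apply_eq, Matrix.smul_apply, smul_eq_mul, map_add,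
    map_mul, BasY.toZMod_two, zero_mul, add_zero, map_one]

theorem ch {Λ : Lat} (h : M8 Λ) : IsCh ⊤ fun g => q4 (Λ.r g 0 1) := by
  refine ⟨?_, fun g _ k _ => ?_⟩
  · obtain ⟨N, a, b⟩ := Λ.sm 3
    exact ⟨N, a, fun g hg n hn m => q4_congr (congrFun (congrFun (b g hg n hn m) 0) 1)⟩
  · obtain ⟨a, ha⟩ := h.r01 g
    obtain ⟨b, hb⟩ := h.r01 k
    have e : Λ.r (g * k) 0 1 = 4 * (Λ.r g 0 0 * b + a * Λ.r k 1 1) := by
      rw [map_mul, Matrix.mul_apply, Fin.sum_univ_two, ha, hb]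
      ring
    beta_reduce
    rw [e, ha, hb, q4_four, q4_four, q4_four, map_add, map_mul, map_mul, diag, diag, one_mul,
      mul_one, add_comm]

theorem tp0 {p : ℕ} {m : ℤ} (hp : p.Prime) (h2 : p ≠ 2) (h : ¬ (p : ℤ) ∣ 2 * m) :
    qz m (tp p) = 0 :=
  qz_I hA (w := pl p) (by rwa [pl_p hp]) (tp_I hp h2)

end RHOc

theorem p_RHO :
    S_RHO := by
  intro Λ h
  obtain ⟨c, hc⟩ := chars (S := ∅) (by simp) (RHOc.ch h) fun w hw _ g hg => by
    rw [Λ.unr w hw g hg, Matrix.one_apply_ne (by decide), ← mul_zero (4 : Z2), RHOc.q4_four,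
      map_zero]
  have hc' : ∀ g, q4 (Λ.r g 0 1) =
      qz (-1) g * c 0 + qz 2 g * c 1 + qz (-3) g * c 2 + qz 5 g * c 3 := fun g => by
    rw [hc g, sum_empty, add_zero, Fin.sum_univ_four]
    rfl
  have p3 : Nat.Prime 3 := Nat.prime_three
  have p5 : Nat.Prime 5 := Nat.prime_five
  have a3 : qz (-3) (tp 3) = 1 := qs_tp_self p3 (by decide)
  have a5 : qz 5 (tp 5) = 1 := qs_tp_self p5 (by decide)
  have b5 : qz 5 (fr 5) = 0 := qs_fr_self p5 (by decide)
  have h2 : c 2 = 0 := by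
    have := hc' (tp 3)
    rw [h.t3.2, a3, RHOc.tp0 p3 (by decide) (by decide), RHOc.tp0 p3 (by decide) (by decide),
      RHOc.tp0 p3 (by decide) (by decide)] at this
    simpa using this.symm
  have h3 : c 3 = 1 := by
    have := hc' (tp 5)
    rw [h.t5.2, a5, RHOc.tp0 p5 (by decide) (by decide), RHOc.tp0 p5 (by decide) (by decide),
      RHOc.tp0 p5 (by decide) (by decide)] at this
    simpa using this.symm
  have h1 : c 1 = 0 := by
    have := hc' (fr 5)
    have j1 : js (-1) 5 = 0 := by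
      unfold js
      rw [if_pos (by norm_num)]
    have j2 : js 2 5 = 1 := by
      unfold js
      rw [if_neg (by norm_num)]
    rw [h.f5.2, b5, h2, qz_fr p5 (a := -1) (by decide), qz_fr p5 (a := 2) (by decide), j1,
      j2] at this
    simpa using this.symm
  refine ⟨c 0, fun g => ?_⟩
  rw [hc' g, h1, h2, h3]
  ring

end Pool.Agent.P.MP_8b7eba_nt.SM.Tc
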