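import Pool.Agent.P.MP_8b7eba_nt.TC.Iface

/-! Step SHL. -/

set_option autoImplicit false

namespace Pool.Agent.P.MP_8b7eba_nt.SM.Tc

open Finset R2 X
open scoped Matrix

namespace SHLc

theorem sh {Λ Λ' : Lat} {j : Fin 2} (h : Λ.Sh Λ' j) : Λ'.Sh Λ (j + 1) := fun g => by
  have e : ∀ u : VZ, dg2 (j + 1) *ᵥ (dg2 j *ᵥ u) = (2 : Z2) • u := fun u => by
    have := TSHW.dd (j + 1) u
    rwa [(by decide : ∀ j : Fin 2, j + 1 + 1 = j) j] at this
  refine BasY.smul_cancel (Matrix.ext_iff_mulVec.2 fun u => ?_)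
  have := congrArg (fun B : MZ => dg2 (j + 1) *ᵥ (B *ᵥ (dg2 (j + 1) *ᵥ u))) (h g)
  simp only [← Matrix.mulVec_mulVec, e, TSHW.dd, Matrix.mulVec_smul] at this
  simp only [Matrix.smul_mulVec, ← Matrix.mulVec_mulVec, this]

theorem rd_dg (j : Fin 2) (u : VZ) : rd (dg2 j *ᵥ u) = Pi.single (j + 1) (rd u (j + 1)) := by
  funext i
  rw [rd, TSHW.app]
  fin_cases j <;> fin_cases i <;> simp [rd, BasY.toZMod_two]

theorem dg_lf (j : Fin 2) (a : F2) :
    dg2 j *ᵥ lf (Pi.single (j + 1) a) = lf (Pi.single (j + 1) a) := by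
  funext i
  rw [TSHW.app]
  fin_cases j <;> fin_cases i <;> simp [lf]

end SHLc

open SHLc in
theorem p_SHL :
    S_SHL := by
  intro Λ Λ' j ψ p h
  refine ⟨sh h, fun φ hφ => ?_, fun α hα => ?_⟩
  · have h1 : Λ'.Lc (p = 2) ψ (pl p).D (1 + 1) fun g => (2 : Z2) ^ 1 • lf (φ g) :=
      (Lat.lc_pow fun _ _ => rfl).2 (mem_LL.1 hφ)
    have h2 := TSHW.lc (sh h) (x' := fun g => dg2 j *ᵥ lf (φ g)) (fun g => by
      have := TSHW.dd (j + 1) (lf (φ g))
      rw [(by decide : ∀ j : Fin 2, j + 1 + 1 = j) j] at this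
      rw [this, pow_one]) h1
    exact LL.congr (LL.of_lc (n := 0) h2) fun g _ => by rw [rd_dg, rd_lf, ax_apply]
  · obtain ⟨b, hb, hxb⟩ := mem_LL.1 (mem_Lj.1 hα)
    choose! w hw using fun g hg => dv_iff.1 (hxb g hg)
    have h1 : Λ.Lc (p = 2) ψ (pl p).D (1 + 1)
        fun g => dg2 j *ᵥ (lf (ax (j + 1) α g) - dg2 (j + 1) *ᵥ w g) :=
      (hb.lc _).congr fun g hg => by
        rw [Matrix.mulVec_sub, TSHW.dd, ax_apply, dg_lf, ← ax_apply, sub_right_comm, hw g hg,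
          pow_one, sub_self]
        exact dv_zero
    have h2 := LL.of_lc (n := 0) (TSHW.lc h (fun _ => rfl) h1)
    refine ⟨fun g => rd (lf (ax (j + 1) α g) - dg2 (j + 1) *ᵥ w g) j, LL.congr h2 fun g _ => ?_⟩
    have e : rd (lf (ax (j + 1) α g) - dg2 (j + 1) *ᵥ w g) (j + 1) = α g := by
      rw [rd_sub, rd_lf, rd_dg, Pi.add_apply, ax_same,
        Pi.single_eq_of_ne ((by decide : ∀ j : Fin 2, j + 1 ≠ j + 1 + 1) j), add_zero]
    rw [← congrFun (ax_add_ax (fun g => rd (lf (ax (j + 1) α g) - dg2 (j + 1) *ᵥ w g)) j) g,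
      Pi.add_apply, Pi.add_apply, add_comm, ax_apply (j + 1), ax_apply (j + 1), ← ax_apply, e]
    rfl

end Pool.Agent.P.MP_8b7eba_nt.SM.Tc
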