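import Pool.Agent.P.MP_8b7eba_nt.TC.Iface

/-! Step SYM. -/

set_option autoImplicit false

namespace Pool.Agent.P.MP_8b7eba_nt.SM.Tc

open Finset R2 X
open scoped Matrix

namespace SYMc

open BasW

theorem wp_add_r (Λ : Lat) (ψ : GQ → F2) (n : ℕ) (x y y' : GQ → VZ) :
    Λ.wp ψ n x (fun g => y g + y' g) = Λ.wp ψ n x y * Λ.wp ψ n x y' := by
  funext g h
  simp only [Pi.mul_apply, Lat.wp_eq]
  rw [Matrix.mulVec_add, dz_add_r, en_add]

theorem wp_pow_r (Λ : Lat) (ψ : GQ → F2) (n : ℕ) (x : GQ → VZ) (l : X2) :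
    Λ.wp ψ (n + 1) x (fun g => (2 : Z2) ^ n • lf (l g)) = sgn (d2 (fun g => rd (x g)) l) := by
  funext g h
  rw [Lat.wp_eq, Matrix.mulVec_smul, dz_smul_r, add_comm n 1, en_shift, en_half, sgn]
  congr 2
  have h2 := congrFun ((Λ.rd_rt ψ g (lf (l h))).trans (rd_lf _))
  simp only [rd] at h2
  rw [dz, map_sub, map_mul, map_mul, h2, h2, d2, CharTwo.sub_eq_add]
  rfl

theorem loc {Λ : Lat} {S : Finset ℕ} {p : ℕ} {y y' : GQ → VZ} {m m' : X2}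
    (hy : Λ.Zn (chi S) ⊤ 2 y) (hy' : Λ.Zn (chi S) ⊤ 2 y') (h : Λ.Ld S 1 y p m)
    (h' : Λ.Ld S 1 y' p m') : nv (pl p) (pl p).D (Λ.wp (chi S) 2 y y') =
      (-1) ^ (iv p (d2 m fun g => rd (y' g)) + iv p (d2 m' fun g => rd (y g))).val := by
  have c1 := (hy.mono (le_top (a := (pl p).D)) le_rfl).isCh
  have z2 := hy'.mono (le_top (a := (pl p).D)) le_rfl
  have h3 := Lat.wp_iso (isCh_chi S) (fun a => by rw [a]) h.2 h'.2
  have h4 := co2_d2 h.1 z2.isCh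
  have h5 := co2_d2 c1 h'.1
  have e1 := Λ.wp_add (chi S) (1 + 1) (fun g => y g - (2 : Z2) ^ 1 • lf (m g))
    (fun g => (2 : Z2) ^ 1 • lf (m g)) y'
  have e2 := wp_add_r Λ (chi S) (1 + 1) (fun g => y g - (2 : Z2) ^ 1 • lf (m g))
    (fun g => y' g - (2 : Z2) ^ 1 • lf (m' g)) fun g => (2 : Z2) ^ 1 • lf (m' g)
  have e3 : (fun g => rd (y g - (2 : Z2) ^ 1 • lf (m g))) = fun g => rd (y g) :=
    funext fun g => rd_eq.2 (by rw [sub_sub_cancel_left]; exact (dv_iff.2 ⟨_, rfl⟩).neg)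
  simp only [sub_add_cancel] at e1 e2
  rw [wp_pow_r, e3] at e2
  rw [Lat.wp_pow] at e1
  rw [e1, (hA.inv _ _ (pl p).loc_D).mul _ _ (Lat.wp_co (isCh_chi S) h.2.zn z2) h4.sgnT, e2,
    (hA.inv _ _ (pl p).loc_D).mul _ _ h3.co2T h5.sgnT,
    (hA.inv _ _ (pl p).loc_D).triv _ h3.co2 h3, one_mul, nv_iv h4, nv_iv h5,
    iv_d2_swap c1 h'.1, LC.e_add, mul_comm]

end SYMc

theorem p_SYM :
    S_SYM := by
  rintro Λ S l φ u c c' hS hl hφ hu ⟨y, m, hy, e, hm, rfl⟩ ⟨y', m', hy', e', hm', rfl⟩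
  have hS' := gp_insert hS hl
  have h := recp (S := insert l S ∪ T30) (f := Λ.wp (chi (insert l S)) 2 y y')
    (fun p hp => prime_of hS' hp) (Lat.wp_co (isCh_chi _) hy.zn hy'.zn)
    (Lat.wp_iso (isCh_chi _) False.elim hy.inf hy'.inf) fun w hw => ?_
  · have t : Triv (pl l).D (Λ.wp (chi (insert l S)) 2 y y') := Triv.one.congr fun g hg k hk => by
      obtain ⟨a, ha⟩ := dv_iff.1 (rd_eq_zero.1
        ((e g).trans (zero_D hS hl hφ.1 hφ.2.1 hφ.2.2.1 hg)))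
      obtain ⟨b, hb⟩ := dv_iff.1 (rd_eq_zero.1
        ((e' k).trans (zero_D hS hl hu.1 hu.2.1 hu.2.2.1 hk)))
      rw [Lat.wp_eq, ha, hb, Matrix.mulVec_smul, BasW.dz_smul_l, BasW.dz_smul_r, ← mul_assoc,
        ← pow_add]
      exact BasW.en_one (dvd_mul_right _ _)
    rw [insert_union', prod_insert (not_mem hl), (hA.inv _ _ (pl l).loc_D).triv _ t.co2 t, one_mul,
      prod_congr rfl fun p hp => SYMc.loc hy.zn hy'.zn (hm p hp) (hm' p hp), ← BasN.e_sum,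
      funext e, funext e', sum_add_distrib] at h
    exact (CharTwo.add_eq_zero.1 (LC.e_inj.1 (h.trans (by simp))))
  · have h1 : w.p ∉ insert l S := fun a => hw (mem_union_left _ a)
    have h2 : ¬ w.p ∣ 30 := fun a => hw (mem_union_right _ (mem_T30.2 ⟨w.prime, a⟩))
    exact Lat.wp_unr h2 (isCh_chi _) (fun g hg => chi_I hS' h1 hg) (hy.zn.mono le_top le_rfl)
      (hy'.zn.mono le_top le_rfl) fun g hg => ⟨hy.unr w h2 h1 g hg, hy'.unr w h2 h1 g hg⟩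

end Pool.Agent.P.MP_8b7eba_nt.SM.Tc
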