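import Pool.Agent.P.MP_8b7eba_nt.TC.Iface

/-! Step TORS. -/

set_option autoImplicit false

namespace Pool.Agent.P.MP_8b7eba_nt.SM.Tc

open Finset R2 X
open scoped Matrix

namespace TORSc

theorem par (k : Z2) : 2 ∣ k ∨ 2 ∣ k - 1 := by
  rcases (by decide : ∀ a : F2, a = 0 ∨ a = 1) (PadicInt.toZMod k) with h | h
  · exact Or.inl (by simpa using (BasY.dvd_iff1 k).1 h)
  · refine Or.inr ?_
    have := (BasY.dvd_iff1 (k - 1)).1 (by rw [map_sub, h, map_one, sub_self])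
    simpa using this

theorem q4s {z : Z2} (h : 4 ∣ z) : 8 ∣ z - 4 * ((q4 z).val : Z2) := by
  unfold q4
  split_ifs with h8
  · simpa using h8
  · obtain ⟨k, rfl⟩ := h
    rcases par k with ⟨m, hm⟩ | ⟨m, hm⟩
    · exact absurd ⟨m, by rw [hm]; ring⟩ h8
    · refine ⟨m, ?_⟩
      rw [ZMod.val_one, Nat.cast_one]
      linear_combination 4 * hm

theorem mem {Λ : Lat} {ψ : GQ → F2} {p : ℕ} (hψ : IsCh (pl p).D ψ) (e : ℕ) (v : VZ) {φ : X2}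
    (h : ∀ g ∈ (pl p).D, ∀ i, 2 ^ e * 2 ∣ Λ.bd ψ v g i - 2 ^ e * ((φ g i).val : Z2)) :
    φ ∈ LL Λ ψ p := by
  choose! k hk using h
  have hb : ∀ g ∈ (pl p).D, Λ.bd ψ v g = (2 : Z2) ^ e • (lf (φ g) + (2 : Z2) • k g) :=
    fun g hg => funext fun i => by
      simp only [Pi.smul_apply, Pi.add_apply, smul_eq_mul, lf]
      linear_combination hk g hg i
  refine ⟨fun g => lf (φ g) + (2 : Z2) • k g, ⟨fun n => (Lat.zn_pow hb).1 (Lat.zn_bd hψ v), e, v,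
    fun g hg => ?_⟩, fun g _ i => ⟨-k g i, by simp⟩⟩
  rw [hb g hg]
  exact ⟨rfl, fun _ => rfl⟩

theorem b00 (Λ : Lat) (ψ : GQ → F2) (g : GQ) :
    Λ.bd ψ ![1, 0] g 0 = sg (ψ g) * Λ.r g 0 0 - 1 := by
  simp [Lat.bd, Lat.rt]

theorem b01 (Λ : Lat) (ψ : GQ → F2) (g : GQ) :
    Λ.bd ψ ![1, 0] g 1 = sg (ψ g) * Λ.r g 1 0 := by
  simp [Lat.bd, Lat.rt]

theorem b10 (Λ : Lat) (ψ : GQ → F2) (g : GQ) :
    Λ.bd ψ ![0, 1] g 0 = sg (ψ g) * Λ.r g 0 1 := by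
  simp [Lat.bd, Lat.rt]

theorem b11 (Λ : Lat) (ψ : GQ → F2) (g : GQ) :
    Λ.bd ψ ![0, 1] g 1 = sg (ψ g) * Λ.r g 1 1 - 1 := by
  simp [Lat.bd, Lat.rt]

theorem r00 {Λ : Lat} (h : M8 Λ) (g : GQ) :
    4 ∣ Λ.r g 0 0 - 1 - 2 * ((qz (-1) g).val : Z2) := by
  obtain ⟨k, hk⟩ := h.r00 g
  have hc : Λ.r g 0 0 = 1 + 2 * Λ.c g 0 0 := by
    rw [Λ.hc g]
    simp
  have hq := qz_neg_one (g := g) hA.ec
  rcases (by decide : ∀ a : F2, a = 0 ∨ a = 1) (qz (-1) g) with e | e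
  · obtain ⟨m, hm⟩ := hq.1 e
    refine ⟨m + 2 * k + cyc g * ((qz 5 g).val : Z2), ?_⟩
    rw [e, ZMod.val_zero, Nat.cast_zero]
    linear_combination hk + hm
  · rcases par (Λ.c g 0 0) with ⟨m, hm⟩ | ⟨m, hm⟩
    · have : qz (-1) g = 0 := hq.2 ⟨m - 2 * k - cyc g * ((qz 5 g).val : Z2), by
        linear_combination hc - hk + 2 * hm⟩
      rw [e] at this
      exact absurd this one_ne_zero
    · refine ⟨m, ?_⟩
      rw [e, ZMod.val_one, Nat.cast_one]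
      linear_combination hc + 2 * hm

theorem t00 {Λ : Lat} (h : M8 Λ) (a : F2) (g : GQ) :
    4 ∣ sg a * Λ.r g 0 0 - 1 - 2 * ((qz (-1) g + a).val : Z2) := by
  obtain ⟨k, hk⟩ := r00 h g
  have e2 : ((1 : F2) + 1).val = 0 := by decide
  rw [sg_eq]
  rcases (by decide : ∀ a : F2, a = 0 ∨ a = 1) (qz (-1) g) with e | e <;>
    rcases (by decide : ∀ a : F2, a = 0 ∨ a = 1) a with rfl | rfl <;>
    rw [e] at hk ⊢ <;>
    simp only [zero_add, add_zero, ZMod.val_zero, ZMod.val_one, Nat.cast_zero, Nat.cast_one, e2]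
      at hk ⊢
  · exact ⟨k, by linear_combination hk⟩
  · exact ⟨-k - 1, by linear_combination -hk⟩
  · exact ⟨k, by linear_combination hk⟩
  · exact ⟨-k - 1, by linear_combination -hk⟩

end TORSc

open TORSc in
theorem p_TORS :
    S_TORS := by
  intro Λ ψ p h hψ
  have n4 : (2 : Z2) ^ 1 * 2 = 4 := by norm_num
  have n8 : (2 : Z2) ^ 2 * 2 = 8 := by norm_num
  have n2 : (2 : Z2) ^ 2 = 4 := by norm_num
  refine ⟨mem hψ 1 ![1, 0] fun g _ => Fin.forall_fin_two.2 ⟨?_, ?_⟩,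
    mem hψ 1 ![0, 1] fun g _ => Fin.forall_fin_two.2 ⟨?_, ?_⟩,
    fun e => mem hψ 2 ![0, 1] fun g hg => Fin.forall_fin_two.2 ⟨?_, ?_⟩,
    fun e => mem hψ 2 ![1, 0] fun g hg => Fin.forall_fin_two.2 ⟨?_, ?_⟩⟩
  · rw [b00, ax_same, n4, pow_one]
    exact t00 h _ g
  · rw [b01, n4]
    simpa [ax_apply] using (h.r10 g).mul_left _
  · rw [b10, n4]
    simpa [ax_apply] using (h.r01 g).mul_left _
  · obtain ⟨k, hk⟩ := h.r11 g
    rw [b11, ax_same, n4, pow_one, sg_eq]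
    exact ⟨(1 - 2 * ((ψ g).val : Z2)) * (2 * k + ((qz 5 g).val : Z2)) - ((ψ g).val : Z2), by
      linear_combination (1 - 2 * ((ψ g).val : Z2)) * hk⟩
  · rw [b10, n8, n2, e g hg, BasY.sg_zero, one_mul]
    simpa [ax_apply] using q4s (h.r01 g)
  · rw [b11, n8, n2, e g hg, BasY.sg_zero, one_mul, sub_sub]
    simpa [ax_apply] using h.r11 g
  · have h1 := t00 h (ψ g) g
    rw [← e g hg, CharTwo.add_self_eq_zero, ZMod.val_zero, Nat.cast_zero, mul_zero, sub_zero] at h1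
    rw [b00, n8, n2]
    simpa [ax_apply, Lat.rt] using q4s h1
  · obtain ⟨k, hk⟩ := h.r10 g
    obtain ⟨m, hm⟩ := q4s (h.r10 g)
    have e1 : (ax 0 (fun g => q4 (Λ.rt ψ g 0 0 - 1)) + ax 1 fun g => q4 (Λ.r g 1 0)) g 1 =
        q4 (Λ.r g 1 0) := by simp [ax_apply]
    rw [b01, n8, n2, e1, sg_eq]
    exact ⟨m - ((ψ g).val : Z2) * k, by linear_combination hm - 2 * ((ψ g).val : Z2) * hk⟩

end Pool.Agent.P.MP_8b7eba_nt.SM.Tc
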