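import Pool.Agent.P.MP_8b7eba_nt.TC.Iface

/-! Step TWO. -/

set_option autoImplicit false

namespace Pool.Agent.P.MP_8b7eba_nt.SM.Tc

open Finset R2 X
open scoped Matrix

namespace TWOc

theorem indep {x y : GQ → VZ}
    (h : ∀ a c : F2, (∀ g, a • rd (x g) + c • rd (y g) = 0) → a = 0 ∧ c = 0) (a c : Z2)
    (e : ∀ g, a • x g + c • y g = 0) : a = 0 ∧ c = 0 := by
  have key : ∀ (n : ℕ) (a c : Z2), (∀ g, a • x g + c • y g = 0) → 2 ^ n ∣ a ∧ 2 ^ n ∣ c := by
    intro n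
    induction n with
    | zero => exact fun a c _ => ⟨by simp, by simp⟩
    | succ n ih =>
      intro a c e
      obtain ⟨h1, h2⟩ := h (PadicInt.toZMod a) (PadicInt.toZMod c) fun g => by
        rw [← rd_smul, ← rd_smul, ← rd_add, e g]
        exact rd_eq_zero.2 dv_zero
      obtain ⟨a', rfl⟩ := (BasY.dvd_iff1 a).1 h1
      obtain ⟨c', rfl⟩ := (BasY.dvd_iff1 c).1 h2
      obtain ⟨k1, k2⟩ := ih a' c' fun g => by
        have := e g
        rw [pow_one, mul_smul, mul_smul, ← smul_add] at this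
        exact (smul_eq_zero.1 this).resolve_left BasY.two_ne
      rw [pow_succ', pow_one]
      exact ⟨mul_dvd_mul_left _ k1, mul_dvd_mul_left _ k2⟩
  have z : ∀ a : Z2, (∀ n : ℕ, 2 ^ n ∣ a) → a = 0 := fun a ha =>
    PadicInt.ext_of_toZModPow.1 fun n => by rw [map_zero]; exact (BasY.dvd_iff n a).2 (ha n)
  exact ⟨z a fun n => (key n a c e).1, z c fun n => (key n a c e).2⟩

end TWOc

theorem p_TWO :
    S_TWO := by
  rintro Λ Λ' j S l hs ⟨x, y, hW, hx, hy, hi⟩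
  have w : ∀ z : GQ → VZ, (∀ n, Λ.Wn (insert l S) n z) →
      ∀ n, Λ'.Wn (insert l S) n fun g => dg2 (j + 1) *ᵥ z g := fun z hz n =>
    a_SHW Λ Λ' j _ n ((2 : Z2) • z) _ hs (fun g => (TSHW.dd j (z g)).symm) ((hz _).smul 2)
  have wX := w x fun n => (hW n).1
  have wY := w y fun n => (hW n).2
  let A : Submodule Z2 (GQ → VZ) :=
    { carrier := {f | (∀ n, Λ'.Wn (insert l S) n f) ∧ f (tp l) = 0}
      add_mem' := fun ha hb => ⟨fun j => (ha.1 j).add (hb.1 j), by simp [ha.2, hb.2]⟩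
      zero_mem' := ⟨fun j => ((wX j).smul 0).congr fun g => by simpa using dv_zero, rfl⟩
      smul_mem' := fun c f hf => ⟨fun j => (hf.1 j).smul c, by simp [hf.2]⟩ }
  have hsat : ∀ f, (2 : Z2) • f ∈ A → f ∈ A := fun f hf =>
    ⟨fun j => (Lat.wn_pow (j := 1) (x := (2 : Z2) • f) fun g => by simp).1 (hf.1 _),
      (smul_eq_zero.1 hf.2).resolve_left two_ne_zero⟩
  obtain ⟨x', hx', y', hy', h⟩ := a_SAT GQ A hsat _ ⟨wX, by simp [hx]⟩ _ ⟨wY, by simp [hy]⟩
    fun a c e => TWOc.indep hi a c fun g => by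
      have h1 : a • (dg2 (j + 1) *ᵥ x g) + c • (dg2 (j + 1) *ᵥ y g) = 0 := congrFun e g
      have h2 := congrArg (dg2 j *ᵥ ·) h1
      simp only [Matrix.mulVec_add, Matrix.mulVec_smul, TSHW.dd, Matrix.mulVec_zero] at h2
      rw [smul_comm a, smul_comm c, ← smul_add] at h2
      exact (smul_eq_zero.1 h2).resolve_left BasY.two_ne
  exact ⟨x', y', fun j => ⟨hx'.1 j, hy'.1 j⟩, hx'.2, hy'.2, h⟩

end Pool.Agent.P.MP_8b7eba_nt.SM.Tc
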