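import Pool.Agent.P.MP_8b7eba_nt.TC.Iface

/-! Step VAR. -/

set_option autoImplicit false

namespace Pool.Agent.P.MP_8b7eba_nt.SM.Tc

open Finset R2 X
open scoped Matrix

namespace VARc

theorem eta {Λ : Lat} {ψ ψ' : GQ → F2} {y y' e : GQ → VZ} {φ : X2} (hy : Λ.Zn ψ ⊤ 2 y)
    (hy' : Λ.Zn ψ' ⊤ 2 y') (h : ∀ g, rd (y g) = φ g) (h' : ∀ g, rd (y' g) = φ g)
    (he : ∀ g, y g - y' g = (2 : Z2) ^ 1 • e g) : Sm ⊤ (fun g => rd (e g)) ∧
      ∀ g k, rd (e (g * k)) = rd (e g) + rd (e k) + (ψ g + ψ' g) • φ k := by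
  obtain ⟨⟨N, a, b⟩, c⟩ := BasZ.zn_iff.1 hy
  obtain ⟨⟨N', a', b'⟩, c'⟩ := BasZ.zn_iff.1 hy'
  refine ⟨⟨_, a.inf a', fun g hg k hk m => TGLIFT.rd_of (n := 1) ?_⟩, fun g k => ?_⟩
  · rw [← he, ← he]
    exact BasZ.of_eq ((b g hg k hk m.1).sub (b' g hg k hk m.2)) (by abel)
  · have h1 : Dv (1 + 1) ((2 : Z2) ^ 1 • e (g * k) - (2 : Z2) ^ 1 • (e g + e k +
        (Λ.hh (ψ g) g *ᵥ y k - Λ.hh (ψ' g) g *ᵥ y' k))) := by
      refine BasZ.of_eq ((c g trivial k trivial).sub (c' g trivial k trivial)) ?_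
      rw [smul_add, smul_add, ← he, ← he, ← he, Λ.rt_eq, Λ.rt_eq, Matrix.add_mulVec,
        Matrix.add_mulVec, Matrix.one_mulVec, Matrix.one_mulVec, Matrix.smul_mulVec,
        Matrix.smul_mulVec, pow_one, smul_sub]
      abel
    rw [TGLIFT.rd_of h1, rd_add, rd_add, rd_sub, Lat.rd_hh, Lat.rd_hh, h, h', add_smul]
    congr 1
    rw [add_add_add_comm, TGLIFT.two, zero_add]

theorem at_l {S : Finset ℕ} {l : ℕ} {η φ u : X2} {la θ : GQ → F2} (hS : ∀ p ∈ S, Gp p)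
    (hl : Spl S l) (hu : IsCh ⊤ u) (h1 : Un S u) (h2 : u tau = 0) (hla : IsCh ⊤ la)
    (ht : la (tp l) = 1) (hθ : Bd ⊤ (d2 φ u) θ) (h3 : Un S θ) :
    iv l (d2 η u + cu la θ) = θ (fr l) := by
  have z : ∀ g ∈ (pl l).D, u g = 0 := fun g hg => zero_D hS hl hu h1 h2 hg
  have e := pl_p hl.gp.1
  have c : IsCh (pl l).D θ := ⟨hθ.1.mono le_top, fun g _ k hk => by
    rw [hθ.2 g trivial k trivial, d2, z k hk]; simp⟩
  rw [iv_congr (κ := cu la θ) fun g _ k hk => by rw [Pi.add_apply, Pi.add_apply, d2, z k hk]; simp,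
    iv_swap (hla.mono le_top) c]
  refine (BasN.cup hl.gp.1 hl.gp.ne.1 c (hla.mono le_top) fun g hg =>
    h3 _ (by rw [e]; exact hl.gp.2) (by rw [e]; exact hl.nm) g hg).trans ?_
  rw [ht, mul_one]

end VARc

open VARc in
theorem p_VAR :
    S_VAR := by
  rintro Λ S l l' φ u _ _ θ hS hl hl' ne hφ hu ⟨y, m, gy, ry, ld, rfl⟩ ⟨y', m', gy', ry', ld', rfl⟩
    hθ hun
  choose e he using fun g => dv_iff.1 (rd_eq.1 ((ry g).trans (ry' g).symm))
  obtain ⟨e1, e2⟩ := eta gy.zn gy'.zn ry ry' he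
  have hla : IsCh ⊤ (qs l + qs l') := (isCh_qs l).add (isCh_qs l')
  have e3 : ∀ g, chi (insert l S) g + chi (insert l' S) g = (qs l + qs l') g := fun g => by
    rw [chi_insert hl, chi_insert hl', Pi.add_apply, Pi.add_apply, Pi.add_apply, add_add_add_comm,
      CharTwo.add_self_eq_zero, add_zero]
  simp only [e3] at e2
  have n1 : l ∉ insert l' (S ∪ T30) := fun a => (mem_insert.1 a).elim ne (not_mem hl)
  have hc : Co2 ⊤ (sgn (d2 (fun g => rd (e g)) u + cu (qs l + qs l') θ)) := co2_sgn.2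
    ⟨(e1.fst.comp₂ hu.1.1.snd ee).comp₂ (hla.1.fst.comp₂ hθ.1.snd (· * ·)) (· + ·),
    fun g _ k _ j _ => by
      generalize qs l + qs l' = la at e2 hla
      simp only [Pi.add_apply, cu, d2, e2, hla.2 g trivial k trivial, hu.1.2 k trivial j trivial,
        hθ.2 k trivial j trivial, Pi.smul_apply, smul_eq_mul]
      ring⟩
  have h := recp_iv (S := insert l (insert l' (S ∪ T30))) (fun p hp => ?_) hc
    (Triv.one.congr fun g hg k hk => ?_) fun w hw => ?_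
  · rw [sum_insert n1, sum_insert (not_mem hl'), at_l hS hl hu.1 hu.2.1 hu.2.2.1 hla ?_ hθ hun,
      at_l hS hl' hu.1 hu.2.1 hu.2.2.1 hla ?_ hθ hun, sum_congr rfl
        (g := fun p => iv p (d2 (m p) u) + iv p (d2 (m' p) u)) fun p hp => ?_, sum_add_distrib,
      ← add_assoc, add_comm, CharTwo.add_eq_zero] at h
    · exact h
    · have z : ∀ g ∈ (pl p).D, (qs l + qs l') g = 0 := fun g hg => by
        rw [Pi.add_apply, qs_D hS hl hp hg, qs_D hS hl' hp hg, add_zero]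
      have c : IsCh (pl p).D fun g => rd (e g) := ⟨e1.mono le_top, fun g hg k _ => by
        beta_reduce
        rw [e2, z g hg, zero_smul, add_zero]⟩
      have c1 := (ld p hp).1
      have c2 := (ld' p hp).1
      have c3 := hu.1.mono (le_top (a := (pl p).D))
      have h1 := ((ld p hp).2.congr_chi fun g hg => (chi_D hS hl hp hg).symm).sub
        ((ld' p hp).2.congr_chi fun g hg => (chi_D hS hl' hp hg).symm)
      have h2 := LL.of_lc (n := 0) ((Lat.lc_pow (j := 1) (n := 1)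
        (y := fun g => e g - lf (m p g) + lf (m' p g)) fun g _ => by
          rw [smul_add, smul_sub, ← he]; abel).1 h1)
      simp only [rd_add, rd_sub, rd_lf] at h2
      have h3 := LL.iso (isCh_chi S) h2 (hu.2.2.2 p hp)
      rw [iv_d2_add (c.add c1) c2 c3, iv_d2_add c c1 c3, add_assoc, CharTwo.add_eq_zero] at h3
      rw [← h3]
      exact iv_congr fun g hg k _ => by
        rw [Pi.add_apply, Pi.add_apply, cu, z g hg, zero_mul, add_zero]
    · rw [Pi.add_apply, qs_tp hl'.gp hl.gp, qs_tp hl'.gp hl'.gp, if_neg ne.symm, if_pos rfl, zero_add]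
    · rw [Pi.add_apply, qs_tp hl.gp hl.gp, qs_tp hl.gp hl'.gp, if_neg ne, if_pos rfl, add_zero]
  · rcases mem_insert.1 hp with rfl | hp
    · exact hl.gp.1
    rcases mem_insert.1 hp with rfl | hp
    · exact hl'.gp.1
    · exact prime_of hS hp
  · have z : (qs l + qs l') tau = 0 := by rw [Pi.add_apply, qs_tau hl, qs_tau hl']; rfl
    simp [sgn, d2, cu, zero_Ht hu.1 hu.2.2.1 hk, zero_Ht hla z hg]
  · rw [mem_insert, mem_insert, mem_union, mem_T30, not_or, not_or, not_or] at hw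
    have h30 : ¬ w.p ∣ 30 := fun a => hw.2.2.2 ⟨w.prime, a⟩
    have nS : ∀ {q : ℕ}, w.p ≠ q → w.p ∉ insert q S := fun a b =>
      (mem_insert.1 b).elim a hw.2.2.1
    have z : ∀ i ∈ w.I, (qs l + qs l') i = 0 := fun i hi => by
      rw [Pi.add_apply, qs_I hl.gp.1 hl.gp.ne.1 hw.1 hi, qs_I hl'.gp.1 hl'.gp.ne.1 hw.2.1 hi,
        add_zero]
    have z' : ∀ i ∈ w.I, rd (e i) = 0 := fun i hi => rd_eq_zero.2 ((dv_pow (j := 1)).1
      (he i ▸ (gy.unr w h30 (nS hw.1) i hi).sub (gy'.unr w h30 (nS hw.2.1) i hi)))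
    refine BasN.unr (hc.mono le_top) fun g _ k _ i hi => ?_
    generalize qs l + qs l' = la at e2 hla z
    simp only [Pi.add_apply, cu, d2, e2, hla.2 g trivial i trivial, hu.1.2 k trivial i trivial,
      hθ.2 k trivial i trivial, z i hi, z' i hi, hu.2.1 w h30 hw.2.2.1 i hi,
      hφ.2.1 w h30 hw.2.2.1 i hi, hun w h30 hw.2.2.1 i hi]
    simp

end Pool.Agent.P.MP_8b7eba_nt.SM.Tc
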