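import Pool.Agent.P.MP_8b7eba_nt.TC.TADM
import Pool.Agent.P.MP_8b7eba_nt.TC.TAUX
import Pool.Agent.P.MP_8b7eba_nt.TC.TCHEB
import Pool.Agent.P.MP_8b7eba_nt.TC.TCLAS
import Pool.Agent.P.MP_8b7eba_nt.TC.TCNT1
import Pool.Agent.P.MP_8b7eba_nt.TC.TCNT2
import Pool.Agent.P.MP_8b7eba_nt.TC.TCORE
import Pool.Agent.P.MP_8b7eba_nt.TC.TDG5
import Pool.Agent.P.MP_8b7eba_nt.TC.TFINW
import Pool.Agent.P.MP_8b7eba_nt.TC.TFORM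
import Pool.Agent.P.MP_8b7eba_nt.TC.TGW
import Pool.Agent.P.MP_8b7eba_nt.TC.THIL2
import Pool.Agent.P.MP_8b7eba_nt.TC.THILP
import Pool.Agent.P.MP_8b7eba_nt.TC.TKG0
import Pool.Agent.P.MP_8b7eba_nt.TC.TKLL
import Pool.Agent.P.MP_8b7eba_nt.TC.TKM2
import Pool.Agent.P.MP_8b7eba_nt.TC.TKPT
import Pool.Agent.P.MP_8b7eba_nt.TC.TL2
import Pool.Agent.P.MP_8b7eba_nt.TC.TL3
import Pool.Agent.P.MP_8b7eba_nt.TC.TL5
import Pool.Agent.P.MP_8b7eba_nt.TC.TLD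
import Pool.Agent.P.MP_8b7eba_nt.TC.TLIFT
import Pool.Agent.P.MP_8b7eba_nt.TC.TLIN
import Pool.Agent.P.MP_8b7eba_nt.TC.TLOCA
import Pool.Agent.P.MP_8b7eba_nt.TC.TMAX
import Pool.Agent.P.MP_8b7eba_nt.TC.TMOD8
import Pool.Agent.P.MP_8b7eba_nt.TC.TPT
import Pool.Agent.P.MP_8b7eba_nt.TC.TRAD
import Pool.Agent.P.MP_8b7eba_nt.TC.TRHO
import Pool.Agent.P.MP_8b7eba_nt.TC.TSHL
import Pool.Agent.P.MP_8b7eba_nt.TC.TSYM
import Pool.Agent.P.MP_8b7eba_nt.TC.TTH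
import Pool.Agent.P.MP_8b7eba_nt.TC.TTORS
import Pool.Agent.P.MP_8b7eba_nt.TC.TTWO
import Pool.Agent.P.MP_8b7eba_nt.TC.TVAR

/-! Assembly. -/

set_option autoImplicit false

namespace Pool.Agent.P.MP_8b7eba_nt.SM.Tc

theorem a_FINW : S_FINW := p_FINW

theorem a_FORM : S_FORM := p_FORM

theorem a_SYM : S_SYM := p_SYM

theorem a_TH : S_TH := p_TH

theorem a_VAR : S_VAR := p_VAR

theorem a_ADM : S_ADM := p_ADM

theorem a_CHEB : S_CHEB := p_CHEB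

theorem a_LIN : S_LIN := p_LIN

theorem a_MAX : S_MAX := p_MAX a_FINW a_FORM a_SYM a_TH a_VAR a_ADM a_CHEB a_LIN

theorem a_RAD : S_RAD := p_RAD

theorem a_TWO : S_TWO := p_TWO

theorem a_PT : S_PT := p_PT

theorem a_SHL : S_SHL := p_SHL

theorem a_LIFT : S_LIFT := p_LIFT a_PT a_SHL

theorem a_GW : S_GW := p_GW

theorem a_CNT1 : S_CNT1 := p_CNT1 a_FINW a_GW

theorem a_CNT2 : S_CNT2 := p_CNT2 a_FINW a_GW a_SHL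

theorem a_HILP : S_HILP := p_HILP

theorem a_HIL2 : S_HIL2 := p_HIL2 a_HILP

theorem a_LD : S_LD := p_LD a_HILP a_HIL2

theorem a_DG5 : S_DG5 := p_DG5 a_LD a_SHL

theorem a_CORE : S_CORE := p_CORE a_MAX a_RAD a_TWO a_LIFT a_CNT1 a_CNT2 a_DG5

theorem a_MOD8 : S_MOD8 := p_MOD8

theorem a_TORS : S_TORS := p_TORS

theorem a_RHO : S_RHO := p_RHO

theorem a_KPT : S_KPT := p_KPT

theorem a_KM2 : S_KM2 := p_KM2 a_KPT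

theorem a_KLL : S_KLL := p_KLL

theorem a_L2 : S_L2 := p_L2 a_MOD8 a_TORS a_RHO a_KM2 a_KLL

theorem a_L3 : S_L3 := p_L3 a_TORS

theorem a_L5 : S_L5 := p_L5 a_TORS

theorem a_KG0 : S_KG0 := p_KG0 a_LD

theorem a_LOCA : S_LOCA := p_LOCA a_MOD8 a_TORS a_L2 a_L3 a_L5 a_KG0

theorem a_AUX : S_AUX := p_AUX a_CORE a_LOCA

theorem a_CLAS : S_CLAS := p_CLAS

end Pool.Agent.P.MP_8b7eba_nt.SM.Tc
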