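import Pool.Agent.P.MP_8b7eba_nt.TC.Base

/-! Basic facts for the project TC. -/

namespace Pool.Agent.P.MP_8b7eba_nt.SM.Tc

open Finset R2 X
open scoped Matrix

variable {Λ : Lat} {ψ ψ' α α' β : GQ → F2} {p l : ℕ} {φ φ' u : X2} {S : Finset ℕ} {j : Fin 2}
  {g : GQ}

theorem prime_of (hS : ∀ q ∈ S, Gp q) (hp : p ∈ S ∪ T30) : p.Prime :=
  (mem_union.1 hp).elim (fun a => (hS p a).1) fun a => (mem_T30.1 a).1

theorem isCh_co {H : Subgroup GQ} (h : IsCh H φ) (i : Fin 2) : IsCh H fun g => φ g i := LC.ch h i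

theorem isCh_ax {H : Subgroup GQ} (h : IsCh H α) (j : Fin 2) : IsCh H (ax j α) :=
  h.map (AddMonoidHom.single (fun _ => F2) j)

theorem ax_same (j : Fin 2) (α : GQ → F2) (g : GQ) : ax j α g j = α g := by
  rw [ax_apply, Pi.single_eq_same]

theorem ax_succ (j : Fin 2) (α : GQ → F2) (g : GQ) : ax j α g (j + 1) = 0 := by
  rw [ax_apply, Pi.single_eq_of_ne ((by decide : ∀ j : Fin 2, j + 1 ≠ j) j)]

theorem ax_add_ax (φ : X2) (j : Fin 2) :
    ax j (fun g => φ g j) + ax (j + 1) (fun g => φ g (j + 1)) = φ := by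
  funext g i
  fin_cases j <;> fin_cases i <;> simp [ax_apply]

theorem d2_ax (j : Fin 2) (β : GQ → F2) (φ : X2) :
    d2 (ax j β) φ = cu β fun g => φ g (j + 1) := by
  funext g h
  fin_cases j <;> simp [d2, cu, ax_apply]

theorem d2_ax' (j : Fin 2) (φ : X2) (β : GQ → F2) :
    d2 φ (ax j β) = cu (fun g => φ g (j + 1)) β := by
  funext g h
  fin_cases j <;> simp [d2, cu, ax_apply]

theorem d2_eq (φ u : X2) (g h : GQ) : d2 φ u g h = ee (φ g) (u h) := rfl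

theorem LL.ch (h : φ ∈ LL Λ ψ p) : IsCh (pl p).D φ := by
  simpa only [rd_lf] using Lat.zn_one.1 (Lat.Lc.zn h)

theorem LL.congr (h : φ ∈ LL Λ ψ p) (e : ∀ g ∈ (pl p).D, φ' g = φ g) : φ' ∈ LL Λ ψ p :=
  Lat.Lc.congr h fun g hg => by rw [e g hg, sub_self]; exact dv_zero

theorem LL.congr_chi (h : φ ∈ LL Λ ψ p) (e : ∀ g ∈ (pl p).D, ψ' g = ψ g) : φ ∈ LL Λ ψ' p :=
  Lat.Lc.congr_chi h e

theorem LL.of_zero (e : ∀ g ∈ (pl p).D, φ g = 0) : φ ∈ LL Λ ψ p := LL.congr (zero_mem _) e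

/-- reductions of cocycles which satisfy the local condition -/
theorem LL.of_lc {n : ℕ} {x : GQ → VZ} (h : Λ.Lc (p = 2) ψ (pl p).D (n + 1) x) :
    (fun g => rd (x g)) ∈ LL Λ ψ p :=
  (h.mono (Nat.le_add_left 1 n)).congr fun _ _ => rd_eq.1 (rd_lf _)

theorem Lj.ch (h : α ∈ Lj Λ ψ j p) : IsCh (pl p).D α := by
  simpa only [ax_same] using isCh_co (LL.ch (mem_Lj.1 h)) j

theorem Lj.congr (h : α ∈ Lj Λ ψ j p) (e : ∀ g ∈ (pl p).D, α' g = α g) : α' ∈ Lj Λ ψ j p :=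
  LL.congr (mem_Lj.1 h) fun g hg => by rw [ax_apply, ax_apply, e g hg]

theorem sat_Lj (Λ : Lat) (ψ : GQ → F2) (j : Fin 2) (S : Finset ℕ) : Sat S (Lj Λ ψ j) :=
  fun _ _ => ⟨fun _ h => Lj.ch h, fun _ e => Lj.congr (zero_mem _) e⟩

theorem ax_mem_XX : ax j α ∈ XX Λ S ↔ α ∈ Sp S (Lj Λ (chi S) j) := by
  refine ⟨fun h => ⟨by simpa only [ax_same] using isCh_co h.1 j, fun w a b g hg => ?_, ?_, h.2.2.2⟩,
    fun h => ⟨isCh_ax h.1 j, fun w a b g hg => ?_, ?_, h.2.2.2⟩⟩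
  · rw [← ax_same j α g, h.2.1 w a b g hg, Pi.zero_apply]
  · rw [← ax_same j α tau, h.2.2.1, Pi.zero_apply]
  · rw [ax_apply, h.2.1 w a b g hg, Pi.single_zero]
  · rw [ax_apply, h.2.2.1, Pi.single_zero]

theorem Dm.zero (L : Submodule F2 (GQ → F2)) (p : ℕ) : Dm L p 0 :=
  ⟨Fin.elim0, fun i => i.elim0, fun _ _ => funext fun i => i.elim0⟩

theorem Dm.mono {L L' : Submodule F2 (GQ → F2)} {k : ℕ} (h : Dm L p k) (e : L ≤ L') : Dm L' p k :=
  let ⟨f, a, b⟩ := h; ⟨f, fun i => e (a i), b⟩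

theorem Dm.one {L : Submodule F2 (GQ → F2)} (h : α ∈ L) (hg : g ∈ (pl p).D) (e : α g = 1) :
    Dm L p 1 :=
  ⟨fun _ => α, fun _ => h, fun c hc => funext fun i => by
    have : c 0 * α g = 0 := (Fin.sum_univ_one _).symm.trans (hc g hg)
    rwa [e, mul_one, Subsingleton.elim 0 i] at this⟩

theorem Dm.two {L : Submodule F2 (GQ → F2)} {g' : GQ} (h : α ∈ L) (h' : β ∈ L)
    (hg : g ∈ (pl p).D) (hg' : g' ∈ (pl p).D) (e : α g = 1) (e1 : α g' = 0) (e2 : β g' = 1) :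
    Dm L p 2 :=
  ⟨![α, β], fun i => by fin_cases i <;> assumption, fun c hc => by
    have h1 := hc g hg
    have h2 := hc g' hg'
    simp only [Fin.sum_univ_two, Matrix.cons_val_zero, Matrix.cons_val_one, e, e1, e2, mul_one,
      mul_zero, zero_add] at h1 h2
    rw [h2, zero_mul, add_zero] at h1
    funext i
    fin_cases i <;> assumption⟩

theorem co2_cu {H : Subgroup GQ} (h : IsCh H α) (h' : IsCh H β) : Co2 H (sgn (cu α β)) :=
  co2_cup h h'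

theorem iv_cu_zero (e : ∀ g ∈ (pl p).D, β g = 0) : iv p (cu α β) = 0 :=
  BasN.zero fun g _ k hk => by rw [cu, e k hk, mul_zero]

theorem iv_swap (h : IsCh (pl p).D α) (h' : IsCh (pl p).D β) : iv p (cu α β) = iv p (cu β α) := by
  have : Triv (pl p).D (sgn (cu α β)) ↔ Triv (pl p).D (sgn (cu β α)) := (triv_swap h h').iff
  unfold iv
  rw [this]

theorem iv_cu_add (h : IsCh (pl p).D α) (h1 : IsCh (pl p).D α') (h' : IsCh (pl p).D β) :
    iv p (cu (α + α') β) = iv p (cu α β) + iv p (cu α' β) := by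
  rw [← iv_add (co2_cu h h') (co2_cu h1 h')]
  exact iv_congr fun g _ k _ => add_mul _ _ _

theorem iv_d2 (h : IsCh (pl p).D φ) (h' : IsCh (pl p).D u) :
    iv p (d2 φ u) = iv p (cu (fun g => φ g 0) fun g => u g 1) +
      iv p (cu (fun g => φ g 1) fun g => u g 0) :=
  iv_add (co2_cu (isCh_co h 0) (isCh_co h' 1)) (co2_cu (isCh_co h 1) (isCh_co h' 0))

theorem iv_d2_swap (h : IsCh (pl p).D φ) (h' : IsCh (pl p).D u) :
    iv p (d2 φ u) = iv p (d2 u φ) := by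
  rw [iv_d2 h h', iv_d2 h' h, iv_swap (isCh_co h 0) (isCh_co h' 1),
    iv_swap (isCh_co h 1) (isCh_co h' 0), add_comm]

/-- the local condition is isotropic -/
theorem LL.iso (hψ : IsCh (pl p).D ψ) (h : φ ∈ LL Λ ψ p) (h' : u ∈ LL Λ ψ p) :
    iv p (d2 φ u) = 0 := by
  have := Lat.triv_d2 (Λ := Λ) (n := 0) (m := 0) (l := φ) (y := fun g => lf (u g)) hψ
    (fun a : p = 2 => by rw [a]) (by simpa using mem_LL.1 h) (mem_LL.1 h')
  simp only [rd_lf] at this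
  exact if_pos this

theorem Lj.iso (hψ : IsCh (pl p).D ψ) (h : β ∈ Lj Λ ψ j p) (h' : φ ∈ LL Λ ψ p) :
    iv p (cu β fun g => φ g (j + 1)) = 0 := d2_ax j β φ ▸ LL.iso hψ (mem_Lj.1 h) h'

theorem XX.sr (h : φ ∈ XX Λ S) (j : Fin 2) : (fun g => φ g (j + 1)) ∈ Sr S (Lj Λ (chi S) j) :=
  ⟨isCh_co h.1 _, fun w a b g hg => congrFun (h.2.1 w a b g hg) _,
    fun p hp _ hβ => Lj.iso (isCh_chi S) hβ (h.2.2.2 p hp)⟩

/-! ### Auxiliary primes -/

theorem gp_insert (hS : ∀ q ∈ S, Gp q) (h : Spl S l) : ∀ q ∈ insert l S, Gp q := fun q hq =>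
  (mem_insert.1 hq).elim (fun e => e ▸ h.gp) (hS q)

theorem not_mem (h : Spl S l) : l ∉ S ∪ T30 := fun e =>
  (mem_union.1 e).elim h.nm h.gp.ne.2.2.2.1

theorem insert_union' (S : Finset ℕ) (l : ℕ) : insert l S ∪ T30 = insert l (S ∪ T30) :=
  insert_union l S T30

theorem chi_insert (h : Spl S l) : chi (insert l S) = qs l + chi S := by
  rw [chi, sum_insert h.nm, chi]

theorem qs_tau (h : Spl S l) : qs l tau = 1 := by
  have h4 := h.four
  refine BasG.one_of_ne fun e => ?_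
  rw [qs, ps, if_neg (by omega), qz_tau hA.tau (by omega)] at e
  omega

theorem qs_D (hS : ∀ q ∈ S, Gp q) (h : Spl S l) (hp : p ∈ S ∪ T30) (hg : g ∈ (pl p).D) :
    qs l g = 0 := by
  have pp := prime_of hS hp
  have ol := h.gp.ne.2.2.2.2.1
  have h1 := h.one pp ((mem_union.1 hp).symm.imp_left fun a => (mem_T30.1 a).2)
  by_cases h2 : p = 2
  · subst h2
    refine qz_D_two hA (pl_p pp) ?_ hg
    have h4 := h.four
    rw [Nat.cast_ofNat, jacobiSym.at_two ol, ZMod.χ₈_nat_eq_if_mod_eight] at h1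
    rw [ps, if_neg (by omega)]
    split_ifs at h1 <;> omega
  have ne : p ≠ l := fun e => not_mem h (e ▸ hp)
  refine ch_D pp h2 (isCh_qs l) (qs_I h.gp.1 h.gp.ne.1 (by rwa [pl_p pp]) (tp_I pp h2)) ?_ hg
  rw [qs, qz_fr pp (BasG.not_dvd pp h.gp.1 h2 ne), js_rec (pp.odd_of_ne_two h2) ol, js, if_pos h1]

theorem chi_D (hS : ∀ q ∈ S, Gp q) (h : Spl S l) (hp : p ∈ S ∪ T30) (hg : g ∈ (pl p).D) :
    chi (insert l S) g = chi S g := by
  rw [chi_insert h, Pi.add_apply, qs_D hS h hp hg, zero_add]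

/-- global characters which vanish at infinity vanish at the auxiliary prime -/
theorem zero_D {A : Type} [AddCommGroup A] [Module F2 A] {χ : GQ → A} (hS : ∀ q ∈ S, Gp q)
    (h : Spl S l) (hχ : IsCh ⊤ χ) (hu : Un S χ) (ht : χ tau = 0) (hg : g ∈ (pl l).D) : χ g = 0 := by
  have e := pl_p h.gp.1
  exact ch_D h.gp.1 h.gp.ne.1 (hχ.mono le_top) (hu _ (by rw [e]; exact h.gp.2)
    (by rw [e]; exact h.nm) _ (tp_I h.gp.1 h.gp.ne.1)) ((h.ch_eq hS hχ hu).trans ht) hg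

theorem zero_Ht {A : Type} [AddCommGroup A] {χ : GQ → A} (hχ : IsCh ⊤ χ) (ht : χ tau = 0)
    (hg : g ∈ Ht) : χ g = 0 := by
  rcases mem_Ht.1 hg with rfl | rfl
  exacts [hχ.one, ht]

/-- the elements of `XX` are Selmer cocycles of the twist -/
theorem XX.wn (hS : ∀ q ∈ S, Gp q) (h : Spl S l) (hφ : φ ∈ XX Λ S) :
    Λ.Wn (insert l S) 1 fun g => lf (φ g) := by
  have z : ∀ g, φ g = 0 → Dv 1 (lf (φ g)) := fun g e => rd_eq_zero.1 (by rw [rd_lf, e])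
  refine ⟨⟨Lat.zn_one.2 (by simpa only [rd_lf] using hφ.1), fun w a b g hg =>
    z g (hφ.2.1 w a (fun e => b (mem_insert_of_mem e)) g hg),
    Lat.lc_of_dv fun g hg => z g (zero_Ht hφ.1 hφ.2.2.1 hg)⟩, fun p hp => ?_⟩
  rw [insert_union', mem_insert] at hp
  rcases hp with rfl | hp
  · exact Lat.lc_of_dv fun g hg => z g (zero_D hS h hφ.1 hφ.2.1 hφ.2.2.1 hg)
  · exact Lat.Lc.congr_chi (hφ.2.2.2 p hp) fun g hg => chi_D hS h hp hg

end Pool.Agent.P.MP_8b7eba_nt.SM.Tc
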