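import Pool.Agent.P.MP_8b7eba_nt.R3.BAlpha
import Pool.Agent.P.MP_8b7eba_nt.R3.CSel
import Pool.Agent.P.MP_8b7eba_nt.R3.COrth
import Pool.Agent.P.MP_8b7eba_nt.R3.Top2

/-! Definitions for the project TC: an auxiliary prime for every twist. -/

namespace Pool.Agent.P.MP_8b7eba_nt.SM.Tc

open Finset R2 X
open scoped Matrix

noncomputable section

/-- the excluded twists -/
def Exc (d : ℤ) : Prop :=
  (d % 240 = 82 ∨ d % 240 = 178) ∧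
    ∀ p : ℕ, p.Prime → p ≠ 2 → (p : ℤ) ∣ d → p % 8 = 1 ∨ p % 8 = 7

/-- vanishing on inertia outside `30 S` -/
def Un {A : Type} [Zero A] (S : Finset ℕ) (χ : GQ → A) : Prop :=
  ∀ w : Pl, ¬ w.p ∣ 30 → w.p ∉ S → ∀ g ∈ w.I, χ g = 0

/-- the cup product of two characters -/
def cu (α β : GQ → F2) (g h : GQ) : F2 := α g * β h

/-- a character placed in one coordinate -/
def ax (j : Fin 2) : (GQ → F2) →ₗ[F2] X2 where
  toFun α g := Pi.single j (α g)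
  map_add' α β := funext fun g => Pi.single_add (f := fun _ => F2) j (α g) (β g)
  map_smul' c α := funext fun g => Pi.single_smul (f := fun _ => F2) j c (α g)

theorem ax_apply (j : Fin 2) (α : GQ → F2) (g : GQ) : ax j α g = Pi.single j (α g) := rfl

theorem dv_lf_add (a b : V1) : Dv 1 (lf (a + b) - (lf a + lf b)) := by
  rw [← rd_eq, rd_add, rd_lf, rd_lf, rd_lf]

theorem dv_lf_smul (c : F2) (a : V1) : Dv 1 (lf (c • a) - ((c.val : ℕ) : Z2) • lf a) := by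
  rw [← rd_eq, rd_smul, rd_lf, rd_lf, BasY.toZMod_val]

/-- the local condition modulo two -/
def LL (Λ : Lat) (ψ : GQ → F2) (p : ℕ) : Submodule F2 X2 where
  carrier := {φ | Λ.Lc (p = 2) ψ (pl p).D 1 fun g => lf (φ g)}
  add_mem' ha hb := (Lat.Lc.add ha hb).congr fun _ _ => dv_lf_add _ _
  zero_mem' := Lat.lc_of_dv fun _ _ => rd_eq_zero.1 (rd_lf _)
  smul_mem' c _ h := (Lat.Lc.smul h _).congr fun _ _ => dv_lf_smul c _

theorem mem_LL {Λ : Lat} {ψ : GQ → F2} {p : ℕ} {φ : X2} :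
    φ ∈ LL Λ ψ p ↔ Λ.Lc (p = 2) ψ (pl p).D 1 fun g => lf (φ g) := Iff.rfl

/-- the part of the local condition in one coordinate -/
def Lj (Λ : Lat) (ψ : GQ → F2) (j : Fin 2) (p : ℕ) : Submodule F2 (GQ → F2) :=
  (LL Λ ψ p).comap (ax j)

theorem mem_Lj {Λ : Lat} {ψ : GQ → F2} {j : Fin 2} {p : ℕ} {α : GQ → F2} :
    α ∈ Lj Λ ψ j p ↔ ax j α ∈ LL Λ ψ p := Iff.rfl

/-- the Selmer classes modulo two which vanish at infinity -/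
def XX (Λ : Lat) (S : Finset ℕ) : Submodule F2 X2 where
  carrier := {φ | IsCh ⊤ φ ∧ Un S φ ∧ φ tau = 0 ∧ ∀ p ∈ S ∪ T30, φ ∈ LL Λ (chi S) p}
  add_mem' := fun {a b} ha hb => ⟨ha.1.add hb.1, fun w h h' g hg => by
      rw [Pi.add_apply, ha.2.1 w h h' g hg, hb.2.1 w h h' g hg, add_zero],
    by rw [Pi.add_apply, ha.2.2.1, hb.2.2.1, add_zero],
    fun p hp => add_mem (ha.2.2.2 p hp) (hb.2.2.2 p hp)⟩
  zero_mem' := ⟨⟨Sm.const 0, fun _ _ _ _ => (add_zero _).symm⟩, fun _ _ _ _ _ => rfl, rfl,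
    fun _ _ => zero_mem _⟩
  smul_mem' := fun c a ha => ⟨⟨ha.1.1.comp (c • ·), fun g hg h hh => by
      simp only [Pi.smul_apply, ha.1.2 g hg h hh, smul_add]⟩, fun w h h' g hg => by
      rw [Pi.smul_apply, ha.2.1 w h h' g hg, smul_zero],
    by rw [Pi.smul_apply, ha.2.2.1, smul_zero],
    fun p hp => Submodule.smul_mem _ c (ha.2.2.2 p hp)⟩

theorem mem_XX {Λ : Lat} {S : Finset ℕ} {φ : X2} : φ ∈ XX Λ S ↔
    IsCh ⊤ φ ∧ Un S φ ∧ φ tau = 0 ∧ ∀ p ∈ S ∪ T30, φ ∈ LL Λ (chi S) p := Iff.rfl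

/-- families of local conditions -/
def Sat (S : Finset ℕ) (L : ℕ → Submodule F2 (GQ → F2)) : Prop :=
  ∀ p ∈ S ∪ T30, (∀ α ∈ L p, IsCh (pl p).D α) ∧ ∀ α, (∀ g ∈ (pl p).D, α g = 0) → α ∈ L p

/-- the Selmer set which is strict at infinity -/
def Sp (S : Finset ℕ) (L : ℕ → Submodule F2 (GQ → F2)) : Set (GQ → F2) :=
  {α | IsCh ⊤ α ∧ Un S α ∧ α tau = 0 ∧ ∀ p ∈ S ∪ T30, α ∈ L p}

/-- the dual Selmer set, relaxed at infinity -/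
def Sr (S : Finset ℕ) (L : ℕ → Submodule F2 (GQ → F2)) : Set (GQ → F2) :=
  {α | IsCh ⊤ α ∧ Un S α ∧ ∀ p ∈ S ∪ T30, ∀ β ∈ L p, iv p (cu β α) = 0}

/-- `L` contains `k` elements which are independent on the decomposition group -/
def Dm (L : Submodule F2 (GQ → F2)) (p k : ℕ) : Prop :=
  ∃ f : Fin k → GQ → F2, (∀ i, f i ∈ L) ∧
    ∀ c : Fin k → F2, (∀ g ∈ (pl p).D, ∑ i, c i * f i g = 0) → c = 0

/-- the dimension of the group of local characters -/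
def du (p : ℕ) : ℕ := if p = 2 then 3 else 2

/-- admissible auxiliary primes -/
def Ad (S Q : Finset ℕ) (B l : ℕ) : Prop :=
  B < l ∧ l % 16 = 7 ∧ Spl S l ∧ ∀ q ∈ Q, jacobiSym (-l) q = -1

/-- `c` is a value of the pairing of Cassels and Tate -/
def Pr (Λ : Lat) (S : Finset ℕ) (l : ℕ) (φ u : X2) (c : F2) : Prop :=
  ∃ (y : GQ → VZ) (m : ℕ → X2), Λ.Gy (insert l S) 2 y ∧ (∀ g, rd (y g) = φ g) ∧
    (∀ p ∈ S ∪ T30, Λ.Ld (insert l S) 1 y p (m p)) ∧ c = ∑ p ∈ S ∪ T30, iv p (d2 (m p) u)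

/-- `F` is the pairing -/
def IsF (Λ : Lat) (S : Finset ℕ) (l : ℕ) (F : XX Λ S →ₗ[F2] XX Λ S →ₗ[F2] F2) : Prop :=
  ∀ (φ u : XX Λ S) (c : F2), Pr Λ S l φ u c ↔ c = F φ u

/-- two independent classes lift to all levels -/
def Two (Λ : Lat) (S : Finset ℕ) (l : ℕ) : Prop :=
  ∃ x y : GQ → VZ, (∀ j, Λ.Wn (insert l S) j x ∧ Λ.Wn (insert l S) j y) ∧ x (tp l) = 0 ∧
    y (tp l) = 0 ∧ ∀ a c : F2, (∀ g, a • rd (x g) + c • rd (y g) = 0) → a = 0 ∧ c = 0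

/-- the radical has at most two elements -/
def Rad1 {X : Type} [AddCommGroup X] [Module F2 X] (F : X →ₗ[F2] X →ₗ[F2] F2) : Prop :=
  ∀ x y, (∀ z, F x z = 0) → (∀ z, F y z = 0) → x = 0 ∨ y = 0 ∨ x = y

/-- the elements with values on the line through `v` -/
def Av {G : Type} (X : Submodule F2 (G → V1)) (v : V1) : Set (G → V1) :=
  {x | x ∈ X ∧ ∀ g, ee v (x g) = 0}

/-- the second alternative of the rank lemma -/
def Big {G : Type} (X : Submodule F2 (G → V1)) (F : X →ₗ[F2] X →ₗ[F2] F2) (v : V1) : Prop :=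
  4 * (X : Set (G → V1)).ncard ≤ (Av X v).ncard ^ 2 ∧
    ((Av X v).ncard ^ 2 ≤ 4 * (X : Set (G → V1)).ncard →
      ∀ x y : X, x.1 ∈ Av X v → y.1 ∈ Av X v → F x y = 0)

/-- an element moving `√2` which does not change the pairing -/
def G0 (Λ : Lat) (S : Finset ℕ) : Prop :=
  ∃ g, qz 2 g = 1 ∧ ∀ x ∈ XX Λ S, ∀ y ∈ XX Λ S, ee (x g) (y g) = 0

/-- the local condition at five contains the diagonal -/
def Dg (Λ : Lat) (ψ : GQ → F2) : Prop :=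
  ∀ c : GQ → F2, IsCh (pl 5).D c → (fun g _ => c g) ∈ LL Λ ψ 5

/-- lower bounds for the local conditions -/
structure Loc (Λ : Lat) (S : Finset ℕ) : Prop where
  gp : ∀ p ∈ S, Gp p
  dS : ∀ j, ∀ p ∈ S, Dm (Lj Λ (chi S) j p) p 1
  d2 : Dm (Lj Λ (chi S) 0 2) 2 2 ∧ Dm (Lj Λ (chi S) 1 2) 2 1
  d3 : Dm (Lj Λ (chi S) 0 3) 3 1 ∧ Dm (Lj Λ (chi S) 1 3) 3 1 ∨ Dm (Lj Λ (chi S) 1 3) 3 2
  d5 : Dm (Lj Λ (chi S) 0 5) 5 1 ∧ Dm (Lj Λ (chi S) 1 5) 5 1 ∧ G0 Λ S ∨ Dg Λ (chi S)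

/-- a quarter of a multiple of four, modulo two -/
def q4 (z : Z2) : F2 := by classical exact if 8 ∣ z then 0 else 1

/-- the representation modulo eight -/
structure M8 (Λ : Lat) : Prop where
  r01 : ∀ g, 4 ∣ Λ.r g 0 1
  r10 : ∀ g, 4 ∣ Λ.r g 1 0
  r11 : ∀ g, 8 ∣ Λ.r g 1 1 - (1 + 4 * ((qz 5 g).val : Z2))
  r00 : ∀ g, 8 ∣ Λ.r g 0 0 - cyc g * (1 + 4 * ((qz 5 g).val : Z2))
  t3 : q4 (Λ.r (tp 3) 1 0) = 1 ∧ q4 (Λ.r (tp 3) 0 1) = 0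
  t5 : q4 (Λ.r (tp 5) 1 0) = 1 ∧ q4 (Λ.r (tp 5) 0 1) = 1
  f5 : q4 (Λ.r (fr 5) 1 0) = 1 ∧ q4 (Λ.r (fr 5) 0 1) = 0

/-- `α` is the class of the Kummer cocycle of a local point in the kernel of reduction -/
def Km {w : Pl} (T : Tate w) (δ : Om) (α : GQ → F2) : Prop :=
  ∃ (Q : ℕ → EO) (κ : GQ → V2), (∀ g, ‖κ g‖ ≤ 1) ∧
    (∀ g ∈ w.D, ∀ i, T.pt (((2 : ℚ_[2]) ^ i)⁻¹ • κ g) = tac δ g (Q i) - Q i) ∧
    (∀ g ∈ w.D, κ g 1 = 0) ∧ ∀ g ∈ w.D, ‖κ g 0 - (α g).val‖ < 1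

end

end Pool.Agent.P.MP_8b7eba_nt.SM.Tc
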