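import Pool.Agent.P.MP_8b7eba_nt.TC.Bas
import Pool.Agent.P.MP_8b7eba_nt.CG.PB

/-! Statements of the project TC. -/

namespace Pool.Agent.P.MP_8b7eba_nt.SM.Tc

open Finset R2 X
open scoped Matrix

/-! ### Linear algebra and duality -/

/-- the rank lemma -/
-- deps:
def S_LIN : Prop :=
  ∀ (G : Type) [Group G] (X : Submodule F2 (G → V1)) (𝓕 : Set (X →ₗ[F2] X →ₗ[F2] F2)),
    (X : Set (G → V1)).Finite → (∀ x ∈ X, ∀ g h, x (g * h) = x g + x h) → 𝓕.Nonempty →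
    (∀ F ∈ 𝓕, ∀ x y, F x y = F y x) →
    (∀ F ∈ 𝓕, ∀ g, ∃ F' ∈ 𝓕, ∀ x y : X, F' x y = F x y + ee (x.1 g) (y.1 g)) →
    ∃ F ∈ 𝓕, Rad1 F ∨ ∃ v : V1, v ≠ 0 ∧ Big X F v

/-- finiteness -/
-- deps:
def S_FINW : Prop :=
  ∀ S : Finset ℕ, (∀ p ∈ S, Gp p) → {α : GQ → F2 | IsCh ⊤ α ∧ Un S α}.Finite ∧
    {φ : X2 | IsCh ⊤ φ ∧ Un S φ}.Finite

/-- the Hilbert symbol at an odd prime -/
-- deps:
def S_HILP : Prop :=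
  ∀ (p : ℕ) (α β : GQ → F2), p.Prime → p ≠ 2 → IsCh (pl p).D α → IsCh (pl p).D β →
    iv p (cu α β) = α (fr p) * β (tp p) + α (tp p) * β (fr p) + js (-1) p * α (tp p) * β (tp p)

/-- the Hilbert symbol at two -/
-- deps: HILP
def S_HIL2 : Prop :=
  ∃ s : Fin 3 → GQ, (∀ i, s i ∈ (pl 2).D) ∧
    (∀ i j, qz (![-1, 2, 5] i) (s j) = if i = j then 1 else 0) ∧
    (∀ α : GQ → F2, IsCh (pl 2).D α → ∀ g ∈ (pl 2).D,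
      α g = α (s 0) * qz (-1) g + α (s 1) * qz 2 g + α (s 2) * qz 5 g) ∧
    ∀ α β : GQ → F2, IsCh (pl 2).D α → IsCh (pl 2).D β →
      iv 2 (cu α β) = α (s 0) * β (s 0) + α (s 1) * β (s 2) + α (s 2) * β (s 1)

/-- local duality -/
-- deps: HILP HIL2
def S_LD : Prop :=
  ∀ (p : ℕ) (L : Submodule F2 (GQ → F2)) (α α' : GQ → F2), p.Prime →
    (∀ β ∈ L, IsCh (pl p).D β) → IsCh (pl p).D α → IsCh (pl p).D α' →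
    (∀ β ∈ L, iv p (cu β α) = 0) → (∀ β ∈ L, iv p (cu β α') = 0) →
    (Dm L p (du p) → ∀ g ∈ (pl p).D, α g = 0) ∧
    (Dm L p (du p - 1) → (∀ g ∈ (pl p).D, α g = 0) ∨ (∀ g ∈ (pl p).D, α' g = 0) ∨
      ∀ g ∈ (pl p).D, α g = α' g)

/-- the formula of Greenberg and Wiles, as an inequality -/
-- deps:
def S_GW : Prop :=
  ∀ (S : Finset ℕ) (L : ℕ → Submodule F2 (GQ → F2)) (a b c : ℕ), (∀ p ∈ S, Gp p) → Sat S L →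
    (∀ p ∈ S, Dm (L p) p 1) → Dm (L 2) 2 a → Dm (L 3) 3 b → Dm (L 5) 5 c →
    (Sr S L).ncard * 2 ^ (a + b + c) ≤ 16 * (Sp S L).ncard

/-- the exactness of the sequence of Poitou and Tate -/
-- deps:
def S_PT : Prop :=
  ∀ (S : Finset ℕ) (L : ℕ → Submodule F2 (GQ → F2)) (m : ℕ → GQ → F2), (∀ p ∈ S, Gp p) →
    Sat S L → (∀ p ∈ S ∪ T30, IsCh (pl p).D (m p)) →
    (∀ α ∈ Sr S L, ∑ p ∈ S ∪ T30, iv p (cu (m p) α) = 0) →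
    ∃ γ, IsCh ⊤ γ ∧ Un S γ ∧ γ tau = 0 ∧ ∀ p ∈ S ∪ T30, γ + m p ∈ L p

/-! ### The pairing -/

/-- the pairing exists -/
-- deps:
def S_FORM : Prop :=
  ∀ (Λ : Lat) (S : Finset ℕ) (l : ℕ), (∀ p ∈ S, Gp p) → Spl S l → ∃ F, IsF Λ S l F

/-- the pairing is symmetric -/
-- deps:
def S_SYM : Prop :=
  ∀ (Λ : Lat) (S : Finset ℕ) (l : ℕ) (φ u : X2) (c c' : F2), (∀ p ∈ S, Gp p) → Spl S l →
    φ ∈ XX Λ S → u ∈ XX Λ S → Pr Λ S l φ u c → Pr Λ S l u φ c' → c = c'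

/-- the governing cochain -/
-- deps:
def S_TH : Prop :=
  ∀ (Λ : Lat) (S : Finset ℕ) (φ u : X2), (∀ p ∈ S, Gp p) → φ ∈ XX Λ S → u ∈ XX Λ S →
    ∃ θ, Bd ⊤ (d2 φ u) θ ∧ Un S θ

/-- the variation of the pairing -/
-- deps:
def S_VAR : Prop :=
  ∀ (Λ : Lat) (S : Finset ℕ) (l l' : ℕ) (φ u : X2) (c c' : F2) (θ : GQ → F2), (∀ p ∈ S, Gp p) →
    Spl S l → Spl S l' → l ≠ l' → φ ∈ XX Λ S → u ∈ XX Λ S → Pr Λ S l φ u c →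
    Pr Λ S l' φ u c' → Bd ⊤ (d2 φ u) θ → Un S θ → c + c' = θ (fr l) + θ (fr l')

/-- there are admissible primes -/
-- deps:
def S_ADM : Prop :=
  ∀ (S Q : Finset ℕ) (B : ℕ), (∀ p ∈ S, Gp p) → (∀ q ∈ Q, Gp q ∧ q ∉ S) → ∃ l, Ad S Q B l

/-- the choice of the next prime -/
-- deps:
def S_CHEB : Prop :=
  ∀ (S Q : Finset ℕ) (B l : ℕ) (ι : Type) [Finite ι] (φ u : ι → X2) (θ : ι → GQ → F2) (g h : GQ),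
    (∀ p ∈ S, Gp p) → (∀ q ∈ Q, Gp q ∧ q ∉ S) → Ad S Q B l →
    (∀ i, (IsCh ⊤ (φ i) ∧ Un S (φ i) ∧ φ i tau = 0) ∧ (IsCh ⊤ (u i) ∧ Un S (u i) ∧ u i tau = 0) ∧
      Bd ⊤ (d2 (φ i) (u i)) (θ i) ∧ Un S (θ i)) → qz 2 g = qz 2 h →
    ∃ l', l < l' ∧ Ad S Q B l' ∧
      ∀ i, θ i (fr l') = θ i (fr l) + ee (φ i g) (u i g) + ee (φ i h) (u i h)

/-- the choice of a prime with a pairing of maximal rank -/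
-- deps: FINW FORM SYM TH VAR ADM CHEB LIN
def S_MAX : Prop :=
  ∀ (Λ : Lat) (S Q : Finset ℕ) (B : ℕ), (∀ p ∈ S, Gp p) → (∀ q ∈ Q, Gp q ∧ q ∉ S) → G0 Λ S →
    ∃ l F, Ad S Q B l ∧ IsF Λ S l F ∧ (Rad1 F ∨ ∃ v : V1, v ≠ 0 ∧ Big (XX Λ S) F v)

/-- classes which lift lie in the radical -/
-- deps:
def S_RAD : Prop :=
  ∀ (Λ : Lat) (S : Finset ℕ) (l : ℕ) (F : XX Λ S →ₗ[F2] XX Λ S →ₗ[F2] F2), (∀ p ∈ S, Gp p) →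
    Spl S l → IsF Λ S l F → Rad1 F → ¬ Two Λ S l

/-! ### Change of the lattice -/

/-- the local conditions of neighbouring lattices -/
-- deps:
def S_SHL : Prop :=
  ∀ (Λ Λ' : Lat) (j : Fin 2) (ψ : GQ → F2) (p : ℕ), Λ.Sh Λ' j → Λ'.Sh Λ (j + 1) ∧
    (∀ φ ∈ LL Λ' ψ p, (fun g => φ g (j + 1)) ∈ Lj Λ ψ (j + 1) p) ∧
    ∀ α ∈ Lj Λ ψ (j + 1) p, ∃ γ, ax (j + 1) α + ax j γ ∈ LL Λ' ψ p

/-- independent classes on the neighbour -/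
-- deps:
def S_TWO : Prop :=
  ∀ (Λ Λ' : Lat) (j : Fin 2) (S : Finset ℕ) (l : ℕ), Λ.Sh Λ' j → Two Λ S l → Two Λ' S l

/-- lifting to the neighbour -/
-- deps: PT SHL
def S_LIFT : Prop :=
  ∀ (Λ Λ' : Lat) (j : Fin 2) (S : Finset ℕ) (l : ℕ) (F : XX Λ S →ₗ[F2] XX Λ S →ₗ[F2] F2)
    (x : XX Λ S), (∀ p ∈ S, Gp p) → Λ.Sh Λ' j → Spl S l → IsF Λ S l F → (∀ g, x.1 g j = 0) →
    (∀ α ∈ Sr S (Lj Λ (chi S) j), ∃ y : XX Λ S, y.1 = ax (j + 1) α ∧ F x y = 0) →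
    ∃ γ, x.1 + ax j γ ∈ XX Λ' S

/-! ### Counting -/

/-- the first count -/
-- deps: FINW GW
def S_CNT1 : Prop :=
  ∀ (Λ : Lat) (S : Finset ℕ) (v : V1), Loc Λ S → v ≠ 0 →
    4 * (XX Λ S : Set X2).ncard ≤ (Av (XX Λ S) v).ncard ^ 2 →
    Dg Λ (chi S) ∧ (Av (XX Λ S) v).ncard ^ 2 ≤ 4 * (XX Λ S : Set X2).ncard ∧
    ∃ (j : Fin 2) (a b a' b' : ℕ), v = Pi.single (j + 1) 1 ∧
      (∀ α ∈ Sr S (Lj Λ (chi S) j), ax (j + 1) α ∈ XX Λ S) ∧ a + b = 2 ∧ a' + b' = 3 ∧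
      Dm (Lj Λ (chi S) j 2) 2 a ∧ Dm (Lj Λ (chi S) j 3) 3 b ∧
      Dm (Lj Λ (chi S) (j + 1) 2) 2 a' ∧ Dm (Lj Λ (chi S) (j + 1) 3) 3 b'

/-- the second count -/
-- deps: FINW GW SHL
def S_CNT2 : Prop :=
  ∀ (Λ Λ' : Lat) (j : Fin 2) (S : Finset ℕ) (a b a' b' : ℕ) (v : V1), (∀ p ∈ S, Gp p) →
    Λ.Sh Λ' j → (∀ i, ∀ p ∈ S, Dm (Lj Λ (chi S) i p) p 1) → a + b = 2 → a' + b' = 3 →
    Dm (Lj Λ (chi S) j 2) 2 a → Dm (Lj Λ (chi S) j 3) 3 b →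
    Dm (Lj Λ (chi S) (j + 1) 2) 2 a' → Dm (Lj Λ (chi S) (j + 1) 3) 3 b' →
    Dm (Lj Λ' (chi S) j 5) 5 2 →
    (∀ α, ax (j + 1) α ∈ XX Λ S → ∃ γ, ax (j + 1) α + ax j γ ∈ XX Λ' S) → v ≠ 0 →
    (Av (XX Λ' S) v).ncard ^ 2 < 4 * (XX Λ' S : Set X2).ncard

/-- the split case at five -/
-- deps: LD SHL
def S_DG5 : Prop :=
  ∀ (Λ : Lat) (S : Finset ℕ), Dg Λ (chi S) → G0 Λ S ∧
    ∀ (Λ' : Lat) (j : Fin 2), Λ.Sh Λ' j → Dm (Lj Λ' (chi S) j 5) 5 2 ∧ G0 Λ' S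

/-- there is a good auxiliary prime -/
-- deps: MAX RAD TWO LIFT CNT1 CNT2 DG5
def S_CORE : Prop :=
  ∀ (Λ : Lat) (S Q : Finset ℕ) (B : ℕ), Loc Λ S → (∀ j, ∃ Λ', Λ.Sh Λ' j) →
    (∀ q ∈ Q, Gp q ∧ q ∉ S) → ∃ l, Ad S Q B l ∧ ¬ Two Λ S l

/-! ### The local conditions of the curve -/

/-- the representation modulo eight -/
-- deps:
def S_MOD8 : Prop := ∀ (T : Tate (pl 2)) (Λ : Lat), Λ.Of T → M8 Λ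

/-- the classes of the torsion points -/
-- deps:
def S_TORS : Prop :=
  ∀ (Λ : Lat) (ψ : GQ → F2) (p : ℕ), M8 Λ → IsCh (pl p).D ψ →
    qz (-1) + ψ ∈ Lj Λ ψ 0 p ∧ ψ ∈ Lj Λ ψ 1 p ∧
    ((∀ g ∈ (pl p).D, ψ g = 0) →
      (ax 0 (fun g => q4 (Λ.r g 0 1)) + ax 1 (qz 5)) ∈ LL Λ ψ p) ∧
    ((∀ g ∈ (pl p).D, ψ g = qz (-1) g) →
      (ax 0 (fun g => q4 (Λ.rt ψ g 0 0 - 1)) + ax 1 fun g => q4 (Λ.r g 1 0)) ∈ LL Λ ψ p)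

/-- the local condition at three -/
-- deps: TORS
def S_L3 : Prop :=
  ∀ (Λ : Lat) (d : ℤ), M8 Λ →
    (jacobiSym d 3 = 1 → Dm (Lj Λ (qz d) 0 3) 3 1 ∧ Dm (Lj Λ (qz d) 1 3) 3 1) ∧
    (jacobiSym d 3 = -1 → Dm (Lj Λ (qz d) 1 3) 3 2)

/-- the local condition at five -/
-- deps: TORS
def S_L5 : Prop :=
  ∀ (Λ : Lat) (d : ℤ), M8 Λ →
    (jacobiSym d 5 = -1 → Dm (Lj Λ (qz d) 0 5) 5 1 ∧ Dm (Lj Λ (qz d) 1 5) 5 1) ∧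
    (jacobiSym d 5 = 1 → Dg Λ (qz d))

/-- the upper right entry modulo eight -/
-- deps:
def S_RHO : Prop :=
  ∀ Λ : Lat, M8 Λ → ∃ c : F2, ∀ g, q4 (Λ.r g 0 1) = c * qz (-1) g + qz 5 g

/-- local points at two -/
-- deps:
def S_KPT : Prop :=
  ∀ (w : Pl) (T : Tate w) (δ : Om) (m a c : ℤ), w.p = 2 → δ ^ 2 = m → m ≠ 0 → a ≠ 0 → c ≠ 0 →
    a ^ 2 - 9 * m * c ^ 2 ≠ 0 →
    Sq w.D (((a ^ 2 - 9 * m * c ^ 2) * (a ^ 2 - 25 * m * c ^ 2) : ℤ) : Om) →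
    w.v (4 * ((c ^ 2 * m : ℤ) : Om)) < w.v ((a ^ 2 - 9 * m * c ^ 2 : ℤ) : Om) →
    Km T δ (qz (a ^ 2 - 9 * m * c ^ 2))

/-- two independent local classes -/
-- deps: KPT
def S_KM2 : Prop :=
  ∀ (w : Pl) (T : Tate w) (δ : Om) (m : ℤ), w.p = 2 → δ ^ 2 = m → Squarefree m →
    Km T δ (qz (-m)) ∧ (Odd m → Km T δ (qz 5)) ∧ ∃ α β : GQ → F2, Km T δ α ∧ Km T δ β ∧
      ∃ g ∈ w.D, ∃ g' ∈ w.D, α g = 1 ∧ α g' = 0 ∧ β g' = 1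

/-- Kummer classes satisfy the local condition -/
-- deps:
def S_KLL : Prop :=
  ∀ (T : Tate (pl 2)) (Λ : Lat) (d : ℤ) (α : GQ → F2), Λ.Of T → Km T (rt d) α →
    α ∈ Lj Λ (qz d) 0 2

/-- the local condition at two -/
-- deps: MOD8 TORS RHO KM2 KLL
def S_L2 : Prop :=
  ∀ (T : Tate (pl 2)) (Λ : Lat) (d : ℤ), Λ.Of T → Squarefree d → Dm (Lj Λ (qz d) 0 2) 2 2 ∧
    ∃ β ∈ Lj Λ (qz d) 1 2, (∃ g ∈ (pl 2).D, β g = 1) ∧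
      (d % 16 ≠ 2 → ∃ g ∈ (pl 2).D, β g = 0 ∧ qz 2 g = 1)

/-- an element which does not change the pairing -/
-- deps: LD
def S_KG0 : Prop :=
  ∀ (Λ : Lat) (S : Finset ℕ) (p : ℕ), p ∈ S ∪ T30 → p.Prime →
    (Dm (Lj Λ (chi S) 1 p) p (du p) → (∃ g ∈ (pl p).D, qz 2 g = 1) → G0 Λ S) ∧
    ∀ β ∈ Lj Λ (chi S) 1 p, Dm (Lj Λ (chi S) 0 p) p (du p - 1) → (∃ g ∈ (pl p).D, β g = 1) →
      (∃ g ∈ (pl p).D, β g = 0 ∧ qz 2 g = 1) → G0 Λ S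

/-- the local data of a twist -/
-- deps: MOD8 TORS L2 L3 L5 KG0
def S_LOCA : Prop :=
  ∀ (T : Tate (pl 2)) (Λ : Lat) (b : ℤ) (hb : b ∣ 30) (n : ℕ), Λ.Of T → Squarefree n →
    n.Coprime 30 → Squarefree (b * ps n) → ¬ Exc (b * ps n) → Loc (R3.tw Λ hb) n.primeFactors

/-- auxiliary primes exist -/
-- deps: CORE LOCA
def S_AUX : Prop :=
  ∀ (T : Tate (pl 2)) (d : ℤ), Squarefree d → ¬ Exc d → ¬ d ∣ 30 → R3.AuxN T 0 d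

/-! ### The classical Selmer group -/

/-- a local Kummer cocycle which is not a coboundary -/
-- deps: KM2
def S_KUMA : Prop :=
  ∀ (w : Pl) (T : Tate w) (δ : Om) (m : ℤ), w.p = 2 → δ ^ 2 = m → Squarefree m →
    ∃ (Q : ℕ → EO) (κ : GQ → V2), (∀ g, ‖κ g‖ ≤ 1) ∧
      (∀ g ∈ w.D, ∀ i, T.pt (((2 : ℚ_[2]) ^ i)⁻¹ • κ g) = tac δ g (Q i) - Q i) ∧
      (∀ g ∈ w.D, κ g 1 = 0) ∧ ∀ t, ¬ ∀ g ∈ w.D, κ g 0 = T.rd δ g 0 0 * t - t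

/-- an element without fixed vectors -/
-- deps:
def S_PHI : Prop :=
  ∀ (w : Pl) (T : Tate w) (δ : Om), w.p = 2 →
    ∃ φ ∈ w.D, (T.rd δ φ - 1).det ≠ 0 ∧ ∀ i, T.rd δ φ i i ≠ 1

/-- ordinary classes come from local points -/
-- deps: KUMA PHI
def S_LOC2 : Prop :=
  ∀ (w : Pl) (T : Tate w) (δ : Om) (m : ℤ), w.p = 2 → δ ^ 2 = m → Squarefree m →
    ∀ x : GS → V2, PZ (fun _ => w.D) (T.rq δ) x →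
    (∃ v, ∀ g ∈ S1 w.D, (x g - (rS (T.rq δ) g v - v)) 1 = 0) →
    ∀ c, Ap (fun _ => w.D) c x → ∃ e : ℕ, ∀ i : ℕ, ∀ᶠ k in UF, ∃ P : EO, ∀ g ∈ w.D,
      T.pt (((2 : ℚ_[2]) ^ e / 2 ^ i) • c k g) = tac δ g P - P

/-- the patched Selmer group is bounded by the classical one -/
-- deps: LOC2 PHI
def S_CLAS : Prop :=
  ∀ (w : Pl) (T : Tate w) (δ : Om) (m : ℤ), w.p = 2 → δ ^ 2 = m → Squarefree m → Sel1 δ →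
    R3.Rk1 T δ m

end Pool.Agent.P.MP_8b7eba_nt.SM.Tc
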