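import Pool.Agent.P.MP_8b7eba_nt.TC.All
import Pool.Agent.P.MP_8b7eba_nt.R3.Main
import Pool.Agent.P.MP_9c97e9_nt.K2.Main

/-! The converse theorem in ranks zero and one. -/

set_option autoImplicit false

namespace Pool.Agent.P.MP_8b7eba_nt.SM.Tc

open R2 MP_9c97e9_nt

theorem conv {d : ℤ} (hd : Squarefree d) (hE : ¬ Exc d)
    (hk : ∃ k : ℕ, ∀ φ : ZMod (2 ^ k) × ZMod (2 ^ k) →+ Sha (Wd d), ¬ Function.Injective φ)
    {f : ℂ → ℂ} (hf : BSD15.IsL (-12987 * d ^ 2) (-263466 * d ^ 3) f) :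
    f 1 = 0 ↔ (Af d).Infinite := by
  have hB := K2.conv_body hd (K2.z_ALL hd) hf
  refine ⟨fun h0 => ?_, fun h => hB.2 (.inl h)⟩
  by_contra hf'
  by_cases h30 : d ∣ 30
  · rcases K2.Small.cases h30 with h | h
    · obtain ⟨ψ, hψ⟩ := K2.Small.sha_tw hd.ne_zero
      have h7 := K2.Small.sub
        (K2.t_SZ0 (K2.t_SSEL K2.t_SLIFT K2.t_SDEC) K2.t_SSHA K2.t_SFIN d h).2
      exact (hB.1 h0).elim hf' (not_infinite_iff_finite.2 (KT.Conv.fin_prim ψ hψ inferInstance))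
    · exact not_finite_iff_infinite.2 (K2.t_SINF d h)
        (K2.Conv.fin_pt hd.ne_zero (Set.not_infinite.1 hf'))
  obtain ⟨T⟩ := a_TATE (pl 2) (pl_p Nat.prime_two)
  refine hf' (((R3.main2 R3.a_HEEG R3.a_KUM R3.a_LFUN R3.a_CONJ
    (R3.a_GKN R3.a_HEEG (R3.a_EXM R3.a_DENSN)) R3.a_INF R3.a_RN T d
    ⟨hd, fun δ hδ => ?_, a_AUX T d hd hE h30⟩).2 f hf).1.1 h0)
  have hS := a_SHA d δ hd.ne_zero hδ
  exact a_CLAS _ T δ d (pl_p Nat.prime_two) hδ hd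
    (hS.2 (Set.not_infinite.1 fun h => hf' (hS.1 h)) hk)

theorem inf_of {A : Type} [AddCommGroup A]
    (h : ∀ k : ℕ, ∃ φ : ZMod (2 ^ k) × ZMod (2 ^ k) →+ A, Function.Injective φ) :
    Infinite (AddCommGroup.primaryComponent A 2) := by
  by_contra hf
  have := not_infinite_iff_finite.1 hf
  obtain ⟨φ, hφ⟩ := h (Nat.card (AddCommGroup.primaryComponent A 2))
  generalize hN : Nat.card (AddCommGroup.primaryComponent A 2) = N at φ hφ
  have k := Nat.card_le_card_of_injective (β := AddCommGroup.primaryComponent A 2)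
    (fun x : ZMod (2 ^ N) => ⟨φ (x, 0), N, by
      rw [← map_nsmul, Prod.smul_mk, nsmul_eq_mul, ZMod.natCast_self, zero_mul, smul_zero]
      exact map_zero φ⟩)
    fun x y e => congrArg Prod.fst (hφ (congrArg Subtype.val e))
  rw [Nat.card_zmod, hN] at k
  exact Nat.lt_two_pow_self.not_ge k

theorem conv_iff {d : ℤ} (hd : Squarefree d) {f : ℂ → ℂ}
    (hf : BSD15.IsL (-12987 * d ^ 2) (-263466 * d ^ 3) f) :
    f 1 = 0 ↔ (Af d).Infinite ∨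
      (∀ k : ℕ, ∃ φ : ZMod (2 ^ k) × ZMod (2 ^ k) →+ Sha (Wd d), Function.Injective φ) ∨
      Exc d ∧ Infinite (AddCommGroup.primaryComponent (Sha (Wd d)) 2) := by
  have hB := K2.conv_body hd (K2.z_ALL hd) hf
  refine ⟨fun h0 => ?_, fun h => hB.2 (h.imp_right fun h => h.elim inf_of And.right)⟩
  by_cases hE : Exc d
  · exact (hB.1 h0).imp_right fun h => .inr ⟨hE, h⟩
  by_cases hk : ∀ k : ℕ, ∃ φ : ZMod (2 ^ k) × ZMod (2 ^ k) →+ Sha (Wd d), Function.Injective φ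
  · exact .inr (.inl hk)
  push Not at hk
  exact .inl ((conv hd hE hk hf).1 h0)

open R3 (twa) in
open Classical in
theorem rank_zero {d : ℤ} (hd : Squarefree d) (hE : ¬ Exc d)
    (hk : ∃ k : ℕ, ∀ φ : ZMod (2 ^ k) × ZMod (2 ^ k) →+ Sha (twa d), ¬ Function.Injective φ)
    (h0 : Module.rank ℤ (Pt (twa d) ℚ) = 0) :
    Finite (AddCommGroup.primaryComponent (Sha (twa d)) 2) ∧
      ∀ L : ℂ → ℂ, IsL (twa d) L → L 1 ≠ 0 := by
  obtain ⟨-, h1, L', hL, r, -, e1, e2, -⟩ := K2.z_ALL hd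
  obtain ⟨ψ, hψ⟩ := K2.Small.sha_tw hd.ne_zero
  obtain ⟨L, g, a1, a2, a3⟩ := R3.twa_L hd
  obtain rfl := KT.Conv.uniq hL a1
  obtain ⟨k, hk⟩ := hk
  have h2 : Finite (Pt (twa d) ℚ) := Finite.of_surjective
    (fun x : AddCommGroup.torsion (Pt (twa d) ℚ) => x.1) fun P => by
      obtain ⟨a, ha, e⟩ := rank_eq_zero_iff.1 h0 P
      exact ⟨⟨P, isOfFinAddOrder_iff_zsmul_eq_zero.2 ⟨a, ha, e⟩⟩, rfl⟩
  have h3 : L' 1 ≠ 0 := fun e => (conv hd hE ⟨k, fun φ hφ => hk (ψ.comp φ) (hψ.comp hφ)⟩ a2).1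
    (a3.1 e) (K2.Small.fin_aff hd.ne_zero h2)
  exact ⟨(e2.1 fun e => h3 (e1.2 e)).2, fun L hL' => KT.Conv.uniq hL hL' ▸ h3⟩

end Pool.Agent.P.MP_8b7eba_nt.SM.Tc
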