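import Pool.Agent.P.MP_8b7eba_nt.TC.Iface

/-! Step ADM. -/

set_option autoImplicit false

namespace Pool.Agent.P.MP_8b7eba_nt.SM.Tc

open Finset R2 X
open scoped Matrix

theorem p_ADM :
    S_ADM := by
  intro S Q B hS hQ
  obtain ⟨D, hD⟩ : ∃ D : ℤ, D = 2 * ∏ q ∈ S, (q : ℤ) := ⟨_, rfl⟩
  have hD0 : D ≠ 0 := hD ▸ mul_ne_zero two_ne_zero
    (prod_ne_zero_iff.2 fun q hq => Nat.cast_ne_zero.2 (hS q hq).1.ne_zero)
  have nd : ∀ p, Gp p → p ∉ S → ¬ (p : ℤ) ∣ 15 * D := fun p hp h a => by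
    have hp' := Nat.prime_iff_prime_int.1 hp.1
    rw [hD, ← mul_assoc] at a
    rcases hp'.dvd_or_dvd a with a | a
    · exact hp.2 (by exact_mod_cast a)
    · obtain ⟨q, hq, a⟩ := (hp'.dvd_finsetProd_iff _).1 a
      exact h ((Nat.prime_dvd_prime_iff_eq hp.1 (hS q hq).1).1 (by exact_mod_cast a) ▸ hq)
  obtain ⟨c, hc⟩ := COrth.exists_C0 (D := D) (Q := Q) fun q hq =>
    ⟨(hQ q hq).1, nd q (hQ q hq).1 (hQ q hq).2⟩
  obtain ⟨l, a1, a2, -⟩ := COrth.cheb2 (Z := ∅) hS (by simp) (fun q hq => (hQ q hq).1) hD hD0 hc B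
  exact ⟨l, a1, a2⟩

end Pool.Agent.P.MP_8b7eba_nt.SM.Tc
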