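import Pool.Agent.P.MP_8b7eba_nt.TC.Iface

/-! Step FORM. -/

set_option autoImplicit false

namespace Pool.Agent.P.MP_8b7eba_nt.SM.Tc

open Finset R2 X
open scoped Matrix

namespace FORMc

variable {Λ : Lat} {S : Finset ℕ} {l : ℕ} {φ φ' u : X2} {c c' : F2}

theorem padd (hu : IsCh ⊤ u) (h : Pr Λ S l φ u c) (h' : Pr Λ S l φ' u c') :
    Pr Λ S l (φ + φ') u (c + c') := by
  obtain ⟨y, m, a1, a2, a3, rfl⟩ := h
  obtain ⟨y', m', b1, b2, b3, rfl⟩ := h'
  refine ⟨fun g => y g + y' g, fun p g => m p g + m' p g,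
    ⟨a1.zn.add b1.zn, fun w a b g hg => (a1.unr w a b g hg).add (b1.unr w a b g hg),
      a1.inf.add b1.inf⟩, fun g => by rw [rd_add, a2, b2, Pi.add_apply],
    fun p hp => ⟨(a3 p hp).1.add (b3 p hp).1, ((a3 p hp).2.add (b3 p hp).2).congr fun g _ => ?_⟩,
    ?_⟩
  · have e := ((dv_pow (j := 1)).2 (dv_lf_add (m p g) (m' p g))).neg
    refine BasZ.of_eq e ?_
    simp only [smul_sub, smul_add]
    abel
  · rw [← sum_add_distrib]
    exact sum_congr rfl fun p hp =>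
      (iv_d2_add (a3 p hp).1 (b3 p hp).1 (hu.mono le_top)).symm

theorem pzero (hS : ∀ p ∈ S, Gp p) (hl : Spl S l) (hu : u ∈ XX Λ S) (h : Pr Λ S l 0 u c) :
    c = 0 := by
  obtain ⟨y, m, a1, a2, a3, rfl⟩ := h
  obtain ⟨ml, hm⟩ := TGLIFT.loc2 (o := l = 2) (H := (pl l).D) (a1.zn.mono le_top le_rfl)
    (Lat.lc_of_dv fun g _ => rd_eq_zero.1 (a2 g))
  have ne : ∀ p ∈ S ∪ T30, p ≠ l := fun p hp e => not_mem hl (e ▸ hp)
  have h0 := a_ZERO Λ (insert l S) 0 (fun _ => 0) y (fun g => lf (u g))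
    (fun p => if p = l then ml else m p) (gp_insert hS hl)
    ⟨⟨Lat.zn_zero, fun _ _ _ _ _ => dv_zero, Lat.lc_of_dv fun _ _ => dv_zero⟩,
      fun _ _ => Lat.lc_of_dv fun _ _ => dv_zero⟩ a1
    (fun g => (a2 g).trans (rd_eq_zero.2 dv_zero).symm)
    (fun p hp => by
      rw [insert_union', mem_insert] at hp
      rcases hp with rfl | hp
      · rw [if_pos rfl]
        exact hm
      · rw [if_neg (ne p hp)]
        exact a3 p hp) (XX.wn hS hl hu)
  simp only [rd_lf] at h0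
  rw [insert_union', sum_insert (not_mem hl),
    iv_d2_zero fun g hg => zero_D hS hl hu.1 hu.2.1 hu.2.2.1 hg, zero_add] at h0
  exact (sum_congr rfl fun p hp => by rw [if_neg (ne p hp)]).trans h0

theorem uniq (hS : ∀ p ∈ S, Gp p) (hl : Spl S l) (hu : u ∈ XX Λ S) (h : Pr Λ S l φ u c)
    (h' : Pr Λ S l φ u c') : c = c' := by
  have h1 := padd hu.1 h h'
  have e : φ + φ = 0 := funext fun g => funext fun i => CharTwo.add_self_eq_zero _
  rw [e] at h1
  exact CharTwo.add_eq_zero.1 (pzero hS hl hu h1)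

theorem lift (hS : ∀ p ∈ S, Gp p) (hl : Spl S l) (hφ : φ ∈ XX Λ S) :
    ∃ (y : GQ → VZ) (m : ℕ → X2), Λ.Gy (insert l S) 2 y ∧ (∀ g, rd (y g) = φ g) ∧
      ∀ p ∈ S ∪ T30, Λ.Ld (insert l S) 1 y p (m p) := by
  obtain ⟨y, a1, a2, a3⟩ := a_GLIFT Λ (insert l S) 1 _ (gp_insert hS hl) (XX.wn hS hl hφ)
  choose! m hm using a3
  exact ⟨y, m, a1, fun g => (rd_eq.2 (a2 g)).trans (rd_lf _), fun p hp =>
    hm p (by rw [insert_union']; exact mem_insert_of_mem hp)⟩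

end FORMc

theorem p_FORM :
    S_FORM := by
  intro Λ S l hS hl
  choose y m h1 h2 h3 using fun φ : XX Λ S => FORMc.lift hS hl φ.2
  let f : XX Λ S → XX Λ S → F2 := fun φ u => ∑ p ∈ S ∪ T30, iv p (d2 (m φ p) u)
  have hf : ∀ φ u : XX Λ S, Pr Λ S l φ u (f φ u) := fun φ u =>
    ⟨y φ, m φ, h1 φ, h2 φ, h3 φ, rfl⟩
  have two : ∀ c : F2, c = 0 ∨ c = 1 := by decide
  refine ⟨LinearMap.mk₂ F2 f
    (fun a b u => FORMc.uniq hS hl u.2 (hf (a + b) u) (FORMc.padd u.2.1 (hf a u) (hf b u)))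
    (fun c a u => ?_) (fun a u v => ?_) (fun c a u => ?_),
    fun φ u c => ⟨fun h => FORMc.uniq hS hl u.2 h (hf φ u), fun e => e ▸ hf φ u⟩⟩
  · rcases two c with rfl | rfl
    · rw [zero_smul, zero_smul]
      exact FORMc.pzero hS hl u.2 (hf 0 u)
    · rw [one_smul, one_smul]
  · rw [← sum_add_distrib]
    refine sum_congr rfl fun p hp => ?_
    rw [← iv_add (co2_d2 (h3 a p hp).1 (u.2.1.mono le_top))
      (co2_d2 (h3 a p hp).1 (v.2.1.mono le_top))]
    refine iv_congr fun g _ k _ => ?_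
    simp only [d2, Pi.add_apply, Submodule.coe_add]
    ring
  · rcases two c with rfl | rfl
    · rw [zero_smul, zero_smul]
      exact sum_eq_zero fun p _ => iv_d2_zero fun _ _ => rfl
    · rw [one_smul, one_smul]

end Pool.Agent.P.MP_8b7eba_nt.SM.Tc
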