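import Pool.Agent.P.MP_8b7eba_nt.TC.Iface

/-! Step LD. -/

set_option autoImplicit false

namespace Pool.Agent.P.MP_8b7eba_nt.SM.Tc

open Finset R2 X
open scoped Matrix

namespace LDc

theorem l22 : ∀ j a0 a1 b0 b1 x0 x1 : F2,
    (∀ c0 c1 : F2, c0 * a0 + c1 * b0 = 0 → c0 * a1 + c1 * b1 = 0 → c0 = 0 ∧ c1 = 0) →
    a1 * x0 + a0 * x1 + j * a0 * x0 = 0 → b1 * x0 + b0 * x1 + j * b0 * x0 = 0 →
    x0 = 0 ∧ x1 = 0 := by decide +kernel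

theorem l21 : ∀ j a0 a1 x0 x1 y0 y1 : F2, (∀ c0 : F2, c0 * a0 = 0 → c0 * a1 = 0 → c0 = 0) →
    a1 * x0 + a0 * x1 + j * a0 * x0 = 0 → a1 * y0 + a0 * y1 + j * a0 * y0 = 0 →
    (x0 = 0 ∧ x1 = 0) ∨ (y0 = 0 ∧ y1 = 0) ∨ (x0 + y0 = 0 ∧ x1 + y1 = 0) := by decide +kernel

set_option synthInstance.maxSize 4096 in
theorem l33 : ∀ a0 a1 a2 b0 b1 b2 d0 d1 d2 : F2,
    (∀ c0 c1 c2 : F2, c0 * a0 + c1 * b0 + c2 * d0 = 0 → c0 * a1 + c1 * b1 + c2 * d1 = 0 →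
      c0 * a2 + c1 * b2 + c2 * d2 = 0 → c0 = 0 ∧ c1 = 0 ∧ c2 = 0) → ∀ x0 x1 x2 : F2,
    a0 * x0 + a1 * x2 + a2 * x1 = 0 → b0 * x0 + b1 * x2 + b2 * x1 = 0 →
    d0 * x0 + d1 * x2 + d2 * x1 = 0 → x0 = 0 ∧ x1 = 0 ∧ x2 = 0 := by decide +kernel

set_option synthInstance.maxSize 4096 in
theorem l32 : ∀ a0 a1 a2 b0 b1 b2 : F2,
    (∀ c0 c1 : F2, c0 * a0 + c1 * b0 = 0 → c0 * a1 + c1 * b1 = 0 →
      c0 * a2 + c1 * b2 = 0 → c0 = 0 ∧ c1 = 0) → ∀ x0 x1 x2 : F2,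
    a0 * x0 + a1 * x2 + a2 * x1 = 0 → b0 * x0 + b1 * x2 + b2 * x1 = 0 → ∀ y0 y1 y2 : F2,
    a0 * y0 + a1 * y2 + a2 * y1 = 0 → b0 * y0 + b1 * y2 + b2 * y1 = 0 →
    (x0 = 0 ∧ x1 = 0 ∧ x2 = 0) ∨ (y0 = 0 ∧ y1 = 0 ∧ y2 = 0) ∨
      (x0 + y0 = 0 ∧ x1 + y1 = 0 ∧ x2 + y2 = 0) := by decide +kernel

theorem eq_of_add : ∀ a b : F2, a + b = 0 → a = b := by decide

theorem ind {p k : ℕ} {L : Submodule F2 (GQ → F2)} (hL : ∀ β ∈ L, IsCh (pl p).D β)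
    (h : Dm L p k) : ∃ f : Fin k → GQ → F2, (∀ i, f i ∈ L) ∧ ∀ c : Fin k → F2,
      ∃ β : GQ → F2, IsCh (pl p).D β ∧ (∀ g, β g = ∑ i, c i * f i g) ∧
        ((∀ g ∈ (pl p).D, β g = 0) → c = 0) := by
  obtain ⟨f, h1, h2⟩ := h
  refine ⟨f, h1, fun c => ⟨∑ i, c i • f i, hL _ (sum_mem fun i _ => L.smul_mem _ (h1 i)),
    fun g => by simp, fun e => h2 c fun g hg => ?_⟩⟩
  rw [← e g hg]; simp

end LDc

open LDc in
theorem p_LD (hHILP : S_HILP) (hHIL2 : S_HIL2) :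
    S_LD := by
  intro p L α α' hp hL hα hα' o o'
  by_cases h2 : p = 2
  · subst h2
    obtain ⟨s, -, -, h3, h4⟩ := hHIL2
    have z : ∀ β : GQ → F2, IsCh (pl 2).D β → β (s 0) = 0 ∧ β (s 1) = 0 ∧ β (s 2) = 0 →
        ∀ g ∈ (pl 2).D, β g = 0 := fun β hβ e g hg => by
      rw [h3 β hβ g hg, e.1, e.2.1, e.2.2]; simp
    refine ⟨fun h => ?_, fun h => ?_⟩
    · obtain ⟨f, a, b⟩ := ind (k := 3) hL h
      have w := fun i => (h4 _ _ (hL _ (a i)) hα).symm.trans (o _ (a i))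
      refine z α hα (l33 _ _ _ _ _ _ _ _ _ (fun c0 c1 c2 e0 e1 e2 => ?_) _ _ _ (w 0) (w 1) (w 2))
      obtain ⟨β, b1, b2, b3⟩ := b ![c0, c1, c2]
      simp only [Fin.sum_univ_three] at b2
      have := b3 (z β b1 ⟨(b2 _).trans e0, (b2 _).trans e1, (b2 _).trans e2⟩)
      exact ⟨congrFun this 0, congrFun this 1, congrFun this 2⟩
    · obtain ⟨f, a, b⟩ := ind (k := 2) hL h
      have w := fun i => (h4 _ _ (hL _ (a i)) hα).symm.trans (o _ (a i))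
      have w' := fun i => (h4 _ _ (hL _ (a i)) hα').symm.trans (o' _ (a i))
      refine (l32 _ _ _ _ _ _ (fun c0 c1 e0 e1 e2 => ?_) _ _ _ (w 0) (w 1) _ _ _ (w' 0)
        (w' 1)).imp (z α hα) (Or.imp (z α' hα') fun e g hg =>
          eq_of_add _ _ (z (α + α') (hα.add hα') e g hg))
      obtain ⟨β, b1, b2, b3⟩ := b ![c0, c1]
      simp only [Fin.sum_univ_two] at b2
      have := b3 (z β b1 ⟨(b2 _).trans e0, (b2 _).trans e1, (b2 _).trans e2⟩)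
      exact ⟨congrFun this 0, congrFun this 1⟩
  · have z : ∀ β : GQ → F2, IsCh (pl p).D β → β (tp p) = 0 ∧ β (fr p) = 0 →
        ∀ g ∈ (pl p).D, β g = 0 := fun β hβ e g hg => ch_D hp h2 hβ e.1 e.2 hg
    rw [du, if_neg h2]
    refine ⟨fun h => ?_, fun h => ?_⟩
    · obtain ⟨f, a, b⟩ := ind (k := 2) hL h
      have w := fun i => (hHILP p _ _ hp h2 (hL _ (a i)) hα).symm.trans (o _ (a i))
      refine z α hα (l22 _ _ _ _ _ _ _ (fun c0 c1 e0 e1 => ?_) (w 0) (w 1))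
      obtain ⟨β, b1, b2, b3⟩ := b ![c0, c1]
      simp only [Fin.sum_univ_two] at b2
      have := b3 (z β b1 ⟨(b2 _).trans e0, (b2 _).trans e1⟩)
      exact ⟨congrFun this 0, congrFun this 1⟩
    · obtain ⟨f, a, b⟩ := ind (k := 1) hL h
      have w := (hHILP p _ _ hp h2 (hL _ (a 0)) hα).symm.trans (o _ (a 0))
      have w' := (hHILP p _ _ hp h2 (hL _ (a 0)) hα').symm.trans (o' _ (a 0))
      refine (l21 _ _ _ _ _ _ _ (fun c0 e0 e1 => ?_) w w').imp (z α hα)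
        (Or.imp (z α' hα') fun e g hg => eq_of_add _ _ (z (α + α') (hα.add hα') e g hg))
      obtain ⟨β, b1, b2, b3⟩ := b ![c0]
      simp only [Fin.sum_univ_one] at b2
      exact congrFun (b3 (z β b1 ⟨(b2 _).trans e0, (b2 _).trans e1⟩)) 0

end Pool.Agent.P.MP_8b7eba_nt.SM.Tc
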