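import Pool.Agent.P.MP_8b7eba_nt.R3.BAlpha
import Pool.Agent.P.MP_8b7eba_nt.R3.Def0

/-! The Kummer cocycle of a local point at two, for an arbitrary twist. -/

set_option autoImplicit false

namespace Pool.Agent.P.MP_8b7eba_nt.TC.Loc

open scoped NNReal Matrix
open MP_9c97e9_nt (Pt pm Is Split UU)
open Filter Topology R2 R2.TLOC2

variable {w : Pl} (T : Tate w) {δ : Om} {m : ℤ}

theorem exf (h2 : w.p = 2) (δ : Om) : ∃ φ ∈ w.D, ∀ i, T.rd δ φ i i ≠ 1 := by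
  obtain ⟨f, fD, -, h⟩ := R3.exists_alpha T h2
  obtain ⟨s, hs, e⟩ := a_CP.ec2 w h2 (cyc f)⁻¹
  have h9 := mul_mem fD (w.I_le_D hs)
  have hα : ‖T.rho (f * s) 1 1 - 1‖ = 4⁻¹ := by
    rw [← h, map_mul, Matrix.mul_apply, Fin.sum_univ_two, T.up f fD, T.un s hs, zero_mul, zero_add,
      mul_one]
  have hd : T.rho (f * s) 0 0 * T.rho (f * s) 1 1 = 1 := by
    have := T.det (f * s)
    rw [Matrix.det_fin_two, T.up _ h9, mul_zero, sub_zero, cq, a_CP.ec.2.1, e,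
      mul_inv_cancel] at this
    simpa using this
  have k : T.rho (f * s) 1 1 ≠ sd δ (f * s) := fun e => by
    rcases sd_cases δ (f * s) with b | b <;> rw [e, b] at hα <;> push_cast at hα
    · norm_num at hα
    · rw [show (-1 - 1 : ℚ_[2]) = -2 by norm_num, norm_neg, n2] at hα
      norm_num at hα
  have h4 : (sd δ (f * s) : ℚ_[2]) * sd δ (f * s) = 1 := by exact_mod_cast sd_sq δ (f * s)
  refine ⟨_, h9, Fin.forall_fin_two.2 ⟨fun e => k ?_, fun e => k ?_⟩⟩ <;>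
    rw [Tate.rd, Matrix.smul_apply, smul_eq_mul] at e
  · linear_combination sd δ (f * s) * hd - T.rho (f * s) 1 1 * e
  · linear_combination sd δ (f * s) * e - T.rho (f * s) 1 1 * h4

/-- the abscissa is large -/
def Bg (w : Pl) (c : ℝ≥0) (Q : EO) : Prop := ∀ x η, Is Q x η → c ≤ w.v x

theorem Bg.dbl (h2 : w.p = 2) {c : ℝ≥0} {Q : EO} (hc : 2⁻¹ ≤ c) (h : Bg w c Q) :
    Bg w (2 * c) (2 • Q) := by
  intro x' η' h'
  rw [two_nsmul] at h'
  rcases MP_9c97e9_nt.zero_or_is Q with rfl | ⟨x, η, hQ⟩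
  · exact absurd (add_zero _) h'.ne_zero
  have h0 := (hQ.two_ne split15).1 h'.ne_zero
  have u := MP_9c97e9_nt.UU_sq split15 h'
  rw [hQ.UU_eq, div_pow, eq_div_iff (pow_ne_zero 2 h0), hQ.eq split15] at u
  have a := h x η hQ
  have a' := hc.trans a
  have v2 := Pl.v_two' h2
  have v4 : w.v 4 = 4⁻¹ := by
    rw [show (4 : Om) = 2 ^ 2 by norm_num, map_pow, v2]
    norm_num
  have v16 : w.v 16 = 16⁻¹ := by
    rw [show (16 : Om) = 2 ^ 4 by norm_num, map_pow, v2]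
    norm_num
  have v9 : w.v 9 ≤ 1 := by simpa using w.v_nat_le 9
  have b1 : w.v (x - 16) = w.v x := w.v.map_sub_eq_of_lt_left (by
    rw [v16]
    exact lt_of_lt_of_le (by norm_num) a')
  have b2 : w.v (x ^ 2 + 16 * 9) = w.v x ^ 2 := by
    rw [← map_pow]
    refine w.v.map_add_eq_of_lt_left ?_
    rw [map_mul, map_pow, v16]
    refine lt_of_le_of_lt (mul_le_of_le_one_right' v9) (lt_of_lt_of_le ?_ (pow_le_pow_left' a' 2))
    norm_num
  have b3 : w.v (x + 9) ≤ 2 * w.v x := w.v.map_add_le (le_mul_of_one_le_left' one_le_two)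
    (v9.trans (by
      have := mul_le_mul_right a' 2
      rwa [mul_inv_cancel₀ two_ne_zero] at this))
  have e := congrArg w.v (show x' * (4 * (x * (x + 9) * (x - 16))) = (x ^ 2 + 16 * 9) ^ 2 by
    linear_combination u)
  simp only [map_mul, map_pow, b1, b2, v4] at e
  refine (mul_le_mul_right a 2).trans ?_
  have p : (0 : ℝ) < w.v x := by exact_mod_cast lt_of_lt_of_le (by norm_num) a'
  have e' := congrArg NNReal.toReal e
  have b3' := NNReal.coe_le_coe.2 b3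
  push_cast at e' b3'
  rw [← NNReal.coe_le_coe]
  push_cast
  have q : (0 : ℝ) ≤ w.v x' := NNReal.coe_nonneg _
  generalize (w.v x : ℝ) = A at *
  generalize (w.v x' : ℝ) = B at *
  generalize (w.v (x + 9) : ℝ) = C at *
  have k : A ^ 3 * (2 * A) ≤ A ^ 3 * B := by
    have := mul_le_mul_of_nonneg_left b3' (show 0 ≤ B * A ^ 2 by positivity)
    nlinarith
  exact le_of_mul_le_mul_left k (by positivity)

theorem Bg.pow (h2 : w.p = 2) {c : ℝ≥0} {Q : EO} (hc : 2⁻¹ ≤ c) (h : Bg w c Q) (i : ℕ) :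
    Bg w (2 ^ i * c) (2 ^ i • Q) := by
  induction i with
  | zero => simpa using h
  | succ i ih =>
    rw [pow_succ', mul_assoc, pow_succ', mul_smul]
    exact ih.dbl h2 (hc.trans (le_mul_of_one_le_left' (one_le_pow₀ one_le_two)))

theorem Bg.ne (h2 : w.p = 2) {Q : EO} (h : Bg w 2 Q) (h0 : Q ≠ 0) (i : ℕ) : 2 ^ i • Q ≠ 0 := by
  induction i with
  | zero => simpa using h0
  | succ i ih =>
    obtain ⟨x, η, hQ⟩ := (MP_9c97e9_nt.zero_or_is _).resolve_left ih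
    have a : 1 < w.v x := lt_of_lt_of_le one_lt_two
      ((le_mul_of_one_le_left' (one_le_pow₀ one_le_two)).trans
        (h.pow h2 ((inv_le_one_of_one_le₀ one_le_two).trans one_le_two) i x η hQ))
    rw [pow_succ', mul_smul, two_nsmul, hQ.two_ne split15]
    intro e
    have k := hQ.eq split15
    rw [e, zero_pow two_ne_zero, eq_comm, mul_eq_zero, mul_eq_zero, mul_eq_zero, sub_eq_zero,
      sub_eq_zero, sub_eq_zero] at k
    rcases k with k | (k | k) | k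
    · norm_num at k
    · exact a.not_ge (by simpa [k] using w.v_nat_le 0)
    · exact a.not_ge (by simpa [k] using w.v_nat_le 9)
    · exact a.not_ge (by simpa [k] using w.v_nat_le 16)

theorem Bg.of_fix (h2 : w.p = 2) {Q : EO} (h1 : E1 w Q) (h3 : ∀ g ∈ w.D, tac δ g Q = Q) :
    Bg w 2⁻¹ Q := by
  intro x η hQ
  have a := h1 x η hQ
  have f : Fix w.D x := fun g hg => by
    have k := is_ac g hQ
    have e := h3 g hg
    rw [tac_apply] at e
    rcases sd_cases δ g with b | b <;> rw [b] at e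
    · rw [one_zsmul] at e
      exact ((e ▸ k).inj hQ).1
    · rw [neg_one_zsmul] at e
      exact ((e ▸ k.neg).inj hQ).1
  obtain ⟨k, hk⟩ := (a_CP.res w _ w.loc_D).2.2.2.1.2.2.2 x f fun e => by simp [e] at a
  rw [show (4 : Om) = 2 ^ 2 by norm_num, map_pow, Pl.v_two' h2, hk, w.vp, h2] at a
  rw [hk, w.vp, h2]
  push_cast at a ⊢
  rw [← zpow_natCast, zpow_lt_zpow_iff_right_of_lt_one₀ (by norm_num) (by norm_num)] at a
  nth_rw 1 [← zpow_one (2⁻¹ : ℝ≥0)]
  exact zpow_le_zpow_right_of_le_one₀ (by norm_num) (by norm_num) (by omega)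

/-- a point of the twist which lies deep in the kernel of the reduction -/
theorem point (h2 : w.p = 2) (hδ : δ ^ 2 = m) (hm : m ≠ 0) : ∃ P : EO,
    P ≠ 0 ∧ Bg w 2 P ∧ ∀ g ∈ w.D, tac δ g P = P := by
  have m0 : (m : Om) ≠ 0 := Int.cast_ne_zero.2 hm
  have d0 : δ ≠ 0 := fun e => m0 (by rw [← hδ, e]; ring)
  have h8 : (1 + 144 * m) * (1 - 256 * m) % 8 = 1 := by
    rw [Int.mul_emod, show (1 + 144 * m) % 8 = 1 by omega, show (1 - 256 * m) % 8 = 1 by omega]; rfl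
  obtain ⟨y, hy, e⟩ := ((a_CP.sq2 w).2.2.2.2.1 h2 _ (Int.odd_iff.2 (by omega))).1.2 h8
  push_cast at e
  obtain ⟨P, h⟩ := split15.exists_is (x := (16 * m : Om)⁻¹) (η := y / (32 * m * δ)) (by
    rw [div_pow, mul_pow, hδ, ← e]; field_simp; ring)
  refine ⟨P, h.ne_zero, fun x η h' => ?_, fun g hg => ?_⟩
  · have a : w.v (16 * m) ≤ 2⁻¹ := by
      rw [show (16 * m : Om) = 2 * ((8 * m : ℤ) : Om) by push_cast; ring, map_mul, Pl.v_two' h2]
      exact mul_le_of_le_one_right' (w.v_int_le _)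
    rw [(h'.inj h).1, map_inv₀]
    exact (le_inv_comm₀ two_pos ((w.v.pos_iff).2 (mul_ne_zero (by norm_num) m0))).2 a
  · have h1 := is_ac g h
    simp only [map_div₀, map_inv₀, map_mul, map_ofNat, map_intCast, hy g hg,
      sd_apply (fix_sq hδ) g] at h1
    rw [tac_apply]
    rcases sd_cases δ g with e | e <;> rw [e] at h1 ⊢
    · exact Is.unique split15 (by simpa using h1) h
    · exact Is.unique split15 (by simpa [div_neg] using h1.neg) h

/-- the Kummer cocycle -/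
theorem kum (h2 : w.p = 2) (hδ : δ ^ 2 = m) (hm : m ≠ 0) :
    ∃ (Q : ℕ → EO) (κ : GQ → V2), (∀ g, ‖κ g‖ ≤ 1) ∧
      (∀ g ∈ w.D, ∀ i, T.pt (((2 : ℚ_[2]) ^ i)⁻¹ • κ g) = tac δ g (Q i) - Q i) ∧
      (∀ g ∈ w.D, κ g 1 = 0) ∧ ∀ t, ¬ ∀ g ∈ w.D, κ g 0 = T.rd δ g 0 0 * t - t := by
  have hP := a_CP
  obtain ⟨P, h0, hB, h3⟩ := point h2 hδ hm
  have h1 : E1 w P := fun x η h => lt_of_lt_of_le
    (lt_of_le_of_lt (by simpa using w.v_nat_le 4) one_lt_two) (hB x η h)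
  choose! f f1 f2 using (hP.e1g w).2.2.2.2.1
  have q1 : ∀ i, E1 w (f^[i] P) := fun i => by
    induction i with
    | zero => exact h1
    | succ i ih => rw [Function.iterate_succ_apply']; exact f1 _ ih
  have q2 : ∀ i, 2 • f^[i + 1] P = f^[i] P := fun i => by
    rw [Function.iterate_succ_apply', f2 _ (q1 i)]
  have q3 : ∀ i, 2 ^ i • f^[i] P = P := fun i => by
    induction i with
    | zero => simp
    | succ i ih => rw [pow_succ, mul_smul, q2, ih]
  have k : ∀ g, ∃ k : V2, ‖k‖ ≤ 1 ∧ (g ∈ w.D → ∀ i : ℕ,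
      T.pt (((2 : ℚ_[2]) ^ i)⁻¹ • k) = tac δ g (f^[i] P) - f^[i] P) := fun g => by
    by_cases hg : g ∈ w.D
    · obtain ⟨k, a, b⟩ := lim T (fun i => tac δ g (f^[i] P) - f^[i] P) (sub_eq_zero.2 (h3 g hg))
        fun i => by rw [smul_sub, ← map_nsmul, q2]
      exact ⟨k, a, fun _ => b⟩
    · exact ⟨0, by simp, fun e => absurd e hg⟩
  choose κ k1 k2 using k
  have k3 : ∀ g ∈ w.D, κ g 1 = 0 := fun g hg => small fun i =>
    (T.e1 (((2 : ℚ_[2]) ^ i)⁻¹ • κ g)).1 (k2 g hg i ▸ e1_tac hP.e1g hg (q1 i))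
  refine ⟨fun i => f^[i] P, κ, k1, k2, k3, fun t ht => ?_⟩
  have hu : ∀ g ∈ w.D, κ g = T.rd δ g *ᵥ ![t, 0] - ![t, 0] := fun g hg => by
    ext i
    fin_cases i <;> simp [Matrix.mulVec, dotProduct, up T hg, ht g hg, k3 g hg]
  obtain ⟨n, hn⟩ := T.tors ![t, 0]
  obtain ⟨x, η, hx⟩ := (MP_9c97e9_nt.zero_or_is _).resolve_left (hB.ne h2 h0 n)
  obtain ⟨i, hi⟩ := pow_unbounded_of_one_lt (w.v x * 2) (one_lt_two (α := ℝ≥0))
  have r := (Bg.of_fix (δ := δ) h2 (Q := f^[i] P - T.pt (((2 : ℚ_[2]) ^ i)⁻¹ • ![t, 0]))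
    (by
      rw [sub_eq_add_neg]
      exact (hP.e1g w).2.2.1 _ _ (q1 i) ((hP.e1g w).2.1 _ ((T.e1 _).2 (by simp))))
    fun g hg => by
      have := k2 g hg i
      rw [hu g hg, smul_sub, map_sub, ← Matrix.mulVec_smul, ← T.tgal] at this
      rw [map_sub, sub_eq_sub_iff_sub_eq_sub, ← this]).pow h2 le_rfl (n + i)
  have e : 2 ^ i • T.pt (((2 : ℚ_[2]) ^ i)⁻¹ • ![t, 0]) = T.pt ![t, 0] := by
    rw [← pt_nat, smul_smul]
    simp
  rw [pow_add (2 : ℕ) n i, mul_smul, smul_sub, q3, e, smul_sub, hn, sub_zero] at r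
  have r' := r x η hx
  rw [mul_inv_le_iff₀ two_pos] at r'
  exact (hi.trans_le (pow_le_pow_right₀ one_le_two (by omega))).not_ge r'

end Pool.Agent.P.MP_8b7eba_nt.TC.Loc
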