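import Pool.Agent.P.MP_8b7eba_nt.TC.Iface

/-! Step TH. -/

set_option autoImplicit false

namespace Pool.Agent.P.MP_8b7eba_nt.SM.Tc

open Finset R2 X
open scoped Matrix

theorem p_TH :
    S_TH := by
  intro Λ S φ u hS hφ hu
  obtain ⟨θ, h1, h2⟩ := HA.gth ((30 * ∏ q ∈ S, q : ℕ) : ℤ) (d2 φ u)
    (Int.natCast_ne_zero.2 (mul_ne_zero (by norm_num)
      (prod_ne_zero_iff.2 fun q hq => (hS q hq).1.ne_zero)))
    ((TGLIFT.dvd_n hS Nat.prime_two).2 (Or.inl (by norm_num))) (co2_d2 hφ.1 hu.1)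
    (fun w hw i hi g => by
      rw [TGLIFT.dvd_n hS w.prime, not_or] at hw
      simp [d2, hφ.2.1 w hw.1 hw.2 i hi, hu.2.1 w hw.1 hw.2 i hi])
    (fun p hp hd => ⟨pl p, pl_p hp, by
      have m : p ∈ S ∪ T30 := mem_union.2 (((TGLIFT.dvd_n hS hp).1 hd).symm.imp_right
        fun e => mem_T30.2 ⟨hp, e⟩)
      have e := LL.iso (isCh_chi S) (hφ.2.2.2 p m) (hu.2.2.2 p m)
      by_contra k
      rw [iv, if_neg k] at e
      exact one_ne_zero e⟩)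
    fun g hg h _ => by simp [d2, zero_Ht hφ.1 hφ.2.2.1 hg]
  exact ⟨θ, h1, fun w a b g hg =>
    h2 w (by rw [TGLIFT.dvd_n hS w.prime]; exact not_or.2 ⟨a, b⟩) g hg⟩

end Pool.Agent.P.MP_8b7eba_nt.SM.Tc
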